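import Mathlib
import Pool.Agent.H26.ToricComb

/-! # Combinatorics of the log discrepancy function: inversion of adjunction -/

open scoped BigOperators
open Pool.Agent.H26

namespace Pool.Agent.H50.Hyp

universe u

section basic

variable {k : Type u} [Field k] {n : ℕ}

/-- `in_w(F)` is a monomial -/
def IsMono (w : Fin n → ℤ) (F : Laurent k n) : Prop :=
  ∃ m0 ∈ F.coeff.support, ∀ m ∈ F.coeff.support, m ≠ m0 → m0 ⬝ᵥ w < m ⬝ᵥ w

lemma minWt_eq {w : Fin n → ℤ} {F : Laurent k n} {m0 : Fin n → ℤ} (hm0 : m0 ∈ F.coeff.support)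
    (hmin : ∀ m ∈ F.coeff.support, m0 ⬝ᵥ w ≤ m ⬝ᵥ w) : minWt w F = m0 ⬝ᵥ w := by
  have hF : F ≠ 0 := by
    rintro rfl
    simp at hm0
  exact (minWt_spec w hF).eq ⟨⟨m0, hm0, rfl⟩, hmin⟩

lemma minWt_le {w : Fin n → ℤ} {F : Laurent k n} {m : Fin n → ℤ} (hm : m ∈ F.coeff.support) :
    minWt w F ≤ m ⬝ᵥ w := by
  have hF : F ≠ 0 := by
    rintro rfl
    simp at hm
  exact (minWt_spec w hF).2 m hm

lemma dot_comb (m w w' : Fin n → ℤ) (a b : ℤ) :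
    m ⬝ᵥ (a • w + b • w') = a * (m ⬝ᵥ w) + b * (m ⬝ᵥ w') := by
  rw [dotProduct_add, dotProduct_smul, dotProduct_smul, smul_eq_mul, smul_eq_mul]

lemma minWt_comb {w w' : Fin n → ℤ} {F : Laurent k n} (hF : F ≠ 0) {a b : ℤ} (ha : 0 ≤ a)
    (hb : 0 ≤ b) : a * minWt w F + b * minWt w' F ≤ minWt (a • w + b • w') F := by
  obtain ⟨m, hm, hmw⟩ := (minWt_spec (a • w + b • w') hF).1
  rw [← hmw, dot_comb]
  exact add_le_add (mul_le_mul_of_nonneg_left (minWt_le hm) ha)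
    (mul_le_mul_of_nonneg_left (minWt_le hm) hb)

lemma exists_cross (F : Laurent k n) (w ρ : Fin n → ℤ) {m0 : Fin n → ℤ}
    (hmin : ∀ m ∈ F.coeff.support, m0 ⬝ᵥ w ≤ m ⬝ᵥ w)
    (hdir : ∀ m ∈ F.coeff.support, m ⬝ᵥ w = m0 ⬝ᵥ w → m0 ⬝ᵥ ρ ≤ m ⬝ᵥ ρ)
    (hex : ∃ m ∈ F.coeff.support, m ⬝ᵥ ρ < m0 ⬝ᵥ ρ) :
    ∃ q p : ℤ, 0 < q ∧ 0 < p ∧
      (∀ m ∈ F.coeff.support, m0 ⬝ᵥ (q • w + p • ρ) ≤ m ⬝ᵥ (q • w + p • ρ)) ∧
      ∃ m1 ∈ F.coeff.support, m1 ⬝ᵥ ρ < m0 ⬝ᵥ ρ ∧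
        m1 ⬝ᵥ (q • w + p • ρ) = m0 ⬝ᵥ (q • w + p • ρ) := by
  classical
  set T := F.coeff.support.filter (fun m => m ⬝ᵥ ρ < m0 ⬝ᵥ ρ) with hT
  have hTne : T.Nonempty := by
    obtain ⟨m, hm, h⟩ := hex
    exact ⟨m, Finset.mem_filter.2 ⟨hm, h⟩⟩
  obtain ⟨m1, hm1T, hm1⟩ := T.exists_min_image
    (fun m => ((m ⬝ᵥ w - m0 ⬝ᵥ w : ℤ) : ℚ) / ((m0 ⬝ᵥ ρ - m ⬝ᵥ ρ : ℤ) : ℚ)) hTne
  obtain ⟨hm1s, hm1ρ⟩ := Finset.mem_filter.1 hm1T
  have ha : ∀ m ∈ T, 0 < m ⬝ᵥ w - m0 ⬝ᵥ w := by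
    intro m hm
    obtain ⟨hms, hmρ⟩ := Finset.mem_filter.1 hm
    have h1 := hmin m hms
    rcases h1.eq_or_lt with h2 | h2
    · have := hdir m hms h2.symm
      omega
    · omega
  have hb : ∀ m ∈ T, 0 < m0 ⬝ᵥ ρ - m ⬝ᵥ ρ := by
    intro m hm
    obtain ⟨hms, hmρ⟩ := Finset.mem_filter.1 hm
    omega
  refine ⟨m0 ⬝ᵥ ρ - m1 ⬝ᵥ ρ, m1 ⬝ᵥ w - m0 ⬝ᵥ w, hb m1 hm1T, ha m1 hm1T, ?_, m1, hm1s, hm1ρ, ?_⟩
  · intro m hm
    rw [dot_comb, dot_comb]
    by_cases hmT : m ∈ T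
    · have h1 := hm1 m hmT
      have hb1 : (0 : ℚ) < ((m0 ⬝ᵥ ρ - m1 ⬝ᵥ ρ : ℤ) : ℚ) := by exact_mod_cast hb m1 hm1T
      have hb2 : (0 : ℚ) < ((m0 ⬝ᵥ ρ - m ⬝ᵥ ρ : ℤ) : ℚ) := by exact_mod_cast hb m hmT
      rw [div_le_div_iff₀ hb1 hb2] at h1
      have h2 : (m1 ⬝ᵥ w - m0 ⬝ᵥ w) * (m0 ⬝ᵥ ρ - m ⬝ᵥ ρ) ≤
          (m ⬝ᵥ w - m0 ⬝ᵥ w) * (m0 ⬝ᵥ ρ - m1 ⬝ᵥ ρ) := by exact_mod_cast h1
      linarith
    · have h1 : m0 ⬝ᵥ ρ ≤ m ⬝ᵥ ρ := by
        by_contra hcon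
        exact hmT (Finset.mem_filter.2 ⟨hm, not_le.1 hcon⟩)
      have h2 := hmin m hm
      exact add_le_add (mul_le_mul_of_nonneg_left h2 (hb m1 hm1T).le)
        (mul_le_mul_of_nonneg_left h1 (ha m1 hm1T).le)
  · rw [dot_comb, dot_comb]
    ring

end basic

section

variable {k : Type u} [Field k] {n : ℕ} {J : Type} [Fintype J] {f : J → Laurent k n} {d : J → ℝ}
  {u : Fin n → ℝ}

/-- `Fun` along a nonnegative combination, when the monomial `m0` of the distinguished equation is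
minimal at `w` and at the combination but not at `ρ` -/
lemma Fun_cross (hf : ∀ j, f j ≠ 0) (hd : ∀ j, 0 ≤ d j) (j0 : J) (hj0 : d j0 = 1)
    (w ρ : Fin n → ℤ) {m0 : Fin n → ℤ} (hm0 : m0 ∈ (f j0).coeff.support)
    (hmin : ∀ m ∈ (f j0).coeff.support, m0 ⬝ᵥ w ≤ m ⬝ᵥ w)
    (hρ : ∃ m ∈ (f j0).coeff.support, m ⬝ᵥ ρ < m0 ⬝ᵥ ρ) {q p : ℤ} (hq : 0 ≤ q) (hp : 0 ≤ p)
    (hmin' : ∀ m ∈ (f j0).coeff.support, m0 ⬝ᵥ (q • w + p • ρ) ≤ m ⬝ᵥ (q • w + p • ρ)) :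
    Fun u f d (q • w + p • ρ) ≤ q * Fun u f d w + p * (Fun u f d ρ - 1) := by
  classical
  have h1 : ∀ j, j ≠ j0 → d j * ((q : ℝ) * minWt w (f j) + p * minWt ρ (f j)) ≤
      d j * (minWt (q • w + p • ρ) (f j) : ℝ) := by
    intro j _
    refine mul_le_mul_of_nonneg_left ?_ (hd j)
    exact_mod_cast minWt_comb (hf j) hq hp
  have h2 : (q : ℝ) * minWt w (f j0) + p * (minWt ρ (f j0) + 1) ≤
      (minWt (q • w + p • ρ) (f j0) : ℝ) := by
    rw [minWt_eq hm0 hmin', minWt_eq hm0 hmin, dot_comb]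
    obtain ⟨m, hm, hmρ⟩ := hρ
    have h3 : minWt ρ (f j0) + 1 ≤ m0 ⬝ᵥ ρ := by
      have := minWt_le (w := ρ) hm
      omega
    have h4 := mul_le_mul_of_nonneg_left h3 hp
    have h5 : ((p * (minWt ρ (f j0) + 1) : ℤ) : ℝ) ≤ ((p * (m0 ⬝ᵥ ρ) : ℤ) : ℝ) := by
      exact_mod_cast h4
    push_cast at h5 ⊢
    linarith
  have h3 : ∑ j, d j * ((q : ℝ) * minWt w (f j) + p * minWt ρ (f j)) + p ≤
      ∑ j, d j * (minWt (q • w + p • ρ) (f j) : ℝ) := by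
    rw [← Finset.add_sum_erase _ _ (Finset.mem_univ j0),
      ← Finset.add_sum_erase _ (fun j => d j * (minWt (q • w + p • ρ) (f j) : ℝ))
        (Finset.mem_univ j0), hj0, one_mul, one_mul]
    have h4 := Finset.sum_le_sum fun j (hj : j ∈ Finset.univ.erase j0) => h1 j (Finset.ne_of_mem_erase hj)
    linarith
  have h4 : ∑ i, u i * (((q • w + p • ρ) i : ℤ) : ℝ) =
      q * ∑ i, u i * (w i : ℝ) + p * ∑ i, u i * (ρ i : ℝ) := by
    rw [Finset.mul_sum, Finset.mul_sum, ← Finset.sum_add_distrib]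
    refine Finset.sum_congr rfl fun i _ => ?_
    simp only [Pi.add_apply, Pi.smul_apply, smul_eq_mul]
    push_cast
    ring
  have h5 : ∑ j, d j * ((q : ℝ) * minWt w (f j) + p * minWt ρ (f j)) =
      q * ∑ j, d j * (minWt w (f j) : ℝ) + p * ∑ j, d j * (minWt ρ (f j) : ℝ) := by
    rw [Finset.mul_sum, Finset.mul_sum, ← Finset.sum_add_distrib]
    exact Finset.sum_congr rfl fun j _ => by ring
  unfold Fun
  rw [h4]
  linarith

lemma Fun_zero (hf : ∀ j, f j ≠ 0) : Fun u f d 0 = 0 := by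
  have h : ∀ j, minWt 0 (f j) = 0 := by
    intro j
    obtain ⟨m, _, hm⟩ := (minWt_spec (0 : Fin n → ℤ) (hf j)).1
    rw [← hm, dotProduct_zero]
  unfold Fun
  simp [h]

/-- `Fun` is positively homogeneous -/
lemma Fun_smul (hf : ∀ j, f j ≠ 0) {a : ℤ} (ha : 0 ≤ a) (w : Fin n → ℤ) :
    Fun u f d (a • w) = a * Fun u f d w := by
  have h1 : ∀ j, minWt (a • w) (f j) = a * minWt w (f j) := by
    intro j
    obtain ⟨m, hm, hmw⟩ := (minWt_spec w (hf j)).1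
    rw [minWt_eq hm, dotProduct_smul, smul_eq_mul, hmw]
    intro m' hm'
    rw [dotProduct_smul, dotProduct_smul]
    refine smul_le_smul_of_nonneg_left ?_ ha
    rw [hmw]; exact minWt_le hm'
  unfold Fun
  simp_rw [h1, Pi.smul_apply, smul_eq_mul]
  push_cast
  rw [mul_sub, Finset.mul_sum, Finset.mul_sum]
  congr 1
  · exact Finset.sum_congr rfl fun i _ => by ring
  · exact Finset.sum_congr rfl fun i _ => by ring

/-- the basic step -/
lemma Fun_step (hf : ∀ j, f j ≠ 0) (hd : ∀ j, 0 ≤ d j) (j0 : J) (hj0 : d j0 = 1)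
    (w ρ : Fin n → ℤ) {m0 : Fin n → ℤ} (hm0 : m0 ∈ (f j0).coeff.support)
    (hmono : ∀ m ∈ (f j0).coeff.support, m ≠ m0 → m0 ⬝ᵥ w < m ⬝ᵥ w)
    (hρ : ∃ m ∈ (f j0).coeff.support, m ⬝ᵥ ρ < m0 ⬝ᵥ ρ) :
    Fun u f d (w + ρ) ≤ Fun u f d w + (Fun u f d ρ - 1) := by
  classical
  have hmin : ∀ m ∈ (f j0).coeff.support, m0 ⬝ᵥ w ≤ m ⬝ᵥ w := fun m hm => by
    by_cases h : m = m0
    · rw [h]
    · exact (hmono m hm h).le
  have h1 : ∀ j, j ≠ j0 → d j * ((minWt w (f j) : ℝ) + minWt ρ (f j)) ≤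
      d j * (minWt (w + ρ) (f j) : ℝ) := by
    intro j _
    refine mul_le_mul_of_nonneg_left ?_ (hd j)
    have := minWt_comb (w := w) (w' := ρ) (hf j) zero_le_one zero_le_one
    rw [one_smul, one_smul, one_mul, one_mul] at this
    exact_mod_cast this
  have h2 : (minWt w (f j0) : ℝ) + (minWt ρ (f j0) + 1) ≤ (minWt (w + ρ) (f j0) : ℝ) := by
    obtain ⟨m, hm, hmw⟩ := (minWt_spec (w + ρ) (hf j0)).1
    have h3 : minWt w (f j0) + (minWt ρ (f j0) + 1) ≤ minWt (w + ρ) (f j0) := by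
      rw [← hmw, dotProduct_add]
      by_cases h : m = m0
      · subst h
        obtain ⟨m', hm', hmρ'⟩ := hρ
        have h5 := minWt_le (w := ρ) hm'
        have h6 := minWt_le (w := w) hm
        omega
      · have h5 := hmono m hm h
        have h6 := minWt_le (w := ρ) hm
        rw [minWt_eq hm0 hmin]
        omega
    exact_mod_cast h3
  have h3 : ∑ j, d j * ((minWt w (f j) : ℝ) + minWt ρ (f j)) + 1 ≤
      ∑ j, d j * (minWt (w + ρ) (f j) : ℝ) := by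
    rw [← Finset.add_sum_erase _ _ (Finset.mem_univ j0),
      ← Finset.add_sum_erase _ (fun j => d j * (minWt (w + ρ) (f j) : ℝ))
        (Finset.mem_univ j0), hj0, one_mul, one_mul]
    have h4 := Finset.sum_le_sum fun j (hj : j ∈ Finset.univ.erase j0) => h1 j (Finset.ne_of_mem_erase hj)
    linarith
  have h4 : ∑ i, u i * (((w + ρ) i : ℤ) : ℝ) = ∑ i, u i * (w i : ℝ) + ∑ i, u i * (ρ i : ℝ) := by
    rw [← Finset.sum_add_distrib]
    refine Finset.sum_congr rfl fun i _ => ?_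
    simp only [Pi.add_apply]
    push_cast
    ring
  have h5 : ∑ j, d j * ((minWt w (f j) : ℝ) + minWt ρ (f j)) =
      ∑ j, d j * (minWt w (f j) : ℝ) + ∑ j, d j * (minWt ρ (f j) : ℝ) := by
    rw [← Finset.sum_add_distrib]
    exact Finset.sum_congr rfl fun j _ => by ring
  unfold Fun
  rw [h4]
  linarith

/-- the condition that the hypersurface passes through the fixed point -/
def PassesThrough (R : Finset (Fin n → ℤ)) (F : Laurent k n) : Prop :=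
  ∀ m0 ∈ F.coeff.support, ∃ ρ ∈ R, ∃ m ∈ F.coeff.support, m ⬝ᵥ ρ < m0 ⬝ᵥ ρ

lemma InInt.add_ray {S : AddSubmonoid (Fin n → ℤ)} {ρ w : Fin n → ℤ} (hw : InInt S w)
    (hρ : ∀ m ∈ S, 0 ≤ m ⬝ᵥ ρ) : InInt S (w + ρ) := by
  intro m hm hm0
  rw [dotProduct_add]
  exact add_pos_of_pos_of_nonneg (hw m hm hm0) (hρ m hm)

lemma InInt.comb {S : AddSubmonoid (Fin n → ℤ)} {ρ w : Fin n → ℤ} (hw : InInt S w)
    (hρ : ∀ m ∈ S, 0 ≤ m ⬝ᵥ ρ) {q p : ℤ} (hq : 0 < q) (hp : 0 ≤ p) :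
    InInt S (q • w + p • ρ) := by
  intro m hm hm0
  rw [dot_comb]
  exact add_pos_of_pos_of_nonneg (mul_pos hq (hw m hm hm0)) (mul_nonneg hp (hρ m hm))

/-- **Inversion of adjunction**: the minimum of the log discrepancy function over the lattice points
of the interior of the cone is attained on the tropical hypersurface. -/
theorem exists_trop_le (hf : ∀ j, f j ≠ 0) (hd : ∀ j, 0 ≤ d j) (j0 : J) (hj0 : d j0 = 1)
    {S : AddSubmonoid (Fin n → ℤ)} {R : Finset (Fin n → ℤ)}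
    (hnn : ∀ ρ ∈ R, ∀ m ∈ S, 0 ≤ m ⬝ᵥ ρ) (hP : PassesThrough R (f j0))
    (hR : ∀ ρ ∈ R, Fun u f d ρ ≤ 1)
    (hstr : ∃ m : Fin n → ℤ, ∀ ρ ∈ R, 0 < m ⬝ᵥ ρ)
    (hpos : ∀ δ : Fin n → ℤ, (∀ m ∈ S, 0 ≤ m ⬝ᵥ δ) → δ ≠ 0 → 0 < Fun u f d δ)
    {w : Fin n → ℤ} (hw : InInt S w) :
    ∃ w', InInt S w' ∧ ¬ IsMono w' (f j0) ∧ Fun u f d w' ≤ Fun u f d w := by
  classical
  by_contra hcon
  push Not at hcon
  -- the path
  have hstep : ∀ x : {x : Fin n → ℤ // InInt S x ∧ Fun u f d x ≤ Fun u f d w},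
      ∃ ρ ∈ R, Fun u f d (x.1 + ρ) ≤ Fun u f d x.1 := by
    rintro ⟨x, hx, hxF⟩
    have hmono : IsMono x (f j0) := by
      by_contra h
      exact absurd hxF (not_le.2 (hcon x hx h))
    obtain ⟨m0, hm0, hm⟩ := hmono
    obtain ⟨ρ, hρ, hρm⟩ := hP m0 hm0
    refine ⟨ρ, hρ, ?_⟩
    have h1 := Fun_step (u := u) hf hd j0 hj0 x ρ hm0 hm hρm
    have h2 := hR ρ hρ
    linarith
  choose r hr hrF using hstep
  let next : {x : Fin n → ℤ // InInt S x ∧ Fun u f d x ≤ Fun u f d w} →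
      {x : Fin n → ℤ // InInt S x ∧ Fun u f d x ≤ Fun u f d w} := fun x =>
    ⟨x.1 + r x, InInt.add_ray x.2.1 (hnn _ (hr x)), (hrF x).trans x.2.2⟩
  let a : ℕ → {x : Fin n → ℤ // InInt S x ∧ Fun u f d x ≤ Fun u f d w} := fun i =>
    Nat.rec ⟨w, hw, le_rfl⟩ (fun _ x => next x) i
  have hanext : ∀ i, (a (i + 1)).1 = (a i).1 + r (a i) := fun i => rfl
  have hanti : ∀ i j, i ≤ j → Fun u f d (a j).1 ≤ Fun u f d (a i).1 := by
    intro i j hij
    induction j, hij using Nat.le_induction with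
    | base => exact le_rfl
    | succ j _ ih =>
      rw [hanext]
      exact (hrF _).trans ih
  -- defects
  let D : ℕ → (∀ _ : (Σ j : J, {m // m ∈ (f j).coeff.support}), ℕ) := fun i x =>
    (x.2.1 ⬝ᵥ (a i).1 - minWt (a i).1 (f x.1)).toNat
  obtain ⟨i, j, hij, hD⟩ := wellQuasiOrdered_le D
  have hDle : ∀ (l : J) (m : Fin n → ℤ), m ∈ (f l).coeff.support →
      m ⬝ᵥ (a i).1 - minWt (a i).1 (f l) ≤ m ⬝ᵥ (a j).1 - minWt (a j).1 (f l) := by
    intro l m hm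
    have h1 : (m ⬝ᵥ (a i).1 - minWt (a i).1 (f l)).toNat ≤
        (m ⬝ᵥ (a j).1 - minWt (a j).1 (f l)).toNat := hD ⟨l, m, hm⟩
    have h2 := minWt_le (w := (a i).1) hm
    have h3 := minWt_le (w := (a j).1) hm
    omega
  set δ : Fin n → ℤ := (a j).1 - (a i).1 with hδ
  have hδsum : ∀ m : Fin n → ℤ, (∀ ρ ∈ R, 0 ≤ m ⬝ᵥ ρ) → 0 ≤ m ⬝ᵥ δ := by
    intro m hm
    have h1 : ∀ i j, i ≤ j → m ⬝ᵥ (a i).1 ≤ m ⬝ᵥ (a j).1 := by
      intro i j hij
      induction j, hij using Nat.le_induction with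
      | base => exact le_rfl
      | succ j _ ih =>
        rw [hanext, dotProduct_add]
        have := hm _ (hr (a j))
        omega
    have h2 := h1 i j hij.le
    rw [hδ, dotProduct_sub]
    omega
  have hδ0 : δ ≠ 0 := by
    obtain ⟨m, hm⟩ := hstr
    have h1 : ∀ i j, i < j → m ⬝ᵥ (a i).1 < m ⬝ᵥ (a j).1 := by
      intro i j hij
      induction j, hij using Nat.le_induction with
      | base =>
        rw [hanext, dotProduct_add]
        have := hm _ (hr (a i))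
        omega
      | succ j _ ih =>
        rw [hanext, dotProduct_add]
        have := hm _ (hr (a j))
        omega
    intro h
    have h2 := h1 i j hij
    have h3 : m ⬝ᵥ δ = 0 := by rw [h, dotProduct_zero]
    rw [hδ, dotProduct_sub] at h3
    omega
  have hδpos : 0 < Fun u f d δ :=
    hpos δ (fun m hm => hδsum m fun ρ hρ => hnn ρ hρ m hm) hδ0
  -- a common selection
  choose s hs hsj using fun l => (minWt_spec (a j).1 (hf l)).1
  have hsi : ∀ l, minWt (a i).1 (f l) = s l ⬝ᵥ (a i).1 := by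
    intro l
    have h1 := hDle l (s l) (hs l)
    have h2 := minWt_le (w := (a i).1) (hs l)
    have h3 := hsj l
    omega
  have hsδ : ∀ l, minWt δ (f l) = s l ⬝ᵥ δ := by
    intro l
    refine minWt_eq (hs l) fun m hm => ?_
    have h1 := hDle l m hm
    have h2 := hsj l
    have h3 := hsi l
    rw [hδ, dotProduct_sub, dotProduct_sub]
    omega
  have hsum : ∀ l, (minWt (a j).1 (f l) : ℝ) = minWt (a i).1 (f l) + minWt δ (f l) := by
    intro l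
    have h1 : minWt (a j).1 (f l) = minWt (a i).1 (f l) + minWt δ (f l) := by
      rw [hsδ, hsi, ← hsj, hδ, dotProduct_sub]
      ring
    exact_mod_cast h1
  have hu : ∑ l, u l * (((a j).1 l : ℤ) : ℝ) =
      ∑ l, u l * (((a i).1 l : ℤ) : ℝ) + ∑ l, u l * ((δ l : ℤ) : ℝ) := by
    rw [← Finset.sum_add_distrib]
    refine Finset.sum_congr rfl fun l _ => ?_
    rw [hδ]
    simp only [Pi.sub_apply]
    push_cast
    ring
  have hF : Fun u f d (a j).1 = Fun u f d (a i).1 + Fun u f d δ := by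
    unfold Fun
    simp_rw [hsum, mul_add, Finset.sum_add_distrib]
    rw [hu]
    ring
  have := hanti i j hij.le
  linarith

lemma not_isMono_of_two {F : Laurent k n} {w m0 m1 : Fin n → ℤ} (hm0 : m0 ∈ F.coeff.support)
    (hm1 : m1 ∈ F.coeff.support) (hne : m1 ≠ m0)
    (hmin : ∀ m ∈ F.coeff.support, m0 ⬝ᵥ w ≤ m ⬝ᵥ w) (heq : m1 ⬝ᵥ w = m0 ⬝ᵥ w) :
    ¬ IsMono w F := by
  rintro ⟨m, hm, h⟩
  by_cases h0 : m0 = m
  · subst h0
    have := h m1 hm1 hne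
    omega
  · have h1 := h m0 hm0 h0
    have h2 := hmin m hm
    omega

/-- nonnegativity on the interior follows from nonnegativity on the tropical hypersurface -/
lemma Fun_nonneg_int (hf : ∀ j, f j ≠ 0) (hd : ∀ j, 0 ≤ d j) (j0 : J) (hj0 : d j0 = 1)
    {S : AddSubmonoid (Fin n → ℤ)} {R : Finset (Fin n → ℤ)}
    (hnn : ∀ ρ ∈ R, ∀ m ∈ S, 0 ≤ m ⬝ᵥ ρ) (hP : PassesThrough R (f j0))
    (hR : ∀ ρ ∈ R, Fun u f d ρ ≤ 1)
    (h : ∀ w, InInt S w → ¬ IsMono w (f j0) → 0 ≤ Fun u f d w)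
    {w : Fin n → ℤ} (hw : InInt S w) : 0 ≤ Fun u f d w := by
  by_cases hmono : IsMono w (f j0)
  · obtain ⟨m0, hm0, hm⟩ := hmono
    obtain ⟨ρ, hρ, hρm⟩ := hP m0 hm0
    have hmin : ∀ m ∈ (f j0).coeff.support, m0 ⬝ᵥ w ≤ m ⬝ᵥ w := fun m hm' => by
      by_cases h : m = m0
      · rw [h]
      · exact (hm m hm' h).le
    obtain ⟨q, p, hq, hp, hmin', m1, hm1, hm1ρ, heq⟩ := exists_cross (f j0) w ρ hmin
      (fun m hm' he => by
        by_cases h : m = m0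
        · rw [h]
        · have := hm m hm' h
          omega) hρm
    have h1 := h (q • w + p • ρ) (InInt.comb hw (hnn ρ hρ) hq hp.le)
      (not_isMono_of_two hm0 hm1 (by rintro rfl; exact lt_irrefl _ hm1ρ) hmin' heq)
    have h2 := Fun_cross (u := u) hf hd j0 hj0 w ρ hm0 hmin hρm hq.le hp.le hmin'
    have h3 := hR ρ hρ
    have h4 : (0 : ℝ) < q := by exact_mod_cast hq
    have h5 : (0 : ℝ) < p := by exact_mod_cast hp
    have h6 : 0 ≤ (q : ℝ) * Fun u f d w := by nlinarith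
    exact nonneg_of_mul_nonneg_right h6 h4
  · exact h w hw hmono

lemma Fun_nonneg_cone (hf : ∀ j, f j ≠ 0) (hd : ∀ j, 0 ≤ d j)
    {S : AddSubmonoid (Fin n → ℤ)} {w0 : Fin n → ℤ} (hw0 : InInt S w0)
    (h : ∀ w, InInt S w → 0 ≤ Fun u f d w)
    {δ : Fin n → ℤ} (hδ : ∀ m ∈ S, 0 ≤ m ⬝ᵥ δ) : 0 ≤ Fun u f d δ := by
  by_contra hcon
  push Not at hcon
  obtain ⟨a, ha⟩ := exists_nat_gt (-(Fun u f d w0) / Fun u f d δ)
  have h1 : InInt S ((a : ℤ) • δ + w0) := by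
    intro m hm hm0
    rw [dotProduct_add, dotProduct_smul, smul_eq_mul]
    exact add_pos_of_nonneg_of_pos (mul_nonneg (by positivity) (hδ m hm)) (hw0 m hm hm0)
  have h2 := (h _ h1).trans (Fun_add_le (u := u) hf hd a δ w0)
  rw [div_lt_iff_of_neg hcon] at ha
  linarith

lemma exists_min_of_all_mono {G : Laurent k n} {S : AddSubmonoid (Fin n → ℤ)}
    {R : Finset (Fin n → ℤ)} (hnn : ∀ ρ ∈ R, ∀ m ∈ S, 0 ≤ m ⬝ᵥ ρ) {w0 : Fin n → ℤ}
    (hw0 : InInt S w0) (h : ∀ w, InInt S w → IsMono w G) :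
    ∃ m0 ∈ G.coeff.support, ∀ m ∈ G.coeff.support, ∀ ρ ∈ R, m0 ⬝ᵥ ρ ≤ m ⬝ᵥ ρ := by
  obtain ⟨m0, hm0, hm⟩ := h w0 hw0
  refine ⟨m0, hm0, fun m hmG ρ hρ => ?_⟩
  by_contra hcon
  push Not at hcon
  have hmin : ∀ m ∈ G.coeff.support, m0 ⬝ᵥ w0 ≤ m ⬝ᵥ w0 := fun m hm' => by
    by_cases h : m = m0
    · rw [h]
    · exact (hm m hm' h).le
  obtain ⟨q, p, hq, hp, hmin', m1, hm1, hm1ρ, heq⟩ := exists_cross G w0 ρ hmin
    (fun m hm' he => by
      by_cases h : m = m0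
      · rw [h]
      · have := hm m hm' h
        omega) ⟨m, hmG, hcon⟩
  exact not_isMono_of_two hm0 hm1 (by rintro rfl; exact lt_irrefl _ hm1ρ) hmin' heq
    (h _ (InInt.comb hw0 (hnn ρ hρ) hq hp.le))

/-- positivity on the cone from positivity at the weights of the divisors through the point -/
theorem Fun_pos_cone (hf : ∀ j, f j ≠ 0) (hd : ∀ j, 0 ≤ d j) (j0 : J) (hj0 : d j0 = 1)
    {S : AddSubmonoid (Fin n → ℤ)} {R : Finset (Fin n → ℤ)}
    (hnn : ∀ ρ ∈ R, ∀ m ∈ S, 0 ≤ m ⬝ᵥ ρ) (hP : PassesThrough R (f j0))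
    (hR : ∀ ρ ∈ R, Fun u f d ρ ≤ 1)
    (hstr : ∃ m ∈ S, ∀ ρ ∈ R, 0 < m ⬝ᵥ ρ) {w0 : Fin n → ℤ} (hw0 : InInt S w0)
    (h : ∀ w, (∀ m ∈ S, 0 ≤ m ⬝ᵥ w) → w ≠ 0 → ∀ w0, InInt S w0 →
      ¬ IsMono w0 (inForm w (f j0)) → 0 < Fun u f d w)
    {w : Fin n → ℤ} (hw : ∀ m ∈ S, 0 ≤ m ⬝ᵥ w) (hw' : w ≠ 0) : 0 < Fun u f d w := by
  classical
  set F := f j0 with hF
  have hF0 : F ≠ 0 := hf j0
  set σ : Fin n → ℤ := ∑ ρ ∈ R, ρ with hσ
  have hσdot : ∀ m : Fin n → ℤ, m ⬝ᵥ σ = ∑ ρ ∈ R, m ⬝ᵥ ρ := by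
    intro m
    rw [hσ, dotProduct_sum]
  have hsupp : ∀ (w m : Fin n → ℤ), m ∈ (inForm w F).coeff.support ↔
      m ∈ F.coeff.support ∧ m ⬝ᵥ w = minWt w F := fun w m =>
    mem_inForm_support (minWt_spec w hF0)
  have key : ∀ N : ℕ, ∀ w : Fin n → ℤ, (∀ m ∈ S, 0 ≤ m ⬝ᵥ w) → w ≠ 0 →
      ∀ m0 ∈ (inForm w F).coeff.support,
        (∀ m ∈ (inForm w F).coeff.support, ∀ ρ ∈ R, m0 ⬝ᵥ ρ ≤ m ⬝ᵥ ρ) →
        (m0 ⬝ᵥ σ - minWt σ F).toNat ≤ N → 0 < Fun u f d w := by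
    intro N
    induction N using Nat.strong_induction_on with
    | _ N ih =>
    intro w hw hw' m0 hm0 hm0min hN
    obtain ⟨hm0F, hm0w⟩ := (hsupp w m0).1 hm0
    obtain ⟨ρ, hρ, hρm⟩ := hP m0 hm0F
    have hmin : ∀ m ∈ F.coeff.support, m0 ⬝ᵥ w ≤ m ⬝ᵥ w := fun m hm => by
      rw [hm0w]; exact minWt_le hm
    obtain ⟨q, p, hq, hp, hmin', m1, hm1, hm1ρ, heq⟩ := exists_cross F w ρ hmin
      (fun m hm he => hm0min m ((hsupp w m).2 ⟨hm, by rw [he, hm0w]⟩) ρ hρ) hρm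
    have h2 := Fun_cross (u := u) hf hd j0 hj0 w ρ hm0F hmin hρm hq.le hp.le hmin'
    have h3 := hR ρ hρ
    have h4 : (0 : ℝ) < q := by exact_mod_cast hq
    have h5 : (0 : ℝ) < p := by exact_mod_cast hp
    set w' := q • w + p • ρ with hw'def
    have hw'C : ∀ m ∈ S, 0 ≤ m ⬝ᵥ w' := fun m hm => by
      rw [hw'def, dot_comb]
      exact add_nonneg (mul_nonneg hq.le (hw m hm)) (mul_nonneg hp.le (hnn ρ hρ m hm))
    have hw'0 : w' ≠ 0 := by
      obtain ⟨m, hm, hmR⟩ := hstr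
      intro h0
      have h6 : m ⬝ᵥ w' = 0 := by rw [h0, dotProduct_zero]
      rw [hw'def, dot_comb] at h6
      have h7 := mul_nonneg hq.le (hw m hm)
      have h8 := mul_pos hp (hmR ρ hρ)
      omega
    have hpos : 0 < Fun u f d w' := by
      by_cases hα : ∃ w0, InInt S w0 ∧ ¬ IsMono w0 (inForm w' F)
      · obtain ⟨w0, hw0, hα⟩ := hα
        exact h w' hw'C hw'0 w0 hw0 hα
      · push Not at hα
        obtain ⟨m2, hm2, hm2min⟩ := exists_min_of_all_mono hnn hw0 hα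
        have hm0' : m0 ∈ (inForm w' F).coeff.support :=
          (hsupp w' m0).2 ⟨hm0F, (minWt_eq hm0F hmin').symm⟩
        have hm1' : m1 ∈ (inForm w' F).coeff.support :=
          (hsupp w' m1).2 ⟨hm1, by rw [heq]; exact (minWt_eq hm0F hmin').symm⟩
        have hlt : m2 ⬝ᵥ σ < m0 ⬝ᵥ σ := by
          rw [hσdot, hσdot]
          refine Finset.sum_lt_sum (fun ρ' hρ' => hm2min m0 hm0' ρ' hρ') ⟨ρ, hρ, ?_⟩
          exact (hm2min m1 hm1' ρ hρ).trans_lt hm1ρ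
        have hge : minWt σ F ≤ m2 ⬝ᵥ σ := minWt_le ((hsupp w' m2).1 hm2).1
        refine ih (m2 ⬝ᵥ σ - minWt σ F).toNat ?_ w' hw'C hw'0 m2 hm2 hm2min le_rfl
        omega
    have h9 : 0 < (q : ℝ) * Fun u f d w := by nlinarith
    exact pos_of_mul_pos_right h9 h4.le
  by_cases hα : ∃ w0, InInt S w0 ∧ ¬ IsMono w0 (inForm w F)
  · obtain ⟨w0, hw0, hα⟩ := hα
    exact h w hw hw' w0 hw0 hα
  · push Not at hα
    obtain ⟨m2, hm2, hm2min⟩ := exists_min_of_all_mono hnn hw0 hα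
    exact key _ w hw hw' m2 hm2 hm2min le_rfl

end

section perturb

variable {k : Type u} [Field k] {n : ℕ} {I I' : Type} [Fintype I] [Fintype I']

/-- the family consisting of `F` and the `g i` -/
def fam (F : Laurent k n) (g : I → Laurent k n) : Option I → Laurent k n := fun o => o.elim F g

/-- the coefficients `1` and `d i` -/
def cof (d : I → ℝ) : Option I → ℝ := fun o => o.elim 1 d

lemma Fun_fam (u : Fin n → ℝ) (F : Laurent k n) (g : I → Laurent k n) (d : I → ℝ)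
    (w : Fin n → ℤ) : Fun u (fam F g) (cof d) w =
      ∑ i, u i * (w i : ℝ) - (minWt w F + ∑ i, d i * (minWt w (g i) : ℝ)) := by
  unfold Fun
  rw [Fintype.sum_option]
  simp only [fam, cof, Option.elim_none, Option.elim_some, one_mul]

/-- **Inversion of adjunction** for log canonical pairs on hypersurfaces of klt type. -/
theorem le_Fun_of_trop {F : Laurent k n} {g : I → Laurent k n} {g' : I' → Laurent k n}
    {d : I → ℝ} {d' : I' → ℝ} {u u' : Fin n → ℝ} (hF : F ≠ 0) (hg : ∀ i, g i ≠ 0)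
    (hg' : ∀ i, g' i ≠ 0) (hd : ∀ i, 0 ≤ d i) (hd' : ∀ i, 0 ≤ d' i)
    {S : AddSubmonoid (Fin n → ℤ)} {R : Finset (Fin n → ℤ)}
    (hnn : ∀ ρ ∈ R, ∀ m ∈ S, 0 ≤ m ⬝ᵥ ρ) (hP : PassesThrough R F)
    (hR : ∀ ρ ∈ R, Fun u (fam F g) (cof d) ρ ≤ 1)
    (hR' : ∀ ρ ∈ R, Fun u' (fam F g') (cof d') ρ ≤ 1)
    (hstr : ∃ m : Fin n → ℤ, ∀ ρ ∈ R, 0 < m ⬝ᵥ ρ)
    (hpos : ∀ δ : Fin n → ℤ, (∀ m ∈ S, 0 ≤ m ⬝ᵥ δ) → δ ≠ 0 → 0 < Fun u' (fam F g') (cof d') δ)
    (h0 : ∀ w, InInt S w → ¬ IsMono w F → 0 ≤ Fun u (fam F g) (cof d) w)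
    (t : ℝ) (ht : ∀ w, InInt S w → ¬ IsMono w F → t ≤ Fun u (fam F g) (cof d) w)
    {w : Fin n → ℤ} (hw : InInt S w) : t ≤ Fun u (fam F g) (cof d) w := by
  classical
  have hf1 : ∀ j, fam F g j ≠ 0 := by
    rintro (_ | i)
    · exact hF
    · exact hg i
  have hd1 : ∀ j, 0 ≤ cof d j := by
    rintro (_ | i)
    · exact zero_le_one
    · exact hd i
  have hnonneg : ∀ δ : Fin n → ℤ, (∀ m ∈ S, 0 ≤ m ⬝ᵥ δ) → 0 ≤ Fun u (fam F g) (cof d) δ :=
    fun δ hδ => Fun_nonneg_cone hf1 hd1 hw (fun w hw =>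
      Fun_nonneg_int hf1 hd1 none rfl hnn hP hR h0 hw) hδ
  -- the perturbed function
  have hpert : ∀ τ : ℝ, 0 < τ → τ < 1 →
      (1 - τ) * t ≤ (1 - τ) * Fun u (fam F g) (cof d) w + τ * Fun u' (fam F g') (cof d') w := by
    intro τ h0τ h1τ
    let gg : I ⊕ I' → Laurent k n := Sum.elim g g'
    let dd : I ⊕ I' → ℝ := Sum.elim (fun i => (1 - τ) * d i) (fun i => τ * d' i)
    let uu : Fin n → ℝ := fun i => (1 - τ) * u i + τ * u' i
    have hFun : ∀ x : Fin n → ℤ, Fun uu (fam F gg) (cof dd) x =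
        (1 - τ) * Fun u (fam F g) (cof d) x + τ * Fun u' (fam F g') (cof d') x := by
      intro x
      rw [Fun_fam, Fun_fam, Fun_fam, Fintype.sum_sum_type]
      simp only [gg, dd, uu, Sum.elim_inl, Sum.elim_inr]
      have h1 : ∑ i, ((1 - τ) * u i + τ * u' i) * (x i : ℝ) =
          (1 - τ) * ∑ i, u i * (x i : ℝ) + τ * ∑ i, u' i * (x i : ℝ) := by
        rw [Finset.mul_sum, Finset.mul_sum, ← Finset.sum_add_distrib]
        exact Finset.sum_congr rfl fun i _ => by ring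
      have h2 : ∑ i, (1 - τ) * d i * (minWt x (g i) : ℝ) =
          (1 - τ) * ∑ i, d i * (minWt x (g i) : ℝ) := by
        rw [Finset.mul_sum]
        exact Finset.sum_congr rfl fun i _ => by ring
      have h3 : ∑ i, τ * d' i * (minWt x (g' i) : ℝ) =
          τ * ∑ i, d' i * (minWt x (g' i) : ℝ) := by
        rw [Finset.mul_sum]
        exact Finset.sum_congr rfl fun i _ => by ring
      rw [h1, h2, h3]
      ring
    have hf2 : ∀ j, fam F gg j ≠ 0 := by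
      rintro (_ | i | i)
      · exact hF
      · exact hg i
      · exact hg' i
    have hd2 : ∀ j, 0 ≤ cof dd j := by
      rintro (_ | i | i)
      · exact zero_le_one
      · exact mul_nonneg (by linarith) (hd i)
      · exact mul_nonneg h0τ.le (hd' i)
    obtain ⟨w', hw', hmono, hle⟩ := exists_trop_le (u := uu) hf2 hd2 none rfl hnn
      (show PassesThrough R (fam F gg none) from hP)
      (fun ρ hρ => by
        rw [hFun]
        have h1 := hR ρ hρ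
        have h2 := hR' ρ hρ
        nlinarith) hstr
      (fun δ hδ hδ0 => by
        rw [hFun]
        have h1 := hnonneg δ hδ
        have h2 := hpos δ hδ hδ0
        have h3 : 0 ≤ (1 - τ) * Fun u (fam F g) (cof d) δ := mul_nonneg (by linarith) h1
        have h4 := mul_pos h0τ h2
        linarith) hw
    rw [hFun, hFun] at hle
    refine le_trans ?_ hle
    have h1 := ht w' hw' hmono
    have h5 : 0 ≤ Fun u' (fam F g') (cof d') w' := by
      by_cases h : w' = 0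
      · rw [h, Fun_zero]
        rintro (_ | i)
        · exact hF
        · exact hg' i
      · refine (hpos w' (fun m hm => ?_) h).le
        by_cases hm0 : m = 0
        · rw [hm0, zero_dotProduct]
        · exact (hw' m hm hm0).le
    have h6 := mul_le_mul_of_nonneg_left h1 (show 0 ≤ 1 - τ by linarith)
    have h7 := mul_nonneg h0τ.le h5
    linarith
  by_contra hcon
  push Not at hcon
  set a := t - Fun u (fam F g) (cof d) w with ha
  set b := |Fun u' (fam F g') (cof d') w| + 1 with hb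
  have ha0 : 0 < a := by linarith
  have hb0 : 0 < b := by positivity
  have hab : 0 < a / (2 * (a + b)) := by positivity
  have h1 := hpert (a / (2 * (a + b))) hab (by
    rw [div_lt_one (by positivity)]
    linarith)
  have h2 : (1 - a / (2 * (a + b))) * a ≤ (a / (2 * (a + b))) * b := by
    have h3 := le_abs_self (Fun u' (fam F g') (cof d') w)
    have h4 : (a / (2 * (a + b))) * Fun u' (fam F g') (cof d') w ≤ (a / (2 * (a + b))) * b :=
      mul_le_mul_of_nonneg_left (by linarith) hab.le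
    have h5 : (1 - a / (2 * (a + b))) * a = (1 - a / (2 * (a + b))) * t -
      (1 - a / (2 * (a + b))) * Fun u (fam F g) (cof d) w := by rw [ha]; ring
    linarith
  have h3 : a ≤ (a / (2 * (a + b))) * (a + b) := by linarith
  have h4 : (a / (2 * (a + b))) * (a + b) = a / 2 := by field_simp
  linarith

end perturb

end Pool.Agent.H50.Hyp
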