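import Mathlib
import Pool.Agent.H26.ToricDefs

/-!
# Nondegenerate hypersurfaces in affine toric varieties: definitions

`K` is the function field of the hypersurface and `y : Fin (n + 1) → K` are the restrictions of the
coordinates of the torus.  Laurent polynomials are given by their coefficients.
-/

open scoped BigOperators
open Pool.Agent.H26

namespace Pool.Agent.H50.Hyp

universe u v

section

variable {k : Type u} {K : Type v} [Field k] [Field K] [Algebra k K] {n N : ℕ}

/-- `K` is the function field of the hypersurface `f = 0` of the torus `(𝔾_m)^N`, and `y` are the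
restrictions of the coordinates of the torus: these are not zero, they generate the field `K` over
`k`, and the Laurent polynomials which vanish at `y` are the multiples of `f`. -/
structure IsHypersurfaceCoord (y : Fin N → K) (f : (Fin N → ℤ) →₀ k) : Prop where
  ne_zero : ∀ i, y i ≠ 0
  generate : IntermediateField.adjoin k (Set.range y) = ⊤
  vanish : ∀ q : (Fin N → ℤ) →₀ k, laurentPoly y q = 0 ↔
    (AddMonoidAlgebra.ofCoeff f : AddMonoidAlgebra k (Fin N → ℤ)) ∣ AddMonoidAlgebra.ofCoeff q

/-- The minimum of `⟨m, w⟩` over the monomials `x^m` of `f`.  For a primitive generator `w` of a ray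
this is the order of `f` along the corresponding torus-invariant divisor. -/
noncomputable def minWeight (w : Fin N → ℤ) (f : (Fin N → ℤ) →₀ k) : ℤ :=
  sInf ((fun m => m ⬝ᵥ w) '' (f.support : Set (Fin N → ℤ)))

/-- `R` is the set of the primitive generators of the rays of a strongly convex rational polyhedral
cone. -/
def IsRayGenerators (R : Finset (Fin N → ℤ)) : Prop :=
  ∀ ρ ∈ R, (∃ m : Fin N → ℤ, m ⬝ᵥ ρ = 1) ∧
    ∃ m : Fin N → ℤ, m ⬝ᵥ ρ = 0 ∧ ∀ ρ' ∈ R, ρ' ≠ ρ → 0 < m ⬝ᵥ ρ'

/-- The lattice points of the cone dual to the cone generated by `R`. -/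
def dualMonoid (R : Finset (Fin N → ℤ)) : AddSubmonoid (Fin N → ℤ) where
  carrier := {m | ∀ ρ ∈ R, 0 ≤ m ⬝ᵥ ρ}
  zero_mem' := fun ρ _ => by rw [zero_dotProduct]
  add_mem' := fun {a b} ha hb ρ hρ => by
    rw [add_dotProduct]
    exact add_nonneg (ha ρ hρ) (hb ρ hρ)

/-- `G` is the germ at `x` of the hypersurface `H` of the affine toric variety
`X = Spec k[S]`, where `S` is the monoid of the lattice points of the cone dual to the cone
generated by `R`; `x` is the torus-fixed point of `X` and `H` is the closure of the hypersurface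
`f = 0` of the torus.  The restrictions to `H` of the monomials `x^m` with `m ∈ S` generate the
coordinate ring of `H`, and vanish at `x` unless `m = 0`. -/
structure IsToricHypersurface (G : LogGerm k K n) (y : Fin (n + 1) → K)
    (R : Finset (Fin (n + 1) → ℤ)) (f : (Fin (n + 1) → ℤ) →₀ k) : Prop where
  rays : IsRayGenerators R
  coordinates : IsHypersurfaceCoord y f
  coordinate_ring : G.A = Algebra.adjoin k (monom y '' dualMonoid R)
  fixed_point : ∀ m ∈ dualMonoid R, m ≠ 0 → ∃ a ∈ G.pt, (a : K) = monom y m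

/-- `h • (ω 0 ∧ ⋯ ∧ ω (n-1))` is the Poincaré residue along the hypersurface `f = 0` of the form
`(dlog x_0 ∧ ⋯ ∧ dlog x_n) / f`: for each `i`,
`dlog y_0 ∧ ⋯ ∧ dlog y_n` (without `dlog y_i`) is `(-1)^i (x_i ∂f/∂x_i)(y)` times this form. -/
def IsResidue (ω : Module.Basis (Fin n) K (Ω[K⁄k])) (y : Fin (n + 1) → K)
    (f : (Fin (n + 1) → ℤ) →₀ k) (h : K) : Prop :=
  h ≠ 0 ∧ ∀ i : Fin (n + 1),
    ω.det (fun j => (y (i.succAbove j))⁻¹ • KaehlerDifferential.D k K (y (i.succAbove j))) =
      (-1) ^ (i : ℕ) * laurentPoly y (logDeriv i f) * h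

/-- A divisor `Δ = ∑ ρ, c ρ • D ρ + ∑ j, d j • G j` on a toric variety, where `D ρ` is the torus
invariant prime divisor of the ray `ρ` and `G j` is the closure of the hypersurface `g j = 0` of the
torus, together with a real vector `u` of exponents. -/
structure AmbientDivisor (k : Type u) [Field k] (N : ℕ) where
  /-- number of the hypersurfaces `G j` -/
  p : ℕ
  /-- equations of the hypersurfaces `G j` -/
  g : Fin p → (Fin N → ℤ) →₀ k
  /-- coefficients of the `G j` -/
  d : Fin p → ℝ
  /-- coefficients of the invariant prime divisors -/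
  c : (Fin N → ℤ) → ℝ
  /-- real exponents -/
  u : Fin N → ℝ

/-- `Δ` has coefficients in `Γ` (or `0`, on the invariant divisors), the hypersurfaces `G j` do not
contain `H`, the system `(f, g)` is Newton nondegenerate at the torus-fixed point, and `K_X + Δ + H`
is `ℝ`-Cartier with local equation `f^{-1} ∏ j, g_j^{-d_j} x^u`, i.e.
`K_X + Δ + H = div f + ∑ j, d_j div g_j - ∑ i, u_i div x_i`. -/
structure AmbientDivisor.IsBoundary (B : AmbientDivisor k (n + 1)) (y : Fin (n + 1) → K)
    (R : Finset (Fin (n + 1) → ℤ)) (f : (Fin (n + 1) → ℤ) →₀ k) (Γ : Set ℝ) : Prop where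
  coeff_invariant : ∀ ρ ∈ R, B.c ρ = 0 ∨ B.c ρ ∈ Γ
  coeff : ∀ j, B.d j ∈ Γ
  ne_zero : ∀ j, laurentPoly y (B.g j) ≠ 0
  nondegenerate : ∀ w : Fin (n + 1) → ℤ, (∀ m ∈ dualMonoid R, m ≠ 0 → 0 < m ⬝ᵥ w) →
    IsNondegenerateAt w (Fin.cons f B.g : Fin (B.p + 1) → (Fin (n + 1) → ℤ) →₀ k)
  cartier : ∀ ρ ∈ R, ∑ i, B.u i * (ρ i : ℝ) =
    1 - B.c ρ + minWeight ρ f + ∑ j, B.d j * (minWeight ρ (B.g j) : ℝ)

/-- The log discrepancy of the prime divisor `v` over `H` with respect to the pair
`(H, Diff_H Δ)`, given by adjunction `K_H + Diff_H Δ = (K_X + Δ + H)|_H`: here `K_H` is the divisor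
of the residue form `h • ω`, the order of the form `ω` along `v` is `e`, and
`K_H + Diff_H Δ = ∑ j, d_j div g_j(y) - ∑ i, u_i div y_i`. -/
noncomputable def AmbientDivisor.adjDiscrepancy (B : AmbientDivisor k (n + 1))
    (y : Fin (n + 1) → K) (h : K) (v : DVal k K) (e : ℤ) : ℝ :=
  1 + ((e : ℝ) + v.val h) + ∑ i, B.u i * (v.val (y i) : ℝ) -
    ∑ j, B.d j * (v.val (laurentPoly y (B.g j)) : ℝ)

/-- The boundary of the germ `G` of `H` is the different `Diff_H Δ`. -/
def IsDifferent (B : AmbientDivisor k (n + 1)) (G : LogGerm k K n) (y : Fin (n + 1) → K)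
    (h : K) : Prop :=
  ∀ v : DVal k K, v.IsPrimeDivisorThrough G.A G.pt → ∀ e : ℤ, v.FormOrd G.ω e →
    G.bdry v = 1 - B.adjDiscrepancy y h v e

/-- The pair `(H, Diff_H Δ)` is Kawamata log terminal at `x`: the log discrepancies of the prime
divisors over `H` whose centre contains `x` are positive. -/
def IsKltDifferent (B : AmbientDivisor k (n + 1)) (G : LogGerm k K n) (y : Fin (n + 1) → K)
    (h : K) : Prop :=
  ∀ v : DVal k K, v.IsDivisorial n → (∃ P : Ideal G.A, v.HasCenter G.A P ∧ P ≤ G.pt) →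
    ∀ e : ℤ, v.FormOrd G.ω e → 0 < B.adjDiscrepancy y h v e

end

/-- The set of the minimal log discrepancies `mld (x, H, Diff_H Δ)` of the `n`-dimensional log
canonical germs `x ∈ (H, Diff_H Δ)`, where `X` is an affine toric variety of dimension `n + 1`, `x`
is its torus-fixed point, `H` is a normal hypersurface, `Δ` is the sum of a torus-invariant divisor
and of a combination of hypersurfaces, with coefficients in `Γ` and `K_X + Δ + H` `ℝ`-Cartier, the
hypersurfaces form together with `H` a Newton nondegenerate system, and `(H, Diff_H Δ₀)` is klt at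
`x` for some `Δ₀` of the same kind with coefficients in `[0, 1]`. -/
def hypersurfaceMlds (k : Type u) [Field k] (n : ℕ) (Γ : Set ℝ) : Set EReal :=
  {a | ∃ (K : Type u) (_ : Field K) (_ : Algebra k K) (G : LogGerm k K n) (y : Fin (n + 1) → K)
    (R : Finset (Fin (n + 1) → ℤ)) (f : (Fin (n + 1) → ℤ) →₀ k) (h : K)
    (B B₀ : AmbientDivisor k (n + 1)),
    IsToricHypersurface G y R f ∧ IsResidue G.ω y f h ∧
    B.IsBoundary y R f Γ ∧ IsDifferent B G y h ∧
    B₀.IsBoundary y R f (Set.Icc 0 1) ∧ IsKltDifferent B₀ G y h ∧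
    0 ≤ G.mld ∧ a = G.mld}

end Pool.Agent.H50.Hyp
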