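import Mathlib
import Pool.Agent.H26.PrimeDiv

/-! # Valuations from discrete valuation rings -/

open scoped BigOperators
open Pool.Agent.H26

namespace Pool.Agent.H50.Hyp

universe u v w

section

variable {k : Type u} {K : Type v} [Field k] [Field K] [Algebra k K]
  {A : Subalgebra k K} [IsFractionRing A K]

open IsDiscreteValuationRing in
/-- the valuation attached to a prime whose local ring is a discrete valuation ring -/
theorem exists_dval_of_dvr (P : Ideal A) [P.IsPrime] [IsDiscreteValuationRing (Loc K P)] :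
    ∃ v : DVal k K, ∀ x : K, 0 ≤ v.ord x ↔ x ∈ Loc K P := by
  set V := (maximalIdeal (Loc K P)).valuation K with hV
  let v : DVal k K :=
  { ord := addValOfVal ((maximalIdeal (Loc K P)).valuation K)
    ord_algebraMap := by
      intro c hc
      have hc' : algebraMap k K c ≠ 0 := by simpa using hc
      rw [addValOfVal_apply _ hc']
      have h1 : ∀ d : k, (maximalIdeal (Loc K P)).valuation K (algebraMap k K d) ≤ 1 := by
        intro d
        have : algebraMap k K d ∈ Loc K P := by
          rw [mem_Loc_iff]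
          refine ⟨algebraMap k A d, 1, (Ideal.ne_top_iff_one P).1 (Ideal.IsPrime.ne_top inferInstance),
            ?_⟩
          rw [map_one, mul_one]
          rfl
        exact IsDedekindDomain.HeightOneSpectrum.valuation_le_one _ (⟨_, this⟩ : Loc K P)
      have h2 : (maximalIdeal (Loc K P)).valuation K (algebraMap k K c) = 1 := by
        refine le_antisymm (h1 c) ?_
        have h3 := h1 c⁻¹
        rw [map_inv₀, map_inv₀] at h3
        have hne : (maximalIdeal (Loc K P)).valuation K (algebraMap k K c) ≠ 0 :=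
          (Valuation.ne_zero_iff _).2 hc'
        exact (inv_le_one₀ (zero_lt_iff.2 hne)).1 h3
      rw [h2]
      simp
    exists_ord_eq_one := by
      obtain ⟨π, hπ⟩ := (maximalIdeal (Loc K P)).valuation_exists_uniformizer K
      have hπ0 : π ≠ 0 := by
        rintro rfl
        rw [map_zero] at hπ
        exact WithZero.exp_ne_zero hπ.symm
      refine ⟨π, ?_⟩
      rw [addValOfVal_apply _ hπ0, hπ]
      simp }
  refine ⟨v, fun x => ?_⟩
  by_cases hx : x = 0
  · rw [hx, v.ord_zero]
    exact ⟨fun _ => (Loc K P).zero_mem, fun _ => le_top⟩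
  have hVx : V x ≠ 0 := (Valuation.ne_zero_iff V).2 hx
  have h1 : v.ord x = ((-(WithZero.log (V x)) : ℤ) : WithTop ℤ) := addValOfVal_apply _ hx
  have h2 : 0 ≤ v.ord x ↔ V x ≤ 1 := by
    rw [h1]
    have h3 := (WithZero.log_le_iff_le_exp (a := 0) hVx)
    rw [WithZero.exp_zero] at h3
    rw [← h3]
    constructor
    · intro h
      have h2 : (0 : ℤ) ≤ -(WithZero.log (V x)) := by exact_mod_cast h
      linarith
    · intro h
      have h2 : (0 : ℤ) ≤ -(WithZero.log (V x)) := by linarith
      exact_mod_cast h2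
  rw [h2]
  constructor
  · intro h
    obtain ⟨a, ha⟩ := exists_lift_of_le_one (A := Loc K P) (K := K) h
    rw [← ha]; exact a.2
  · intro h
    exact IsDedekindDomain.HeightOneSpectrum.valuation_le_one _ (⟨_, h⟩ : Loc K P)

end

section

variable {k : Type u} {K : Type v} [Field k] [Field K] [Algebra k K]
  {R : Type w} [CommRing R] [IsDomain R] [Algebra k R] [IsNoetherianRing R]

open Polynomial

/-- **Existence of the valuation.** -/
theorem exists_dval (ε : R[X] →ₐ[k] K) (fh : R[X]) (hker : ∀ p, ε p = 0 ↔ fh ∣ p)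
    (hK : ∀ x : K, ∃ p q, ε q ≠ 0 ∧ x * ε q = ε p) {g1 g2 : R} (hg : fh.coeff 0 = g1 * g2)
    (hg1 : Prime g1) (hg2 : ¬ g1 ∣ g2) :
    ∃ v : DVal k K, v.ord (ε X) = 1 ∧ (∀ p, 0 ≤ v.ord (ε p)) ∧
      (∀ p, 0 < v.ord (ε p) ↔ g1 ∣ p.coeff 0) ∧
      ∀ x, 0 ≤ v.ord x → ∃ p s, ¬ g1 ∣ s.coeff 0 ∧ x * ε s = ε p := by
  classical
  have hg20 : g2 ≠ 0 := by
    rintro rfl
    exact hg2 (dvd_zero _)
  set A : Subalgebra k K := ε.range with hA
  have hsurj : Function.Surjective ε.rangeRestrict := ε.rangeRestrict_surjective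
  have hnoeth : IsNoetherianRing A := isNoetherianRing_of_surjective R[X] A ε.rangeRestrict.toRingHom hsurj
  have hmk : ∀ p, ((ε.rangeRestrict p : A) : K) = ε p := fun _ => rfl
  have hfrac : IsFractionRing A K := by
    refine IsFractionRing.of_field _ _ fun z => ?_
    obtain ⟨p, q, hq, h⟩ := hK z
    refine ⟨ε.rangeRestrict p, ε.rangeRestrict q, ?_⟩
    change z = ε p / ε q
    rw [eq_div_iff hq, h]
  have hwd : ∀ p q, ε p = ε q → (g1 ∣ p.coeff 0 ↔ g1 ∣ q.coeff 0) := by
    intro p q h
    have h1 : fh ∣ p - q := by rw [← hker, map_sub, h, sub_self]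
    obtain ⟨r, hr⟩ := h1
    have h2 : p.coeff 0 = q.coeff 0 + g1 * (g2 * r.coeff 0) := by
      have := congrArg (fun s => coeff s 0) hr
      simp only [coeff_sub, mul_coeff_zero, hg] at this
      linear_combination this
    rw [h2]
    exact (dvd_add_left (dvd_mul_right _ _))
  let P : Ideal A :=
    { carrier := {a | ∃ p, ε p = a ∧ g1 ∣ p.coeff 0}
      zero_mem' := ⟨0, by simp, by simp⟩
      add_mem' := by
        rintro a b ⟨p, hp, hp1⟩ ⟨q, hq, hq1⟩
        refine ⟨p + q, by rw [map_add, hp, hq]; rfl, ?_⟩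
        rw [coeff_add]
        exact dvd_add hp1 hq1
      smul_mem' := by
        rintro c a ⟨p, hp, hp1⟩
        obtain ⟨q, rfl⟩ := hsurj c
        refine ⟨q * p, by rw [map_mul, hp]; rfl, ?_⟩
        rw [mul_coeff_zero]
        exact hp1.mul_left _ }
  have hPmem : ∀ p, ε.rangeRestrict p ∈ P ↔ g1 ∣ p.coeff 0 := by
    intro p
    constructor
    · rintro ⟨q, hq, hq1⟩
      exact (hwd q p hq).1 hq1
    · intro h
      exact ⟨p, rfl, h⟩
  have hPprime : P.IsPrime := by
    refine ⟨?_, fun {x y} hxy => ?_⟩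
    · rw [Ideal.ne_top_iff_one, ← map_one ε.rangeRestrict, hPmem, coeff_one_zero]
      exact fun h => hg1.not_isUnit (isUnit_of_dvd_one h)
    · obtain ⟨p, rfl⟩ := hsurj x
      obtain ⟨q, rfl⟩ := hsurj y
      rw [← map_mul, hPmem, mul_coeff_zero] at hxy
      rw [hPmem, hPmem]
      exact hg1.dvd_or_dvd hxy
  -- the parameter
  have ht0 : ε X ≠ 0 := by
    intro h
    obtain ⟨q, hq⟩ := (hker X).1 h
    have h1 := congrArg (fun s => coeff s 0) hq
    simp only [coeff_X_zero, mul_coeff_zero, hg] at h1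
    have h2 : q.coeff 0 = 0 :=
      (mul_eq_zero.1 h1.symm).resolve_left (mul_ne_zero hg1.ne_zero hg20)
    obtain ⟨q', hq'⟩ := X_dvd_iff.2 h2
    rw [hq'] at hq
    have h3 : fh * q' = 1 := by
      have h4 : (X : R[X]) * 1 = X * (fh * q') := by
        rw [mul_one]
        linear_combination hq
      exact (mul_left_cancel₀ X_ne_zero h4).symm
    have h4 : ε 1 = 0 := by
      rw [hker]
      exact ⟨q', h3.symm⟩
    rw [map_one] at h4
    exact one_ne_zero h4
  have hAL : ∀ a : A, (a : K) ∈ Loc K P := fun a => by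
    rw [mem_Loc_iff]
    refine ⟨a, 1, (Ideal.ne_top_iff_one P).1 (Ideal.IsPrime.ne_top inferInstance), ?_⟩
    rw [map_one, mul_one]
    rfl
  let τ : Loc K P := ⟨ε X, hAL (ε.rangeRestrict X)⟩
  have hτmem : τ ∈ IsLocalRing.maximalIdeal (Loc K P) := by
    have h1 : τ = algebraMap A (Loc K P) (ε.rangeRestrict X) := rfl
    rw [h1]
    refine (IsLocalization.AtPrime.to_map_mem_maximal_iff (Loc K P) P _).2 ?_
    rw [hPmem, coeff_X_zero]
    exact dvd_zero _
  have hmaxle : IsLocalRing.maximalIdeal (Loc K P) ≤ Ideal.span {τ} := by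
    · intro x hx
      rw [Ideal.mem_span_singleton]
      obtain ⟨a, s, hs, has⟩ := (mem_Loc_iff P (x : K)).1 x.2
      obtain ⟨p, rfl⟩ := hsurj a
      obtain ⟨q, rfl⟩ := hsurj s
      have has' : (x : K) * ε q = ε p := has
      have hp1 : g1 ∣ p.coeff 0 := by
        rw [← hPmem]
        have h1 : algebraMap A (Loc K P) (ε.rangeRestrict p) =
            x * algebraMap A (Loc K P) (ε.rangeRestrict q) := Subtype.ext has.symm
        have h2 : algebraMap A (Loc K P) (ε.rangeRestrict p) ∈
            IsLocalRing.maximalIdeal (Loc K P) := by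
          rw [h1]; exact Ideal.mul_mem_right _ _ hx
        exact (IsLocalization.AtPrime.to_map_mem_maximal_iff (Loc K P) P _).1 h2
      obtain ⟨c, hc⟩ := hp1
      -- `p = C (p 0) + X * divX p`
      have hp : p * C g2 = C c * fh + X * (divX p * C g2 - C c * divX fh) := by
        have e1 : divX p * X + C g1 * C c = p := by
          rw [← map_mul, ← hc]; exact divX_mul_X_add p
        have e3 : divX fh * X + C g1 * C g2 = fh := by
          rw [← map_mul, ← hg]; exact divX_mul_X_add fh
        linear_combination -(C g2) * e1 + (C c) * e3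
      have hεp : ε p * ε (C g2) = ε X * ε (divX p * C g2 - C c * divX fh) := by
        rw [← map_mul, hp, map_add, map_mul, map_mul, (hker fh).2 dvd_rfl, mul_zero, zero_add]
      have hs' : ¬ g1 ∣ (q * C g2).coeff 0 := by
        rw [mul_coeff_zero, coeff_C_zero]
        intro h
        rcases hg1.dvd_or_dvd h with h | h
        · exact hs ((hPmem q).2 h)
        · exact hg2 h
      have hz : ∃ z : Loc K P, (z : K) * ε (q * C g2) = ε (divX p * C g2 - C c * divX fh) := by
        have h0 : ε (q * C g2) ≠ 0 := by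
          intro h
          apply hs'
          rw [← hPmem]
          have : ε.rangeRestrict (q * C g2) = 0 := Subtype.ext h
          rw [this]; exact P.zero_mem
        refine ⟨⟨ε (divX p * C g2 - C c * divX fh) / ε (q * C g2), ?_⟩, ?_⟩
        · rw [mem_Loc_iff]
          refine ⟨ε.rangeRestrict (divX p * C g2 - C c * divX fh), ε.rangeRestrict (q * C g2),
            fun h => hs' ((hPmem _).1 h), ?_⟩
          change ε (divX p * C g2 - C c * divX fh) / ε (q * C g2) * ε (q * C g2) = _
          rw [div_mul_cancel₀ _ h0]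
          rfl
        · exact div_mul_cancel₀ _ h0
      obtain ⟨z, hz⟩ := hz
      refine ⟨z, Subtype.ext ?_⟩
      change (x : K) = ε X * (z : K)
      have h0 : ε (q * C g2) ≠ 0 := by
        intro h
        apply hs'
        rw [← hPmem]
        have : ε.rangeRestrict (q * C g2) = 0 := Subtype.ext h
        rw [this]; exact P.zero_mem
      apply mul_right_cancel₀ h0
      rw [mul_assoc, hz, ← hεp, map_mul, ← mul_assoc, has']
  have hprinc : (IsLocalRing.maximalIdeal (Loc K P)).IsPrincipal := by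
    refine ⟨⟨τ, le_antisymm ?_ ?_⟩⟩
    · rw [Ideal.submodule_span_eq]
      exact hmaxle
    · rw [Ideal.submodule_span_eq, Ideal.span_singleton_le_iff_mem]
      exact hτmem
  have hτ0 : τ ≠ 0 := fun h => ht0 (congrArg Subtype.val h)
  have hnf : ¬ IsField (Loc K P) := by
    intro h
    rw [IsLocalRing.isField_iff_maximalIdeal_eq] at h
    rw [h, Ideal.mem_bot] at hτmem
    exact hτ0 hτmem
  have hdvr : IsDiscreteValuationRing (Loc K P) :=
    ((IsDiscreteValuationRing.TFAE (Loc K P) hnf).out 0 4).2 hprinc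
  obtain ⟨v, hv⟩ := exists_dval_of_dvr (k := k) (K := K) P
  have hpos : ∀ x : Loc K P, 0 < v.ord (x : K) ↔ x ∈ IsLocalRing.maximalIdeal (Loc K P) := by
    intro x
    rw [IsLocalRing.mem_maximalIdeal, mem_nonunits_iff]
    by_cases hx : (x : K) = 0
    · rw [hx, v.ord_zero]
      refine iff_of_true (WithTop.coe_lt_top (0 : ℤ)) ?_
      have : x = 0 := Subtype.ext hx
      rw [this]
      exact not_isUnit_zero
    constructor
    · intro h hu
      obtain ⟨z, hz⟩ := hu.exists_right_inv
      have h1 : (x : K) * (z : K) = 1 := congrArg Subtype.val hz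
      have h2 := congrArg v.ord h1
      rw [v.ord.map_mul, v.ord.map_one] at h2
      have h3 : 0 ≤ v.ord (z : K) := (hv _).2 z.2
      have h4 : 0 < v.ord (x : K) + v.ord (z : K) := lt_of_lt_of_le h (le_add_of_nonneg_right h3)
      rw [h2] at h4
      exact lt_irrefl _ h4
    · intro h
      have h1 : 0 ≤ v.ord (x : K) := (hv _).2 x.2
      refine lt_of_le_of_ne h1 fun h2 => h ?_
      have h3 : 0 ≤ v.ord (x : K)⁻¹ := by
        rw [v.nonneg_ord_iff]
        right
        rw [v.val_inv hx]
        have := (v.ord_eq_zero_iff.1 h2.symm).2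
        rw [this]; simp
      refine IsUnit.of_mul_eq_one (⟨(x : K)⁻¹, (hv _).1 h3⟩ : Loc K P) (Subtype.ext ?_)
      exact mul_inv_cancel₀ hx
  refine ⟨v, ?_, fun p => (hv _).2 (hAL (ε.rangeRestrict p)), fun p => ?_, fun x hx => ?_⟩
  · -- the order of the parameter is one
    have h1 : 0 < v.ord (ε X) := (hpos τ).2 hτmem
    obtain ⟨π, hπ⟩ := v.exists_ord_eq_one
    have hπL : π ∈ Loc K P := (hv π).1 (by rw [hπ]; exact zero_le_one)
    have hπm : (⟨π, hπL⟩ : Loc K P) ∈ IsLocalRing.maximalIdeal (Loc K P) := by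
      rw [← hpos]
      change 0 < v.ord π
      rw [hπ]
      exact zero_lt_one
    obtain ⟨z, hz⟩ : τ ∣ (⟨π, hπL⟩ : Loc K P) := Ideal.mem_span_singleton.1 (hmaxle hπm)
    have h3 : π = ε X * (z : K) := congrArg Subtype.val hz
    have h4 := congrArg v.ord h3
    rw [v.ord.map_mul, hπ] at h4
    have h5 : 0 ≤ v.ord (z : K) := (hv _).2 z.2
    have hz0 : (z : K) ≠ 0 := by
      intro h
      rw [h, mul_zero] at h3
      rw [h3, v.ord_zero] at hπ
      exact WithTop.top_ne_one hπ
    rw [v.ord_eq_val ht0] at h1 h4 ⊢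
    rw [v.ord_eq_val hz0] at h4 h5
    have h6 : 0 < v.val (ε X) := by exact_mod_cast h1
    have h7 : 0 ≤ v.val (z : K) := by exact_mod_cast h5
    have h8 : (1 : ℤ) = v.val (ε X) + v.val (z : K) := by exact_mod_cast h4
    have h9 : v.val (ε X) = 1 := by omega
    rw [h9]
    rfl
  · rw [← hPmem, ← IsLocalization.AtPrime.to_map_mem_maximal_iff (Loc K P) P, ← hpos]
    rfl
  · obtain ⟨a, s, hs, has⟩ := (mem_Loc_iff P x).1 ((hv x).1 hx)
    obtain ⟨p, rfl⟩ := hsurj a
    obtain ⟨q, rfl⟩ := hsurj s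
    exact ⟨p, q, fun h => hs ((hPmem q).2 h), has⟩

end

end Pool.Agent.H50.Hyp
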