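import Mathlib
import Pool.Agent.H50.Hyp.Comb

/-! # Facts on Laurent polynomial rings -/

open scoped BigOperators
open Pool.Agent.H26

namespace Pool.Agent.H50.Hyp

universe u

section basic

variable {k : Type u} [Field k] {n : ℕ}

lemma dot_ext {m m' : Fin n → ℤ} (h : ∀ w : Fin n → ℤ, m ⬝ᵥ w = m' ⬝ᵥ w) : m = m' := by
  funext i
  have := h (Pi.single i 1)
  simpa using this

lemma inForm_coeff {w : Fin n → ℤ} {F : Laurent k n} {γ : ℤ} (h : IsMinWt w F γ)
    (m : Fin n → ℤ) : (inForm w F).coeff m = if m ⬝ᵥ w = γ then F.coeff m else 0 := by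
  classical
  by_cases hm : m ∈ F.coeff.support
  · unfold inForm
    rw [restr_coeff, Finsupp.filter_apply]
    congr 1
    rw [eq_iff_iff]
    refine ⟨fun h1 => ?_, fun h1 m' hm' => ?_⟩
    · obtain ⟨m', hm', hmu⟩ := h.1
      exact le_antisymm (hmu ▸ h1 m' hm') (h.2 m hm)
    · rw [h1]; exact h.2 m' hm'
  · have h0 : F.coeff m = 0 := Finsupp.notMem_support_iff.1 hm
    unfold inForm
    rw [restr_coeff, Finsupp.filter_apply, h0]
    split_ifs <;> rfl

lemma ne_zero_iff_support {F : Laurent k n} : F ≠ 0 ↔ F.coeff.support.Nonempty := by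
  rw [Finsupp.support_nonempty_iff]
  constructor
  · intro h h1
    exact h (AddMonoidAlgebra.coeff_injective h1)
  · rintro h rfl
    exact h AddMonoidAlgebra.coeff_zero

lemma inForm_ne_zero (w : Fin n → ℤ) {F : Laurent k n} (hF : F ≠ 0) : inForm w F ≠ 0 := by
  obtain ⟨m, hm, hmw⟩ := (minWt_spec w hF).1
  rw [ne_zero_iff_support]
  exact ⟨m, (mem_inForm_support (minWt_spec w hF)).2 ⟨hm, hmw⟩⟩

lemma inForm_zero (w : Fin n → ℤ) : inForm w (0 : Laurent k n) = 0 := by
  unfold inForm
  apply AddMonoidAlgebra.coeff_injective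
  rw [restr_coeff, AddMonoidAlgebra.coeff_zero]
  exact Finsupp.filter_zero _

lemma inForm_of_decomp {w : Fin n → ℤ} {F G H : Laurent k n} {γ : ℤ} (hF : F = G + H)
    (hG0 : G ≠ 0) (hG : ∀ m ∈ G.coeff.support, m ⬝ᵥ w = γ)
    (hH : ∀ m ∈ H.coeff.support, γ < m ⬝ᵥ w) : IsMinWt w F γ ∧ inForm w F = G := by
  classical
  have hcoeff : ∀ m, F.coeff m = G.coeff m + H.coeff m := fun m => by
    rw [hF, AddMonoidAlgebra.coeff_add]; rfl
  have hH0 : ∀ m, m ⬝ᵥ w = γ → H.coeff m = 0 := by
    intro m hm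
    by_contra h
    have := hH m (Finsupp.mem_support_iff.2 h)
    omega
  have hG0' : ∀ m, m ⬝ᵥ w ≠ γ → G.coeff m = 0 := by
    intro m hm
    by_contra h
    exact hm (hG m (Finsupp.mem_support_iff.2 h))
  have hmin : IsMinWt w F γ := by
    constructor
    · obtain ⟨m, hm⟩ := ne_zero_iff_support.1 hG0
      refine ⟨m, ?_, hG m hm⟩
      rw [Finsupp.mem_support_iff, hcoeff, hH0 m (hG m hm), add_zero]
      exact Finsupp.mem_support_iff.1 hm
    · intro m hm
      by_cases h : m ⬝ᵥ w = γ
      · exact h.ge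
      · rw [Finsupp.mem_support_iff, hcoeff, hG0' m h, zero_add] at hm
        exact (hH m (Finsupp.mem_support_iff.2 hm)).le
  refine ⟨hmin, ?_⟩
  apply AddMonoidAlgebra.coeff_injective
  ext m
  rw [inForm_coeff hmin]
  split_ifs with h
  · rw [hcoeff, hH0 m h, add_zero]
  · rw [hG0' m h]

lemma mem_support_mul {F G : Laurent k n} {m : Fin n → ℤ} (hm : m ∈ (F * G).coeff.support) :
    ∃ a ∈ F.coeff.support, ∃ b ∈ G.coeff.support, m = a + b := by
  classical
  have h1 := AddMonoidAlgebra.support_coeff_mul_subset F G hm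
  obtain ⟨a, ha, b, hb, rfl⟩ := Finset.mem_add.1 h1
  exact ⟨a, ha, b, hb, rfl⟩

lemma mem_support_add {F G : Laurent k n} {m : Fin n → ℤ} (hm : m ∈ (F + G).coeff.support) :
    m ∈ F.coeff.support ∨ m ∈ G.coeff.support := by
  classical
  rw [AddMonoidAlgebra.coeff_add] at hm
  exact Finset.mem_union.1 (Finsupp.support_add hm)

/-- initial forms and weights are multiplicative -/
lemma inForm_mul_aux (w : Fin n → ℤ) {F G : Laurent k n} (hF : F ≠ 0) (hG : G ≠ 0) :
    IsMinWt w (F * G) (minWt w F + minWt w G) ∧ inForm w (F * G) = inForm w F * inForm w G := by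
  have hF' := minWt_spec w hF
  have hG' := minWt_spec w hG
  refine inForm_of_decomp (H := inForm w F * (G - inForm w G) + (F - inForm w F) * G) (by ring)
    (mul_ne_zero (inForm_ne_zero w hF) (inForm_ne_zero w hG)) ?_ ?_
  · intro m hm
    obtain ⟨a, ha, b, hb, rfl⟩ := mem_support_mul hm
    rw [add_dotProduct, ((mem_inForm_support hF').1 ha).2, ((mem_inForm_support hG').1 hb).2]
  · intro m hm
    rcases mem_support_add hm with h | h
    · obtain ⟨a, ha, b, hb, rfl⟩ := mem_support_mul h
      have h1 := (mem_inForm_support hF').1 ha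
      have h2 := mem_sub_inForm_support hG' hb
      rw [add_dotProduct]
      omega
    · obtain ⟨a, ha, b, hb, rfl⟩ := mem_support_mul h
      have h1 := mem_sub_inForm_support hF' ha
      have h2 := hG'.2 b hb
      rw [add_dotProduct]
      omega

lemma inForm_mul (w : Fin n → ℤ) (F G : Laurent k n) :
    inForm w (F * G) = inForm w F * inForm w G := by
  by_cases hF : F = 0
  · rw [hF, zero_mul, inForm_zero, zero_mul]
  by_cases hG : G = 0
  · rw [hG, mul_zero, inForm_zero, mul_zero]
  exact (inForm_mul_aux w hF hG).2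

lemma minWt_mul (w : Fin n → ℤ) {F G : Laurent k n} (hF : F ≠ 0) (hG : G ≠ 0) :
    minWt w (F * G) = minWt w F + minWt w G :=
  (minWt_spec w (mul_ne_zero hF hG)).eq (inForm_mul_aux w hF hG).1

lemma inForm_dvd (w : Fin n → ℤ) {F G : Laurent k n} (h : F ∣ G) : inForm w F ∣ inForm w G := by
  obtain ⟨H, rfl⟩ := h
  rw [inForm_mul]
  exact dvd_mul_right _ _

/-- the width of a nonzero Laurent polynomial with respect to a weight -/
lemma minWt_add_neg_le (w : Fin n → ℤ) {F : Laurent k n} (hF : F ≠ 0) :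
    minWt w F + minWt (-w) F ≤ 0 := by
  obtain ⟨m, hm⟩ := ne_zero_iff_support.1 hF
  have h1 := minWt_le (w := w) hm
  have h2 := minWt_le (w := -w) hm
  rw [dotProduct_neg] at h2
  omega

lemma dot_eq_of_width {w : Fin n → ℤ} {F : Laurent k n}
    (h : minWt w F + minWt (-w) F = 0) {m : Fin n → ℤ} (hm : m ∈ F.coeff.support) :
    m ⬝ᵥ w = minWt w F := by
  have h1 := minWt_le (w := w) hm
  have h2 := minWt_le (w := -w) hm
  rw [dotProduct_neg] at h2
  omega

lemma minWt_one (w : Fin n → ℤ) : minWt w (1 : Laurent k n) = 0 := by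
  have h : (0 : Fin n → ℤ) ∈ (1 : Laurent k n).coeff.support := by
    rw [AddMonoidAlgebra.one_def, AddMonoidAlgebra.coeff_single, Finsupp.mem_support_iff]
    simp
  rw [minWt_eq h, zero_dotProduct]
  intro m hm
  rw [AddMonoidAlgebra.one_def, AddMonoidAlgebra.coeff_single] at hm
  have := Finsupp.support_single_subset hm
  rw [Finset.mem_singleton] at this
  rw [this]

lemma isUnit_dot {F : Laurent k n} (hF : IsUnit F) (w : Fin n → ℤ) {m : Fin n → ℤ}
    (hm : m ∈ F.coeff.support) : m ⬝ᵥ w = minWt w F := by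
  obtain ⟨G, hG⟩ := hF.exists_right_inv
  have hF0 : F ≠ 0 := hF.ne_zero
  have hG0 : G ≠ 0 := by
    rintro rfl
    rw [mul_zero] at hG
    exact zero_ne_one hG
  have h1 := minWt_mul w hF0 hG0
  have h2 := minWt_mul (-w) hF0 hG0
  rw [hG, minWt_one] at h1 h2
  have h3 := minWt_add_neg_le w hF0
  have h4 := minWt_add_neg_le w hG0
  exact dot_eq_of_width (by omega) hm

lemma isUnit_support {F : Laurent k n} (hF : IsUnit F) {m m' : Fin n → ℤ}
    (hm : m ∈ F.coeff.support) (hm' : m' ∈ F.coeff.support) : m = m' :=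
  dot_ext fun w => by rw [isUnit_dot hF w hm, isUnit_dot hF w hm']

lemma isUnit_of_support {F : Laurent k n} (hF : F ≠ 0)
    (h : ∀ m ∈ F.coeff.support, ∀ m' ∈ F.coeff.support, m = m') : IsUnit F := by
  classical
  obtain ⟨m, hm⟩ := ne_zero_iff_support.1 hF
  have h1 : F = AddMonoidAlgebra.single m (F.coeff m) := by
    apply AddMonoidAlgebra.coeff_injective
    ext m'
    rw [AddMonoidAlgebra.coeff_single, Finsupp.single_apply]
    split_ifs with h2
    · rw [h2]
    · by_contra h3
      exact h2 (h m hm m' (Finsupp.mem_support_iff.2 h3))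
  rw [h1]
  refine IsUnit.of_mul_eq_one (AddMonoidAlgebra.single (-m) (F.coeff m)⁻¹) ?_
  rw [AddMonoidAlgebra.single_mul_single, add_neg_cancel,
    mul_inv_cancel₀ (Finsupp.mem_support_iff.1 hm)]
  rfl

lemma isMono_of_isUnit {F : Laurent k n} (hF : IsUnit F) (w : Fin n → ℤ) : IsMono w F := by
  obtain ⟨m, hm⟩ := ne_zero_iff_support.1 hF.ne_zero
  exact ⟨m, hm, fun m' hm' h => absurd (isUnit_support hF hm' hm) h⟩

lemma isMono_iff {F : Laurent k n} (hF : F ≠ 0) (w : Fin n → ℤ) :
    IsMono w F ↔ IsUnit (inForm w F) := by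
  have hF' := minWt_spec w hF
  constructor
  · rintro ⟨m0, hm0, h⟩
    refine isUnit_of_support (inForm_ne_zero w hF) ?_
    have key : ∀ m ∈ (inForm w F).coeff.support, m = m0 := by
      intro m hm
      obtain ⟨h1, h2⟩ := (mem_inForm_support hF').1 hm
      by_contra hne
      have h3 := h m h1 hne
      have h4 := hF'.2 m0 hm0
      omega
    intro m hm m' hm'
    rw [key m hm, key m' hm']
  · intro hu
    obtain ⟨m0, hm0⟩ := ne_zero_iff_support.1 hu.ne_zero
    obtain ⟨h1, h2⟩ := (mem_inForm_support hF').1 hm0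
    refine ⟨m0, h1, fun m hm hne => ?_⟩
    rw [h2]
    refine lt_of_le_of_ne (hF'.2 m hm) fun h => hne ?_
    exact isUnit_support hu ((mem_inForm_support hF').2 ⟨hm, h.symm⟩) hm0

lemma isMono_mul {F G : Laurent k n} {w : Fin n → ℤ} (hF : IsMono w F) (hG : IsMono w G) :
    IsMono w (F * G) := by
  have hF0 : F ≠ 0 := by
    obtain ⟨m, hm, _⟩ := hF
    exact ne_zero_iff_support.2 ⟨m, hm⟩
  have hG0 : G ≠ 0 := by
    obtain ⟨m, hm, _⟩ := hG
    exact ne_zero_iff_support.2 ⟨m, hm⟩
  rw [isMono_iff hF0] at hF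
  rw [isMono_iff hG0] at hG
  rw [isMono_iff (mul_ne_zero hF0 hG0), inForm_mul]
  exact hF.mul hG

end basic

/-! ## Unique factorisation -/

section ufd

/-- `ℤ^(n+1) = ℤ × ℤ^n` -/
def consAddEquiv (n : ℕ) : (Fin (n + 1) → ℤ) ≃+ ℤ × (Fin n → ℤ) where
  toFun m := (m 0, fun i => m i.succ)
  invFun x := Fin.cons x.1 x.2
  left_inv m := Fin.cons_self_tail m
  right_inv x := by simp
  map_add' a b := rfl

/-- Laurent polynomials in `n + 1` variables as Laurent polynomials in one variable -/
noncomputable def splitEquiv (k : Type u) [Field k] {n : ℕ}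
    (E : (Fin (n + 1) → ℤ) ≃+ ℤ × (Fin n → ℤ)) :
    Laurent k (n + 1) ≃ₐ[k] LaurentPolynomial (Laurent k n) :=
  (AddMonoidAlgebra.domCongr k k E).trans (AddMonoidAlgebra.curryAlgEquiv k)

instance ufd_laurent (k : Type u) [Field k] (n : ℕ) : UniqueFactorizationMonoid (Laurent k n) := by
  induction n with
  | zero =>
    have hf : IsField (Laurent k 0) := by
      refine ⟨⟨0, 1, zero_ne_one⟩, mul_comm, fun {a} ha => ?_⟩
      exact (isUnit_of_support ha fun m _ m' _ => Subsingleton.elim _ _).exists_right_inv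
    let := hf.toField
    exact inferInstance
  | succ n ih =>
    have h1 : UniqueFactorizationMonoid (Polynomial (Laurent k n)) := inferInstance
    have h2 : UniqueFactorizationMonoid (LaurentPolynomial (Laurent k n)) :=
      UniqueFactorizationMonoid.of_isLocalization (Submonoid.powers (Polynomial.X : Polynomial (Laurent k n))) _
    exact MulEquiv.uniqueFactorizationMonoid (splitEquiv k (consAddEquiv n)).symm.toMulEquiv h2

variable {k : Type u} [Field k] {n : ℕ}

lemma exists_prime_not_mono {w : Fin n → ℤ} (G : Laurent k n) (hG : G ≠ 0) (h : ¬ IsMono w G) :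
    ∃ p, Prime p ∧ p ∣ G ∧ ¬ IsMono w p := by
  have key : G ≠ 0 → (∀ p, Prime p → p ∣ G → IsMono w p) → IsMono w G := by
    induction G using UniqueFactorizationMonoid.induction_on_prime with
    | h₁ => intro h; exact absurd rfl h
    | h₂ x hx => intro _ _; exact isMono_of_isUnit hx w
    | h₃ a p ha hp ih =>
      intro _ hall
      exact isMono_mul (hall p hp (dvd_mul_right _ _))
        (ih ‹_› (fun h' => h (by
          exact isMono_mul (hall p hp (dvd_mul_right _ _)) h')) ha
          fun q hq hqa => hall q hq (hqa.mul_left _))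
  by_contra hcon
  push Not at hcon
  exact h (key hG hcon)

end ufd

end Pool.Agent.H50.Hyp
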