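import Mathlib
import Pool.Agent.H50.Hyp.LaurentFacts

/-! # Iterated initial forms, logarithmic derivatives, nondegeneracy -/

open scoped BigOperators
open Pool.Agent.H26

namespace Pool.Agent.H50.Hyp

universe u

variable {k : Type u} [Field k] {n : ℕ}

/-- iterated initial forms -/
lemma exists_inForm_inForm (w w0 : Fin n → ℤ) (F : Laurent k n) :
    ∃ K0 : ℕ, ∀ a : ℕ, K0 ≤ a → inForm ((a : ℤ) • w + w0) F = inForm w0 (inForm w F) := by
  classical
  by_cases hF : F = 0
  · exact ⟨0, fun a _ => by rw [hF, inForm_zero, inForm_zero, inForm_zero]⟩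
  have h1 := minWt_spec w hF
  have h2 := minWt_spec w0 (inForm_ne_zero w hF)
  obtain ⟨m0, hm0, hm0w⟩ := h2.1
  obtain ⟨hm0F, hm0w'⟩ := (mem_inForm_support h1).1 hm0
  refine ⟨∑ m ∈ F.coeff.support, (m ⬝ᵥ w0 - m0 ⬝ᵥ w0).natAbs + 1, fun a ha => ?_⟩
  have hlt : ∀ m ∈ F.coeff.support, minWt w F < m ⬝ᵥ w →
      m0 ⬝ᵥ ((a : ℤ) • w + w0) < m ⬝ᵥ ((a : ℤ) • w + w0) := by
    intro m hm hmw
    have h3 : (m ⬝ᵥ w0 - m0 ⬝ᵥ w0).natAbs ≤
        ∑ m ∈ F.coeff.support, (m ⬝ᵥ w0 - m0 ⬝ᵥ w0).natAbs :=
      Finset.single_le_sum (f := fun m => (m ⬝ᵥ w0 - m0 ⬝ᵥ w0).natAbs)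
        (fun _ _ => Nat.zero_le _) hm
    rw [dotProduct_add, dotProduct_add, dotProduct_smul, dotProduct_smul, smul_eq_mul, smul_eq_mul]
    have h4 : (a : ℤ) * (m0 ⬝ᵥ w) + a ≤ a * (m ⬝ᵥ w) := by
      have h5 : m0 ⬝ᵥ w + 1 ≤ m ⬝ᵥ w := by omega
      have h6 := mul_le_mul_of_nonneg_left h5 (show (0 : ℤ) ≤ a by positivity)
      linarith
    omega
  have hmin : IsMinWt ((a : ℤ) • w + w0) F (a * minWt w F + m0 ⬝ᵥ w0) := by
    have h3 : m0 ⬝ᵥ ((a : ℤ) • w + w0) = a * minWt w F + m0 ⬝ᵥ w0 := by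
      rw [dotProduct_add, dotProduct_smul, smul_eq_mul, hm0w']
    refine ⟨⟨m0, hm0F, h3⟩, fun m hm => ?_⟩
    rw [← h3]
    rcases (h1.2 m hm).eq_or_lt with h | h
    · rw [dotProduct_add, dotProduct_add, dotProduct_smul, dotProduct_smul, smul_eq_mul,
        smul_eq_mul, hm0w', ← h]
      have := h2.2 m ((mem_inForm_support h1).2 ⟨hm, h.symm⟩)
      omega
    · exact (hlt m hm h).le
  apply AddMonoidAlgebra.coeff_injective
  ext m
  rw [inForm_coeff hmin, inForm_coeff h2, inForm_coeff h1]
  by_cases hm : m ∈ F.coeff.support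
  · rcases (h1.2 m hm).eq_or_lt with h | h
    · have e : m ⬝ᵥ ((a : ℤ) • w + w0) = a * minWt w F + m ⬝ᵥ w0 := by
        rw [dotProduct_add, dotProduct_smul, smul_eq_mul, ← h]
      rw [e, if_pos h.symm]
      by_cases h5 : m ⬝ᵥ w0 = m0 ⬝ᵥ w0
      · rw [if_pos (by rw [h5]), if_pos (by rw [h5, hm0w])]
      · rw [if_neg (by omega), if_neg (by omega)]
    · have e : m0 ⬝ᵥ ((a : ℤ) • w + w0) = a * minWt w F + m0 ⬝ᵥ w0 := by
        rw [dotProduct_add, dotProduct_smul, smul_eq_mul, hm0w']
      have h3 := hlt m hm h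
      rw [if_neg (by omega), if_neg (show ¬ (m ⬝ᵥ w = minWt w F) by omega)]
      split_ifs <;> rfl
  · have h0 : F.coeff m = 0 := Finsupp.notMem_support_iff.1 hm
    rw [h0]
    split_ifs <;> rfl

/-! ### Logarithmic derivatives -/

lemma thetaL_coeff (i : Fin n) (F : Laurent k n) (m : Fin n → ℤ) :
    (thetaL i F).coeff m = F.coeff m * (m i : k) := by
  classical
  unfold thetaL
  rw [AddMonoidAlgebra.coeff_sum, Finsupp.finsetSum_apply]
  simp_rw [AddMonoidAlgebra.coeff_single, Finsupp.single_apply]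
  rw [Finset.sum_ite_eq']
  split_ifs with h
  · rfl
  · rw [Finsupp.notMem_support_iff.1 h, zero_mul]

lemma thetaL_add (i : Fin n) (F G : Laurent k n) :
    thetaL i (F + G) = thetaL i F + thetaL i G := by
  apply AddMonoidAlgebra.coeff_injective
  ext m
  rw [AddMonoidAlgebra.coeff_add, Finsupp.add_apply, thetaL_coeff, thetaL_coeff, thetaL_coeff,
    AddMonoidAlgebra.coeff_add, Finsupp.add_apply]
  ring

lemma thetaL_zero (i : Fin n) : thetaL i (0 : Laurent k n) = 0 := by
  apply AddMonoidAlgebra.coeff_injective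
  ext m
  rw [thetaL_coeff, AddMonoidAlgebra.coeff_zero]
  simp

lemma thetaL_single (i : Fin n) (m : Fin n → ℤ) (c : k) :
    thetaL i (AddMonoidAlgebra.single m c : Laurent k n) =
      AddMonoidAlgebra.single m (c * (m i : k)) := by
  classical
  apply AddMonoidAlgebra.coeff_injective
  ext m'
  rw [thetaL_coeff, AddMonoidAlgebra.coeff_single, AddMonoidAlgebra.coeff_single,
    Finsupp.single_apply, Finsupp.single_apply]
  split_ifs with h
  · rw [h]
  · rw [zero_mul]

lemma thetaL_mul (i : Fin n) (F G : Laurent k n) :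
    thetaL i (F * G) = F * thetaL i G + thetaL i F * G := by
  induction F using AddMonoidAlgebra.induction_linear with
  | zero => rw [zero_mul, thetaL_zero, zero_mul, zero_mul, add_zero]
  | add F F' h1 h2 => rw [add_mul, thetaL_add, h1, h2, thetaL_add]; ring
  | single m c =>
    induction G using AddMonoidAlgebra.induction_linear with
    | zero => rw [mul_zero, thetaL_zero, mul_zero, mul_zero, add_zero]
    | add G G' h1 h2 => rw [mul_add, thetaL_add, h1, h2, thetaL_add]; ring
    | single m' c' =>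
      rw [AddMonoidAlgebra.single_mul_single, thetaL_single, thetaL_single, thetaL_single,
        AddMonoidAlgebra.single_mul_single, AddMonoidAlgebra.single_mul_single,
        ← AddMonoidAlgebra.single_add]
      congr 1
      rw [Pi.add_apply]
      push_cast
      ring

lemma support_thetaL_subset (i : Fin n) (F : Laurent k n) :
    (thetaL i F).coeff.support ⊆ F.coeff.support := fun _ hm => thetaL_support i F hm

/-- if all logarithmic derivatives of `p` are divisible by `p` then `p` is a monomial -/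
lemma isUnit_of_dvd_thetaL [CharZero k] {p : Laurent k n} (hp : p ≠ 0)
    (h : ∀ i, p ∣ thetaL i p) : IsUnit p := by
  refine isUnit_of_support hp fun m hm m' hm' => ?_
  funext i
  obtain ⟨c, hc⟩ := h i
  by_cases hc0 : c = 0
  · rw [hc0, mul_zero] at hc
    have h1 : ∀ m ∈ p.coeff.support, m i = 0 := by
      intro m hm
      have h2 := thetaL_coeff i p m
      rw [hc, AddMonoidAlgebra.coeff_zero] at h2
      have h3 := (mul_eq_zero.1 h2.symm).resolve_left (Finsupp.mem_support_iff.1 hm)
      exact_mod_cast h3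
    rw [h1 m hm, h1 m' hm']
  · have hθ : thetaL i p ≠ 0 := by rw [hc]; exact mul_ne_zero hp hc0
    have hw : ∀ w : Fin n → ℤ, 0 ≤ minWt w c := by
      intro w
      have h1 : minWt w (thetaL i p) = minWt w p + minWt w c := by rw [hc, minWt_mul w hp hc0]
      obtain ⟨m, hm, hmw⟩ := (minWt_spec w hθ).1
      have h2 := minWt_le (w := w) (thetaL_support i p hm)
      omega
    have hc1 : ∀ m ∈ c.coeff.support, m = 0 := by
      intro m hm
      refine dot_ext fun w => ?_
      rw [zero_dotProduct]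
      have h1 := minWt_le (w := w) hm
      have h2 := minWt_le (w := -w) hm
      have h3 := hw w
      have h4 := hw (-w)
      rw [dotProduct_neg] at h2
      omega
    have hc2 : c = AddMonoidAlgebra.single 0 (c.coeff 0) := by
      classical
      apply AddMonoidAlgebra.coeff_injective
      ext m
      rw [AddMonoidAlgebra.coeff_single, Finsupp.single_apply]
      split_ifs with h2
      · rw [h2]
      · by_contra h3
        exact h2 (hc1 m (Finsupp.mem_support_iff.2 h3)).symm
    have h1 : ∀ m ∈ p.coeff.support, (m i : k) = c.coeff 0 := by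
      intro m hm
      have h2 := thetaL_coeff i p m
      have h3 : (p * c).coeff m = p.coeff m * c.coeff 0 := by
        rw [hc2, AddMonoidAlgebra.coeff_mul_single_zero, AddMonoidAlgebra.coeff_single]
        simp
      rw [hc, h3] at h2
      exact (mul_left_cancel₀ (Finsupp.mem_support_iff.1 hm) h2).symm
    have h2 : (m i : k) = (m' i : k) := by rw [h1 m hm, h1 m' hm']
    exact_mod_cast h2

/-! ### Nondegeneracy -/

lemma evalHom_thetaL_mul_eq_zero (P : Fin n → kˣ) (i : Fin n) {p q : Laurent k n}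
    (hp : evalHom P p = 0) : evalHom P (thetaL i (p * q)) = evalHom P (thetaL i p) * evalHom P q := by
  rw [thetaL_mul, map_add, map_mul, map_mul, hp, zero_mul, zero_add]

lemma exists_zero_of_not_isUnit [IsAlgClosed k] {p : Laurent k n} (hp : ¬ IsUnit p) :
    ∃ P : Fin n → kˣ, evalHom P p = 0 := by
  obtain ⟨P, hP⟩ := exists_point (Ideal.span {p}) (by
    rwa [Ne, Ideal.span_singleton_eq_top])
  exact ⟨P, by rw [evalHom_apply]; exact hP p (Ideal.subset_span rfl)⟩

lemma nondeg_sq [IsAlgClosed k] {J : Type} {w : Fin n → ℤ} {f : J → Laurent k n}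
    (h : NondegAt w f) (j : J) {p : Laurent k n} (hp : ¬ IsUnit p)
    (hdvd : p * p ∣ inForm w (f j)) : False := by
  obtain ⟨P, hP⟩ := exists_zero_of_not_isUnit hp
  obtain ⟨q, hq⟩ := hdvd
  have h0 : evalAt P (inForm w (f j)) = 0 := by
    rw [← evalHom_apply, hq, map_mul, map_mul, hP, zero_mul, zero_mul]
  refine (h P).ne_zero ⟨j, h0⟩ ?_
  funext i
  simp only [Pi.zero_apply]
  rw [← evalAt_thetaL, hq, mul_assoc, evalHom_thetaL_mul_eq_zero P i hP, map_mul, hP, zero_mul,
    mul_zero]

lemma nondeg_pair [IsAlgClosed k] {J : Type} {w : Fin n → ℤ} {f : J → Laurent k n}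
    (h : NondegAt w f) {j j' : J} (hj : j ≠ j') {p : Laurent k n} (hp : ¬ IsUnit p)
    (h1 : p ∣ inForm w (f j)) (h2 : p ∣ inForm w (f j')) : False := by
  obtain ⟨P, hP⟩ := exists_zero_of_not_isUnit hp
  obtain ⟨q, hq⟩ := h1
  obtain ⟨q', hq'⟩ := h2
  have h0 : evalAt P (inForm w (f j)) = 0 := by
    rw [← evalHom_apply, hq, map_mul, hP, zero_mul]
  have h0' : evalAt P (inForm w (f j')) = 0 := by
    rw [← evalHom_apply, hq', map_mul, hP, zero_mul]
  have hli := h P
  set a : {j : J // evalAt P (inForm w (f j)) = 0} := ⟨j, h0⟩ with ha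
  set b : {j : J // evalAt P (inForm w (f j)) = 0} := ⟨j', h0'⟩ with hb
  have hab : a ≠ b := fun h => hj (congrArg Subtype.val h)
  have e1 : ∀ i, logDerivAt P i (inForm w (f j)) = evalHom P (thetaL i p) * evalHom P q := by
    intro i
    rw [← evalAt_thetaL, hq, evalHom_thetaL_mul_eq_zero P i hP]
  have e2 : ∀ i, logDerivAt P i (inForm w (f j')) = evalHom P (thetaL i p) * evalHom P q' := by
    intro i
    rw [← evalAt_thetaL, hq', evalHom_thetaL_mul_eq_zero P i hP]
  classical
  have hsum := linearIndependent_iff'.1 hli {a, b}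
    (fun x => if x = a then evalHom P q' else -evalHom P q) (by
      rw [Finset.sum_pair hab, if_pos rfl, if_neg hab.symm]
      funext i
      simp only [Pi.add_apply, Pi.smul_apply, smul_eq_mul, Pi.zero_apply]
      rw [show logDerivAt P i (inForm w (f a.1)) = _ from e1 i,
        show logDerivAt P i (inForm w (f b.1)) = _ from e2 i]
      ring)
  have hb0 := hsum b (by simp)
  simp only [if_neg hab.symm] at hb0
  refine hli.ne_zero a ?_
  funext i
  simp only [Pi.zero_apply]
  rw [show logDerivAt P i (inForm w (f a.1)) = _ from e1 i, neg_eq_zero.1 hb0, mul_zero]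

end Pool.Agent.H50.Hyp
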