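import Mathlib
import Pool.Agent.H26.ToricTransfer
import Pool.Agent.H50.Hyp.Defs
import Pool.Agent.H50.Hyp.Theta

/-! # The residue form -/

open scoped BigOperators
open Pool.Agent.H26 KaehlerDifferential

namespace Pool.Agent.H50.Hyp

universe u v

variable {k : Type u} [Field k] {n : ℕ} {K : Type v} [Field K] [Algebra k K]

lemma dlog_monom {N : ℕ} {y : Fin N → K} (hy : ∀ i, y i ≠ 0) (m : Fin N → ℤ) :
    dlog k (monom y m) = ∑ l, (m l : K) • dlog k (y l) := by
  unfold monom
  rw [dlog_prod _ _ fun i _ => zpow_ne_zero _ (hy i)]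
  exact Finset.sum_congr rfl fun i _ => dlog_zpow (hy i) _

lemma coordHom_eq_sum {N : ℕ} {y : Fin N → K} (hy : ∀ i, y i ≠ 0) (F : Laurent k N) :
    coordHom k hy F = ∑ m ∈ F.coeff.support, algebraMap k K (F.coeff m) * monom y m := by
  rw [coordHom_apply]
  rfl

lemma D_coordHom {N : ℕ} {y : Fin N → K} (hy : ∀ i, y i ≠ 0) (F : Laurent k N) :
    D k K (coordHom k hy F) = ∑ l, coordHom k hy (thetaL l F) • dlog k (y l) := by
  induction F using AddMonoidAlgebra.induction_linear with
  | zero => simp [thetaL_zero]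
  | add F G h1 h2 =>
    rw [map_add, map_add, h1, h2, ← Finset.sum_add_distrib]
    refine Finset.sum_congr rfl fun l _ => ?_
    rw [thetaL_add, map_add, add_smul]
  | single m c =>
    rw [coordHom_single, Derivation.leibniz, Derivation.map_algebraMap, smul_zero, add_zero,
      D_eq_smul_dlog (monom_ne_zero hy m), dlog_monom hy, Finset.smul_sum, Finset.smul_sum]
    refine Finset.sum_congr rfl fun l _ => ?_
    rw [thetaL_single, coordHom_single, smul_smul, smul_smul]
    congr 1
    rw [map_mul, map_intCast]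
    ring

lemma coordHom_thetaL {N : ℕ} {y : Fin N → K} (hy : ∀ i, y i ≠ 0) (i : Fin N)
    (f : (Fin N → ℤ) →₀ k) :
    coordHom k hy (thetaL i (AddMonoidAlgebra.ofCoeff f)) = laurentPoly y (logDeriv i f) := by
  rw [coordHom_apply]
  congr 1
  unfold H26.logDeriv thetaL
  rw [AddMonoidAlgebra.coeff_sum]
  rfl

/-- combination of the logarithmic forms -/
noncomputable def lcomb (k : Type u) [Field k] [Algebra k K] {N : ℕ} (y : Fin N → K) :
    (Fin N → K) →ₗ[K] Ω[K⁄k] :=
  Fintype.linearCombination K fun l => dlog k (y l)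

lemma lcomb_apply {N : ℕ} (y : Fin N → K) (a : Fin N → K) :
    lcomb k y a = ∑ l, a l • dlog k (y l) := rfl

lemma det_cons_single {R : Type*} [CommRing R] (Θ : Fin (n + 1) → R) (i : Fin (n + 1)) :
    (Matrix.of (Fin.cons Θ fun j : Fin n => (Pi.single (i.succAbove j) (1 : R) :
      Fin (n + 1) → R) : Fin (n + 1) → Fin (n + 1) → R)).det = (-1) ^ (i : ℕ) * Θ i := by
  rw [Matrix.det_succ_column _ i, Fin.sum_univ_succ]
  have h1 : ∀ j : Fin n, (Matrix.of (Fin.cons Θ fun j : Fin n =>
      (Pi.single (i.succAbove j) (1 : R) : Fin (n + 1) → R) :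
        Fin (n + 1) → Fin (n + 1) → R)) j.succ i = 0 := by
    intro j
    simp only [Matrix.of_apply, Fin.cons_succ]
    rw [Pi.single_eq_of_ne (Fin.succAbove_ne i j).symm]
  have h2 : ((Matrix.of (Fin.cons Θ fun j : Fin n =>
      (Pi.single (i.succAbove j) (1 : R) : Fin (n + 1) → R) :
        Fin (n + 1) → Fin (n + 1) → R)).submatrix (Fin.succAbove 0) i.succAbove) = 1 := by
    ext a b
    rw [Matrix.submatrix_apply, Fin.zero_succAbove, Matrix.of_apply, Fin.cons_succ,
      Matrix.one_apply, Pi.single_apply]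
    congr 1
    rw [eq_iff_iff]
    constructor
    · intro h
      exact (Fin.succAbove_right_injective h).symm
    · intro h
      rw [h]
  rw [h2, Matrix.det_one]
  have h3 : ∑ j : Fin n, (-1 : R) ^ ((j.succ : ℕ) + (i : ℕ)) *
      (Matrix.of (Fin.cons Θ fun j : Fin n =>
      (Pi.single (i.succAbove j) (1 : R) : Fin (n + 1) → R) :
        Fin (n + 1) → Fin (n + 1) → R)) j.succ i *
      ((Matrix.of (Fin.cons Θ fun j : Fin n =>
      (Pi.single (i.succAbove j) (1 : R) : Fin (n + 1) → R) :
        Fin (n + 1) → Fin (n + 1) → R)).submatrix (Fin.succAbove j.succ) i.succAbove).det = 0 := by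
    refine Finset.sum_eq_zero fun j _ => ?_
    rw [h1, mul_zero, zero_mul]
  rw [h3]
  simp

lemma exists_succAbove_comp (v : Fin n → Fin (n + 1)) (hv : Function.Injective v) :
    ∃ (i : Fin (n + 1)) (σ : Equiv.Perm (Fin n)), v = i.succAbove ∘ σ := by
  obtain ⟨i, hi⟩ : ∃ i, ∀ j, v j ≠ i := by
    by_contra hcon
    push Not at hcon
    have h1 : Function.Surjective v := hcon
    have h2 := Fintype.card_le_of_surjective v h1
    simp at h2
  choose σ hσ using fun j => Fin.exists_succAbove_eq (hi j)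
  have hσi : Function.Injective σ := by
    intro a b hab
    apply hv
    rw [← hσ a, ← hσ b, hab]
  refine ⟨i, Equiv.ofBijective σ (Finite.injective_iff_bijective.1 hσi), ?_⟩
  funext j
  exact (hσ j).symm

/-- **The residue formula** for arbitrary combinations of logarithmic forms. -/
theorem residue_formula {ω : Module.Basis (Fin n) K (Ω[K⁄k])} {y : Fin (n + 1) → K}
    (hy : ∀ i, y i ≠ 0) {f : (Fin (n + 1) → ℤ) →₀ k} {h : K} (hres : IsResidue ω y f h)
    (a : Fin n → Fin (n + 1) → K) :
    ω.det (fun j => lcomb k y (a j)) =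
      h * (Matrix.of (Fin.cons (fun l => coordHom k hy (thetaL l (AddMonoidAlgebra.ofCoeff f))) a :
        Fin (n + 1) → Fin (n + 1) → K)).det := by
  set Θ : Fin (n + 1) → K := fun l => coordHom k hy (thetaL l (AddMonoidAlgebra.ofCoeff f)) with hΘ
  let L : (Fin (n + 1) → K) [⋀^Fin n]→ₗ[K] K := ω.det.compLinearMap (lcomb k y)
  let R : (Fin (n + 1) → K) [⋀^Fin n]→ₗ[K] K :=
    h • (AlternatingMap.curryLeft (Matrix.detRowAlternating (R := K) (n := Fin (n + 1))) Θ)
  have hR : ∀ a : Fin n → Fin (n + 1) → K, R a = h * (Matrix.of (Fin.cons Θ a :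
      Fin (n + 1) → Fin (n + 1) → K)).det := fun a => rfl
  have hL : ∀ a : Fin n → Fin (n + 1) → K, L a = ω.det (fun j => lcomb k y (a j)) := fun a => rfl
  rw [← hL, ← hR]
  suffices hLR : L = R by rw [hLR]
  refine Module.Basis.ext_alternating (Pi.basisFun K (Fin (n + 1))) fun v hv => ?_
  obtain ⟨i, σ, rfl⟩ := exists_succAbove_comp v hv
  have e1 : (fun j => (Pi.basisFun K (Fin (n + 1))) ((i.succAbove ∘ σ) j)) =
      (fun j => (Pi.basisFun K (Fin (n + 1))) (i.succAbove j)) ∘ σ := rfl
  rw [e1, L.map_perm, R.map_perm]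
  congr 1
  rw [hL, hR]
  simp_rw [Pi.basisFun_apply]
  rw [det_cons_single]
  have e2 : (fun j : Fin n => lcomb k y (Pi.single (i.succAbove j) 1)) =
      fun j => (y (i.succAbove j))⁻¹ • D k K (y (i.succAbove j)) := by
    funext j
    rw [lcomb_apply, Finset.sum_eq_single (i.succAbove j)]
    · rw [Pi.single_eq_same, one_smul]
      rfl
    · intro l _ hl
      rw [Pi.single_eq_of_ne hl, zero_smul]
    · simp
  rw [e2, hres.2 i, ← coordHom_thetaL hy]
  ring

end Pool.Agent.H50.Hyp
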