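import Mathlib
import Pool.Agent.H50.Hyp.Theta
import Pool.Agent.H50.Hyp.Dvr

/-! # Slices of Laurent polynomials and valuations on hypersurfaces -/

open scoped BigOperators
open Pool.Agent.H26

namespace Pool.Agent.H50.Hyp

universe u v

section slice

variable {k : Type u} [Field k] {n : ℕ} (E : (Fin (n + 1) → ℤ) ≃+ ℤ × (Fin n → ℤ))

/-- the coefficient of `T^c` -/
noncomputable def slice (c : ℤ) (F : Laurent k (n + 1)) : Laurent k n :=
  (splitEquiv k E F).coeff c

lemma splitEquiv_single (m : Fin (n + 1) → ℤ) (x : k) :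
    splitEquiv k E (AddMonoidAlgebra.single m x) =
      AddMonoidAlgebra.single (E m).1 (AddMonoidAlgebra.single (E m).2 x) := by
  unfold splitEquiv
  rw [AlgEquiv.trans_apply, AddMonoidAlgebra.domCongr_single]
  exact AddMonoidAlgebra.curryAlgEquiv_single (E m).1 (E m).2 x

lemma slice_add (c : ℤ) (F G : Laurent k (n + 1)) :
    slice E c (F + G) = slice E c F + slice E c G := by
  unfold slice
  rw [map_add, AddMonoidAlgebra.coeff_add]
  rfl

lemma slice_zero (c : ℤ) : slice E c (0 : Laurent k (n + 1)) = 0 := by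
  unfold slice
  rw [map_zero, AddMonoidAlgebra.coeff_zero]
  rfl

lemma slice_single (c : ℤ) (m : Fin (n + 1) → ℤ) (x : k) :
    slice E c (AddMonoidAlgebra.single m x) =
      if (E m).1 = c then AddMonoidAlgebra.single (E m).2 x else 0 := by
  classical
  unfold slice
  rw [splitEquiv_single, AddMonoidAlgebra.coeff_single, Finsupp.single_apply]

lemma slice_coeff (c : ℤ) (F : Laurent k (n + 1)) (a : Fin n → ℤ) :
    (slice E c F).coeff a = F.coeff (E.symm (c, a)) := by
  classical
  induction F using AddMonoidAlgebra.induction_linear with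
  | zero => rw [slice_zero, AddMonoidAlgebra.coeff_zero, AddMonoidAlgebra.coeff_zero]; rfl
  | add F G h1 h2 =>
    rw [slice_add, AddMonoidAlgebra.coeff_add, AddMonoidAlgebra.coeff_add, Finsupp.add_apply,
      Finsupp.add_apply, h1, h2]
  | single m x =>
    rw [slice_single]
    split_ifs with h
    · rw [AddMonoidAlgebra.coeff_single, AddMonoidAlgebra.coeff_single, Finsupp.single_apply,
        Finsupp.single_apply]
      congr 1
      rw [eq_iff_iff]
      constructor
      · intro h1
        rw [← h, ← h1]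
        exact (E.symm_apply_apply m).symm
      · intro h1
        rw [h1, E.apply_symm_apply]
    · rw [AddMonoidAlgebra.coeff_zero, AddMonoidAlgebra.coeff_single, Finsupp.single_apply, if_neg]
      · rfl
      · intro h1
        apply h
        rw [h1, E.apply_symm_apply]

lemma mem_slice_support {c : ℤ} {F : Laurent k (n + 1)} {a : Fin n → ℤ} :
    a ∈ (slice E c F).coeff.support ↔ E.symm (c, a) ∈ F.coeff.support := by
  rw [Finsupp.mem_support_iff, Finsupp.mem_support_iff, slice_coeff]

end slice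

section laurent

variable {R : Type u} [CommRing R]

open LaurentPolynomial Polynomial

/-- Laurent polynomials without negative exponents are polynomials -/
lemma exists_toLaurent (G : R[T;T⁻¹]) (c : ℤ) (hG : ∀ m ∈ G.coeff.support, c ≤ m) :
    ∃ p : R[X], G = toLaurent p * T c ∧ p.coeff 0 = G.coeff c := by
  classical
  refine ⟨∑ m ∈ G.coeff.support, Polynomial.C (G.coeff m) * Polynomial.X ^ (m - c).toNat, ?_, ?_⟩
  · rw [map_sum, Finset.sum_mul]
    conv_lhs => rw [← AddMonoidAlgebra.sum_coeff_single G]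
    rw [Finsupp.sum]
    refine Finset.sum_congr rfl fun m hm => ?_
    rw [toLaurent_C_mul_X_pow, mul_assoc, ← T_add, Int.toNat_of_nonneg (by have := hG m hm; omega),
      sub_add_cancel]
    exact single_eq_C_mul_T _ _
  · rw [finsetSum_coeff]
    simp_rw [coeff_C_mul, coeff_X_pow]
    by_cases hc : c ∈ G.coeff.support
    · rw [Finset.sum_eq_single_of_mem c hc]
      · simp
      · intro m hm hmc
        rw [if_neg, mul_zero]
        have := hG m hm
        omega
    · rw [Finsupp.notMem_support_iff.1 hc]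
      refine Finset.sum_eq_zero fun m hm => ?_
      rw [if_neg, mul_zero]
      have := hG m hm
      have : m ≠ c := by rintro rfl; exact hc hm
      omega

lemma dvd_of_toLaurent_dvd [IsDomain R] {p q : R[X]} (hp : p.coeff 0 ≠ 0)
    (h : toLaurent p ∣ toLaurent q) : p ∣ q := by
  obtain ⟨Q, hQ⟩ := h
  obtain ⟨N, q', hq'⟩ := exists_T_pow Q
  have h1 : q * X ^ N = p * q' := by
    apply toLaurent_injective
    rw [map_mul, map_mul, hq', hQ, toLaurent_X_pow]
    ring
  have h2 : (X : R[X]) ^ N ∣ p * q' := ⟨q, by rw [← h1]; ring⟩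
  have h3 : ¬ (X : R[X]) ∣ p := by rwa [X_dvd_iff]
  obtain ⟨r, hr⟩ := prime_X.pow_dvd_of_dvd_mul_left N h3 h2
  refine ⟨r, ?_⟩
  rw [hr] at h1
  have h4 : (X : R[X]) ^ N ≠ 0 := pow_ne_zero _ X_ne_zero
  apply mul_left_cancel₀ h4
  linear_combination h1

end laurent

section dval

variable {k : Type u} [Field k] {n : ℕ} {K : Type v} [Field K] [Algebra k K]

open LaurentPolynomial

instance : IsNoetherianRing (Laurent k n) := Algebra.FiniteType.isNoetherianRing k _

lemma splitEquiv_symm_T (E : (Fin (n + 1) → ℤ) ≃+ ℤ × (Fin n → ℤ)) (c : ℤ) :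
    (splitEquiv k E).symm (T c) = AddMonoidAlgebra.single (E.symm (c, 0)) 1 := by
  rw [AlgEquiv.symm_apply_eq, splitEquiv_single, E.apply_symm_apply]
  rfl

lemma splitEquiv_symm_C_single (E : (Fin (n + 1) → ℤ) ≃+ ℤ × (Fin n → ℤ)) (a : Fin n → ℤ)
    (x : k) : (splitEquiv k E).symm (C (AddMonoidAlgebra.single a x)) =
      AddMonoidAlgebra.single (E.symm (0, a)) x := by
  rw [AlgEquiv.symm_apply_eq, splitEquiv_single, E.apply_symm_apply]
  rfl

/-- **Existence of valuations on a hypersurface.** -/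
theorem exists_dval_split (E : (Fin (n + 1) → ℤ) ≃+ ℤ × (Fin n → ℤ))
    (ev : Laurent k (n + 1) →ₐ[k] K) {f : Laurent k (n + 1)}
    (hker : ∀ F, ev F = 0 ↔ f ∣ F) (hfrac : ∀ x : K, ∃ F G, ev G ≠ 0 ∧ x * ev G = ev F)
    {μ : ℤ} (hμ : ∀ m ∈ f.coeff.support, μ ≤ (E m).1) {g1 g2 : Laurent k n} (hg1 : Prime g1)
    (hg : slice E μ f = g1 * g2) (hg2 : ¬ g1 ∣ g2) :
    ∃ v : DVal k K,
      (∀ (F : Laurent k (n + 1)) (c : ℤ), (∀ m ∈ F.coeff.support, c ≤ (E m).1) →
        (c : WithTop ℤ) ≤ v.ord (ev F) ∧ ((c : WithTop ℤ) < v.ord (ev F) ↔ g1 ∣ slice E c F)) ∧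
      ∀ x, 0 ≤ v.ord x → ∃ F G : Laurent k (n + 1), (∀ m ∈ F.coeff.support, 0 ≤ (E m).1) ∧
        (∀ m ∈ G.coeff.support, 0 ≤ (E m).1) ∧ ¬ g1 ∣ slice E 0 G ∧ x * ev G = ev F := by
  classical
  let Λ := splitEquiv k E
  let ι : Polynomial (Laurent k n) →ₐ[k] LaurentPolynomial (Laurent k n) :=
    (Polynomial.toLaurentAlg (R := Laurent k n)).restrictScalars k
  have hι : ∀ p, ι p = Polynomial.toLaurent p := fun p => rfl
  let ε : Polynomial (Laurent k n) →ₐ[k] K := (ev.comp Λ.symm.toAlgHom).comp ι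
  have hε : ∀ p, ε p = ev (Λ.symm (Polynomial.toLaurent p)) := fun p => rfl
  have hsupp : ∀ (F : Laurent k (n + 1)) (c : ℤ), (∀ m ∈ F.coeff.support, c ≤ (E m).1) →
      ∀ m ∈ (Λ F).coeff.support, c ≤ m := by
    intro F c hF m hm
    rw [Finsupp.mem_support_iff] at hm
    have h1 : slice E m F ≠ 0 := hm
    obtain ⟨a, ha⟩ := ne_zero_iff_support.1 h1
    have h2 := hF _ (mem_slice_support E |>.1 ha)
    rwa [E.apply_symm_apply] at h2
  obtain ⟨fh, hfh, hfh0⟩ := exists_toLaurent (Λ f) μ (hsupp f μ hμ)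
  have hfh0' : fh.coeff 0 = g1 * g2 := by rw [hfh0]; exact hg
  have hg20 : g2 ≠ 0 := by
    rintro rfl
    exact hg2 (dvd_zero _)
  have hkerε : ∀ p, ε p = 0 ↔ fh ∣ p := by
    intro p
    rw [hε, hker]
    have h1 : f ∣ Λ.symm (Polynomial.toLaurent p) ↔ Λ f ∣ Polynomial.toLaurent p := by
      rw [← map_dvd_iff Λ, AlgEquiv.apply_symm_apply]
    rw [h1, hfh, (isUnit_T μ).mul_right_dvd]
    constructor
    · exact dvd_of_toLaurent_dvd (by rw [hfh0']; exact mul_ne_zero hg1.ne_zero hg20)
    · exact fun h => map_dvd _ h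
  -- evaluation of Laurent polynomials in terms of `ε`
  have hX : ε Polynomial.X = ev (AddMonoidAlgebra.single (E.symm (1, 0)) 1) := by
    rw [hε, Polynomial.toLaurent_X]
    congr 1
    exact splitEquiv_symm_T E 1
  have hTne : ev (Λ.symm (T 1)) ≠ 0 := by
    intro h
    have h1 : ev (Λ.symm (T 1)) * ev (Λ.symm (T (-1))) = 1 := by
      rw [← map_mul, ← map_mul, ← T_add, add_neg_cancel, T_zero, map_one, map_one]
    rw [h, zero_mul] at h1
    exact zero_ne_one h1
  have hT : ∀ c : ℤ, ev (Λ.symm (T c)) = ev (Λ.symm (T 1)) ^ c := by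
    let φ : Multiplicative ℤ →* K :=
      { toFun := fun c => ev (Λ.symm (T (Multiplicative.toAdd c)))
        map_one' := by rw [toAdd_one, T_zero, map_one, map_one]
        map_mul' := fun a b => by rw [toAdd_mul, T_add, map_mul, map_mul] }
    intro c
    have h1 : (Multiplicative.ofAdd (1 : ℤ)) ^ c = Multiplicative.ofAdd c := by
      rw [← ofAdd_zsmul]; simp
    have h2 := map_zpow φ (Multiplicative.ofAdd (1 : ℤ)) c
    rw [h1] at h2
    exact h2
  have hdec : ∀ (F : Laurent k (n + 1)) (c : ℤ), (∀ m ∈ F.coeff.support, c ≤ (E m).1) →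
      ∃ p, ev F = ε p * ev (Λ.symm (T 1)) ^ c ∧ p.coeff 0 = slice E c F := by
    intro F c hF
    obtain ⟨p, hp, hp0⟩ := exists_toLaurent (Λ F) c (hsupp F c hF)
    refine ⟨p, ?_, hp0⟩
    rw [← hT, hε, ← map_mul, ← map_mul, ← hp, AlgEquiv.symm_apply_apply]
  have hKε : ∀ x : K, ∃ p q, ε q ≠ 0 ∧ x * ε q = ε p := by
    intro x
    obtain ⟨F, G, hG, hx⟩ := hfrac x
    obtain ⟨c, hcF, hcG⟩ : ∃ c : ℤ, (∀ m ∈ F.coeff.support, c ≤ (E m).1) ∧
        ∀ m ∈ G.coeff.support, c ≤ (E m).1 := by
      refine ⟨-∑ m ∈ F.coeff.support ∪ G.coeff.support, |(E m).1|, fun m hm => ?_, fun m hm => ?_⟩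
      · have := Finset.single_le_sum (f := fun m => |(E m).1|) (fun _ _ => abs_nonneg _)
          (Finset.mem_union_left G.coeff.support hm)
        have h2 := neg_abs_le (E m).1
        linarith
      · have := Finset.single_le_sum (f := fun m => |(E m).1|) (fun _ _ => abs_nonneg _)
          (Finset.mem_union_right F.coeff.support hm)
        have h2 := neg_abs_le (E m).1
        linarith
    obtain ⟨p, hp, _⟩ := hdec F c hcF
    obtain ⟨q, hq, _⟩ := hdec G c hcG
    refine ⟨p, q, ?_, ?_⟩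
    · intro h
      rw [h, zero_mul] at hq
      exact hG hq
    · have h1 : ev (Λ.symm (T 1)) ^ c ≠ 0 := zpow_ne_zero _ hTne
      apply mul_right_cancel₀ h1
      rw [mul_assoc, ← hq, ← hp, hx]
  obtain ⟨v, hv1, hv2, hv3, hv4⟩ := exists_dval ε fh hkerε hKε hfh0' hg1 hg2
  have hord : ∀ c : ℤ, v.ord (ev (Λ.symm (T 1)) ^ c) = (c : WithTop ℤ) := by
    intro c
    rw [v.ord_eq_val (zpow_ne_zero _ hTne), v.val_zpow hTne]
    have h1 : ε Polynomial.X = ev (Λ.symm (T 1)) := by rw [hε, Polynomial.toLaurent_X]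
    rw [h1] at hv1
    have h2 := (v.ord_eq_iff (z := 1)).1 (by exact_mod_cast hv1)
    rw [h2.2, mul_one]
  refine ⟨v, fun F c hF => ?_, fun x hx => ?_⟩
  · obtain ⟨p, hp, hp0⟩ := hdec F c hF
    rw [← hp0, ← hv3, hp, v.ord.map_mul, hord]
    have h1 := hv2 p
    constructor
    · exact le_add_of_nonneg_left h1
    · constructor
      · intro h
        by_contra hcon
        have h2 : v.ord (ε p) = 0 := le_antisymm (not_lt.1 hcon) h1
        rw [h2, zero_add] at h
        exact lt_irrefl _ h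
      · intro h
        calc (c : WithTop ℤ) = 0 + (c : WithTop ℤ) := (zero_add _).symm
          _ < v.ord (ε p) + (c : WithTop ℤ) := WithTop.add_lt_add_right WithTop.coe_ne_top h
  · obtain ⟨p, s, hs, hps⟩ := hv4 x hx
    have hnn : ∀ p : Polynomial (Laurent k n),
        ∀ m ∈ (Λ.symm (Polynomial.toLaurent p)).coeff.support, 0 ≤ (E m).1 := by
      intro p m hm
      by_contra hcon
      push Not at hcon
      have h1 : (slice E (E m).1 (Λ.symm (Polynomial.toLaurent p))).coeff (E m).2 ≠ 0 := by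
        rw [slice_coeff]
        have : E.symm ((E m).1, (E m).2) = m := E.symm_apply_apply m
        rw [this]
        exact Finsupp.mem_support_iff.1 hm
      apply h1
      have h2 : slice E (E m).1 (Λ.symm (Polynomial.toLaurent p)) = 0 := by
        unfold slice
        change (Λ (Λ.symm _)).coeff _ = 0
        rw [AlgEquiv.apply_symm_apply]
        by_contra h3
        have h4 := Finsupp.mem_support_iff.2 h3
        rw [support_coeff_toLaurent, Finset.mem_map] at h4
        obtain ⟨j, _, hj⟩ := h4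
        have : (j : ℤ) = (E m).1 := hj
        omega
      rw [h2, AddMonoidAlgebra.coeff_zero]
      rfl
    refine ⟨Λ.symm (Polynomial.toLaurent p), Λ.symm (Polynomial.toLaurent s), hnn p, hnn s, ?_, ?_⟩
    · have h1 : slice E 0 (Λ.symm (Polynomial.toLaurent s)) = s.coeff 0 := by
        unfold slice
        change (Λ (Λ.symm _)).coeff _ = _
        rw [AlgEquiv.apply_symm_apply]
        obtain ⟨s', hs', hs'0⟩ := exists_toLaurent (Polynomial.toLaurent s) 0 (by
          intro m hm
          rw [support_coeff_toLaurent, Finset.mem_map] at hm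
          obtain ⟨j, _, hj⟩ := hm
          have : (j : ℤ) = m := hj
          omega)
        rw [T_zero, mul_one] at hs'
        rw [← hs'0, Polynomial.toLaurent_injective hs']
      rw [h1]
      exact hs
    · rw [← hε, ← hε]
      exact hps

end dval

end Pool.Agent.H50.Hyp
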