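import Mathlib
import Pool.Agent.H50.Hyp.Split

/-! # Coordinates adapted to a primitive weight -/

open scoped BigOperators
open Pool.Agent.H26

namespace Pool.Agent.H50.Hyp

universe u v

section exist

/-- coordinates adapted to a primitive weight -/
theorem exists_adapted {n : ℕ} (w : Fin (n + 1) → ℤ) (hw : ∃ m : Fin (n + 1) → ℤ, m ⬝ᵥ w = 1) :
    ∃ E : (Fin (n + 1) → ℤ) ≃+ ℤ × (Fin n → ℤ), ∀ m, (E m).1 = m ⬝ᵥ w := by
  obtain ⟨m0, hm0⟩ := hw
  let π : (Fin (n + 1) → ℤ) →ₗ[ℤ] ℤ :=
    { toFun := fun m => m ⬝ᵥ w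
      map_add' := fun a b => add_dotProduct a b w
      map_smul' := fun c a => by rw [smul_dotProduct]; rfl }
  have hπ : ∀ m, π m = m ⬝ᵥ w := fun _ => rfl
  let e : (Fin (n + 1) → ℤ) ≃ₗ[ℤ] ℤ × LinearMap.ker π :=
    { toFun := fun m => (π m, ⟨m - π m • m0, by
        rw [LinearMap.mem_ker, map_sub, map_smul, hπ m0, hm0]; simp⟩)
      map_add' := fun a b => by
        ext
        · simp
        · simp only [map_add, add_smul, Prod.snd_add, Submodule.coe_add]
          simp
          ring
      map_smul' := fun c a => by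
        apply Prod.ext
        · exact map_smul π c a
        · apply Subtype.ext
          change c • a - π (c • a) • m0 = c • (a - π a • m0)
          rw [map_smul, smul_sub, smul_assoc]
      invFun := fun x => x.1 • m0 + x.2
      left_inv := fun m => by simp
      right_inv := fun x => by
        have h2 : π (x.2 : Fin (n + 1) → ℤ) = 0 := x.2.2
        have h1 : π (x.1 • m0 + (x.2 : Fin (n + 1) → ℤ)) = x.1 := by
          rw [map_add, map_smul, hπ m0, hm0, h2]; simp
        apply Prod.ext
        · exact h1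
        · apply Subtype.ext
          change x.1 • m0 + (x.2 : Fin (n + 1) → ℤ) - π (x.1 • m0 + (x.2 : Fin (n + 1) → ℤ)) • m0 = x.2
          rw [h1]
          simp }
  have hfr : Module.finrank ℤ (LinearMap.ker π) = n := by
    have h1 := e.finrank_eq
    rw [Module.finrank_prod, Module.finrank_self, Module.finrank_fin_fun] at h1
    omega
  let b := Module.finBasisOfFinrankEq ℤ (LinearMap.ker π) hfr
  let E : (Fin (n + 1) → ℤ) ≃ₗ[ℤ] ℤ × (Fin n → ℤ) :=
    e.trans (LinearEquiv.prodCongr (LinearEquiv.refl ℤ ℤ) b.equivFun)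
  exact ⟨E.toAddEquiv, fun m => rfl⟩

end exist

section mat

variable {n : ℕ} (E : (Fin (n + 1) → ℤ) ≃+ ℤ × (Fin n → ℤ))

/-- the adapted basis -/
def bvec : Fin (n + 1) → Fin (n + 1) → ℤ :=
  Fin.cons (E.symm (1, 0)) fun j => E.symm (0, Pi.single j 1)

/-- the coordinates in the adapted basis -/
def crd (m : Fin (n + 1) → ℤ) : Fin (n + 1) → ℤ := Fin.cons (E m).1 (E m).2

lemma sum_crd_smul (m : Fin (n + 1) → ℤ) : ∑ l, crd E m l • bvec E l = m := by
  rw [Fin.sum_univ_succ]
  simp only [crd, bvec, Fin.cons_zero, Fin.cons_succ]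
  apply E.injective
  rw [map_add, map_sum, map_zsmul, E.apply_symm_apply]
  simp_rw [map_zsmul, E.apply_symm_apply]
  apply Prod.ext
  · rw [Prod.fst_add, Prod.fst_sum]
    simp
  · rw [Prod.snd_add, Prod.snd_sum]
    funext j
    simp [Finset.sum_apply, Pi.single_apply]

lemma det_bvec_ne_zero : (Matrix.of (bvec E)).det ≠ 0 := by
  intro hdet
  obtain ⟨v, hv0, hv⟩ := Matrix.exists_mulVec_eq_zero_iff.2 hdet
  have hrow : ∀ j, bvec E j ⬝ᵥ v = 0 := fun j => congrFun hv j
  apply hv0
  have h1 : ∀ m : Fin (n + 1) → ℤ, m ⬝ᵥ v = 0 := by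
    intro m
    rw [← sum_crd_smul E m, sum_dotProduct]
    refine Finset.sum_eq_zero fun j _ => ?_
    rw [smul_dotProduct, hrow, smul_zero]
  funext i
  have := h1 (Pi.single i 1)
  simpa using this

/-- replace one vector of the adapted basis (not the first one) by the first one -/
lemma det_swap {R : Type*} [CommRing R] (A : Fin (n + 1) → Fin (n + 1) → R) (i : Fin n) :
    (Matrix.of (Fin.cons (A i.succ) fun j : Fin n => if j = i then A 0 else A j.succ)).det =
      -(Matrix.of A).det := by
  have h1 : (Matrix.of (Fin.cons (A i.succ) fun j : Fin n => if j = i then A 0 else A j.succ) :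
      Matrix (Fin (n + 1)) (Fin (n + 1)) R) = (Matrix.of A).submatrix (Equiv.swap 0 i.succ) id := by
    ext a b
    refine Fin.cases ?_ (fun j => ?_) a
    · simp [Equiv.swap_apply_left]
    · simp only [Matrix.of_apply, Fin.cons_succ, Matrix.submatrix_apply, id_eq]
      split_ifs with h
      · subst h
        rw [Equiv.swap_apply_right]
      · rw [Equiv.swap_apply_of_ne_of_ne (Fin.succ_ne_zero j)]
        intro h2
        exact h (Fin.succ_injective _ h2)
  rw [h1, Matrix.det_permute, Equiv.Perm.sign_swap (Fin.succ_ne_zero i).symm]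
  simp

end mat

end Pool.Agent.H50.Hyp
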