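import Mathlib
import Pool.Agent.H50.Hyp.Residue
import Pool.Agent.H50.Hyp.Unimod

/-! # The order of the residue form along the valuations on a hypersurface -/

open scoped BigOperators
open Pool.Agent.H26 KaehlerDifferential

namespace Pool.Agent.H50.Hyp

universe u v

section general

variable {k : Type u} [Field k] {n : ℕ} {K : Type v} [Field K] [Algebra k K]

/-- integral forms -/
def IntForm (v : DVal k K) (c : Fin n → K) (ξ : Ω[K⁄k]) : Prop :=
  ∃ β : Fin n → K, (∀ j, 0 ≤ v.ord (β j)) ∧ ξ = ∑ j, β j • D k K (c j)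

lemma IntForm.zero (v : DVal k K) (c : Fin n → K) : IntForm v c 0 :=
  ⟨0, fun j => by simp, by simp⟩

lemma IntForm.add {v : DVal k K} {c : Fin n → K} {ξ η : Ω[K⁄k]} (h1 : IntForm v c ξ)
    (h2 : IntForm v c η) : IntForm v c (ξ + η) := by
  obtain ⟨β, hβ, rfl⟩ := h1
  obtain ⟨γ, hγ, rfl⟩ := h2
  refine ⟨β + γ, fun j => v.ord.map_le_add (hβ j) (hγ j), ?_⟩
  rw [← Finset.sum_add_distrib]
  exact Finset.sum_congr rfl fun j _ => by rw [Pi.add_apply, add_smul]

lemma IntForm.smul {v : DVal k K} {c : Fin n → K} {ξ : Ω[K⁄k]} {x : K} (hx : 0 ≤ v.ord x)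
    (h1 : IntForm v c ξ) : IntForm v c (x • ξ) := by
  obtain ⟨β, hβ, rfl⟩ := h1
  refine ⟨fun j => x * β j, fun j => by rw [v.ord.map_mul]; exact add_nonneg hx (hβ j), ?_⟩
  rw [Finset.smul_sum]
  exact Finset.sum_congr rfl fun j _ => by rw [smul_smul]

lemma IntForm.sum {v : DVal k K} {c : Fin n → K} {ι : Type*} (s : Finset ι) {ξ : ι → Ω[K⁄k]}
    (h : ∀ i ∈ s, IntForm v c (ξ i)) : IntForm v c (∑ i ∈ s, ξ i) := by
  classical
  induction s using Finset.induction_on with
  | empty => simpa using IntForm.zero v c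
  | insert a s ha ih =>
    rw [Finset.sum_insert ha]
    exact (h a (Finset.mem_insert_self _ _)).add
      (ih fun i hi => h i (Finset.mem_insert_of_mem hi))

lemma IntForm.gen (v : DVal k K) (c : Fin n → K) (j : Fin n) : IntForm v c (D k K (c j)) := by
  classical
  refine ⟨Pi.single j 1, fun l => ?_, ?_⟩
  · by_cases h : l = j
    · subst h; simp
    · simp [Pi.single_eq_of_ne h]
  · rw [Finset.sum_eq_single j]
    · simp
    · intro l _ hl
      simp [Pi.single_eq_of_ne hl]
    · simp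

lemma ord_det_nonneg {v : AddValuation K (WithTop ℤ)} (M : Matrix (Fin n) (Fin n) K)
    (h : ∀ i j, 0 ≤ v (M i j)) : 0 ≤ v M.det := by
  rw [Matrix.det_apply]
  refine v.map_le_sum fun σ _ => ?_
  have h2 : v (Equiv.Perm.sign σ • ∏ i, M (σ i) i) = v (∏ i, M (σ i) i) := by
    rcases Int.units_eq_one_or (Equiv.Perm.sign σ) with h | h <;> rw [h]
    · simp
    · simp
  rw [h2]
  have h3 : ∀ s : Finset (Fin n), 0 ≤ v (∏ x ∈ s, M (σ x) x) := by
    intro s
    induction s using Finset.induction_on with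
    | empty => simp
    | insert a s ha ih =>
      rw [Finset.prod_insert ha, v.map_mul]
      exact add_nonneg (h _ _) ih
  exact h3 _

/-- a top form of exact order -/
theorem FormOrd_of_stable (v : DVal k K) (ω : Module.Basis (Fin n) K (Ω[K⁄k])) (c : Fin n → K)
    (hc : ∀ j, 0 ≤ v.ord (c j)) (hdet : ω.det (fun j => D k K (c j)) ≠ 0)
    (hst : ∀ x, 0 ≤ v.ord x → IntForm v c (D k K x)) :
    v.FormOrd ω (-(v.val (ω.det fun j => D k K (c j)))) := by
  classical
  have hb := (Module.Basis.is_basis_iff_det ω (v := fun j => D k K (c j))).2 (isUnit_iff_ne_zero.2 hdet)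
  let ω' : Module.Basis (Fin n) K (Ω[K⁄k]) := Module.Basis.mk hb.1 hb.2.ge
  have hω' : ∀ j, ω' j = D k K (c j) := fun j => by simp [ω']
  have hω'f : (⇑ω' : Fin n → Ω[K⁄k]) = fun j => D k K (c j) := funext hω'
  refine ⟨fun y hy => ?_, c, hc, ?_⟩
  · rw [neg_neg, det_change ω ω' (fun i => D k K (y i)), v.ord.map_mul, hω'f, v.ord_eq_val hdet]
    refine le_add_of_nonneg_right ?_
    rw [Module.Basis.det_apply]
    refine ord_det_nonneg _ fun i j => ?_
    obtain ⟨β, hβ, hβ'⟩ := hst (y j) (hy j)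
    rw [Module.Basis.toMatrix_apply, hβ']
    simp_rw [← hω']
    rw [Module.Basis.repr_sum_self]
    exact hβ i
  · rw [neg_neg, v.ord_eq_val hdet]

end general

section hyp

variable {k : Type u} [Field k] {n : ℕ} {K : Type v} [Field K] [Algebra k K]
  (E : (Fin (n + 1) → ℤ) ≃+ ℤ × (Fin n → ℤ))

/-- logarithmic derivatives in adapted coordinates -/
noncomputable def thC (r : Fin (n + 1)) (F : Laurent k (n + 1)) : Laurent k (n + 1) :=
  ∑ m ∈ F.coeff.support, AddMonoidAlgebra.single m (F.coeff m * (crd E m r : k))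

lemma thC_coeff (r : Fin (n + 1)) (F : Laurent k (n + 1)) (m : Fin (n + 1) → ℤ) :
    (thC E r F).coeff m = F.coeff m * (crd E m r : k) := by
  classical
  unfold thC
  rw [AddMonoidAlgebra.coeff_sum, Finsupp.finsetSum_apply]
  simp_rw [AddMonoidAlgebra.coeff_single, Finsupp.single_apply]
  rw [Finset.sum_ite_eq']
  split_ifs with h
  · rfl
  · rw [Finsupp.notMem_support_iff.1 h, zero_mul]

lemma thC_support {r : Fin (n + 1)} {F : Laurent k (n + 1)} {m : Fin (n + 1) → ℤ}
    (hm : m ∈ (thC E r F).coeff.support) : m ∈ F.coeff.support := by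
  rw [Finsupp.mem_support_iff, thC_coeff] at hm
  rw [Finsupp.mem_support_iff]
  exact left_ne_zero_of_mul hm

lemma slice_thC_succ (c : ℤ) (j : Fin n) (F : Laurent k (n + 1)) :
    slice E c (thC E j.succ F) = thetaL j (slice E c F) := by
  apply AddMonoidAlgebra.coeff_injective
  ext a
  rw [slice_coeff, thC_coeff, thetaL_coeff, slice_coeff]
  simp only [crd, Fin.cons_succ, E.apply_symm_apply]

lemma slice_thC_zero (c : ℤ) (F : Laurent k (n + 1)) :
    slice E c (thC E 0 F) = (c : k) • slice E c F := by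
  apply AddMonoidAlgebra.coeff_injective
  ext a
  rw [slice_coeff, thC_coeff, AddMonoidAlgebra.coeff_smul, Finsupp.smul_apply, slice_coeff]
  simp only [crd, Fin.cons_zero, E.apply_symm_apply, smul_eq_mul]
  ring

lemma thetaL_eq_sum_thC (l : Fin (n + 1)) (F : Laurent k (n + 1)) :
    thetaL l F = ∑ r, (bvec E r l : k) • thC E r F := by
  apply AddMonoidAlgebra.coeff_injective
  ext m
  rw [thetaL_coeff, AddMonoidAlgebra.coeff_sum, Finsupp.finsetSum_apply]
  simp_rw [AddMonoidAlgebra.coeff_smul, Finsupp.smul_apply, thC_coeff, smul_eq_mul]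
  have h1 := congrFun (sum_crd_smul E m) l
  rw [Finset.sum_apply] at h1
  simp only [Pi.smul_apply, smul_eq_mul] at h1
  have h2 : (m l : k) = ∑ r, (crd E m r : k) * (bvec E r l : k) := by
    rw [← h1]
    push_cast
    rfl
  rw [h2, Finset.mul_sum]
  exact Finset.sum_congr rfl fun r _ => by ring

variable {y : Fin (n + 1) → K} (hy : ∀ i, y i ≠ 0)

lemma coordHom_thetaL_eq (l : Fin (n + 1)) (F : Laurent k (n + 1)) :
    coordHom k hy (thetaL l F) = ∑ r, coordHom k hy (thC E r F) * (bvec E r l : K) := by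
  rw [thetaL_eq_sum_thC E, map_sum]
  refine Finset.sum_congr rfl fun r _ => ?_
  rw [map_smul, Algebra.smul_def, map_intCast]
  ring

lemma D_coordHom_eq (F : Laurent k (n + 1)) :
    D k K (coordHom k hy F) =
      ∑ r, coordHom k hy (thC E r F) • dlog k (monom y (bvec E r)) := by
  rw [D_coordHom hy]
  simp_rw [coordHom_thetaL_eq E hy, dlog_monom hy, Finset.sum_smul, Finset.smul_sum]
  rw [Finset.sum_comm]
  refine Finset.sum_congr rfl fun r _ => Finset.sum_congr rfl fun l _ => ?_
  rw [smul_smul]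

end hyp

end Pool.Agent.H50.Hyp
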