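import Mathlib
import Pool.Agent.H50.Hyp.FormOrd

/-! # Existence of divisorial valuations on nondegenerate hypersurfaces -/

open scoped BigOperators
open Pool.Agent.H26 KaehlerDifferential

namespace Pool.Agent.H50.Hyp

universe u v

variable {k : Type u} [Field k] {n : ℕ} {K : Type v} [Field K] [Algebra k K]

lemma coordHom_single_one {N : ℕ} {y : Fin N → K} (hy : ∀ i, y i ≠ 0) (m : Fin N → ℤ) :
    coordHom k hy (AddMonoidAlgebra.single m 1) = monom y m := by
  rw [coordHom_single, map_one, one_mul]

lemma isUnit_single {m : Fin n → ℤ} : IsUnit (AddMonoidAlgebra.single m (1 : k) : Laurent k n) := by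
  refine IsUnit.of_mul_eq_one (AddMonoidAlgebra.single (-m) 1) ?_
  rw [AddMonoidAlgebra.single_mul_single, add_neg_cancel, one_mul]
  rfl

lemma support_single {m : Fin n → ℤ} {x : k} {m' : Fin n → ℤ}
    (h : m' ∈ (AddMonoidAlgebra.single m x : Laurent k n).coeff.support) : m' = m := by
  rw [AddMonoidAlgebra.coeff_single] at h
  have := Finsupp.support_single_subset h
  rwa [Finset.mem_singleton] at this

/-- a prime factor of multiplicity one has a logarithmic derivative direction -/
lemma exists_theta_not_dvd [CharZero k] {g1 g2 : Laurent k n} (hg1 : Prime g1) (hg2 : ¬ g1 ∣ g2) :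
    ∃ i, ¬ g1 ∣ thetaL i (g1 * g2) := by
  by_contra hcon
  push Not at hcon
  refine hg1.not_isUnit (isUnit_of_dvd_thetaL hg1.ne_zero fun i => ?_)
  have h1 := hcon i
  rw [thetaL_mul] at h1
  have h2 : g1 ∣ thetaL i g1 * g2 := (dvd_add_right (dvd_mul_right _ _)).1 h1
  exact (hg1.dvd_or_dvd h2).resolve_right hg2

lemma monom_smul {N : ℕ} {y : Fin N → K} (hy : ∀ i, y i ≠ 0) (c : ℤ) (m : Fin N → ℤ) :
    monom y (c • m) = monom y m ^ c := by
  have h := map_zpow (monomHom hy) (Multiplicative.ofAdd m) c
  simpa [monomHom] using h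

lemma monom_sum {N : ℕ} {y : Fin N → K} (hy : ∀ i, y i ≠ 0) {ι : Type*} (s : Finset ι)
    (f : ι → (Fin N → ℤ)) : monom y (∑ i ∈ s, f i) = ∏ i ∈ s, monom y (f i) := by
  classical
  induction s using Finset.induction_on with
  | empty => simp [monom_zero]
  | insert a s ha ih => rw [Finset.sum_insert ha, Finset.prod_insert ha, monom_add hy, ih]

lemma monom_symm_zero {y : Fin (n + 1) → K} (hy : ∀ i, y i ≠ 0)
    (E : (Fin (n + 1) → ℤ) ≃+ ℤ × (Fin n → ℤ)) (a : Fin n → ℤ) :
    monom y (E.symm (0, a)) = ∏ j, monom y (bvec E j.succ) ^ a j := by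
  have h1 := sum_crd_smul E (E.symm (0, a))
  rw [Fin.sum_univ_succ] at h1
  simp only [crd, Fin.cons_zero, Fin.cons_succ, E.apply_symm_apply, zero_smul, zero_add] at h1
  rw [← h1, monom_sum hy]
  exact Finset.prod_congr rfl fun j _ => monom_smul hy _ _

/-- algebraic independence modulo a prime factor -/
lemma not_dvd_of_degree_zero {g1 g2 Q : Laurent k n} {i : Fin n}
    (hi : ¬ g1 ∣ thetaL i (g1 * g2)) (hQ0 : Q ≠ 0) (hQ : ∀ m ∈ Q.coeff.support, m i = 0) :
    ¬ g1 ∣ Q := by
  rintro ⟨q, rfl⟩
  have hg0 : g1 ≠ 0 := left_ne_zero_of_mul hQ0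
  have hq0 : q ≠ 0 := right_ne_zero_of_mul hQ0
  have hzero : ∀ s : Fin n → ℤ, (∀ m : Fin n → ℤ, m i = 0 → m ⬝ᵥ s = 0) →
      minWt s (g1 * q) = 0 := by
    intro s hs
    obtain ⟨m, hm, hmw⟩ := (minWt_spec s hQ0).1
    rw [← hmw, hs m (hQ m hm)]
  have h1 := hzero (Pi.single i 1) (fun m hm => by rw [dotProduct_single_one, hm])
  have h2 := hzero (-Pi.single i 1) (fun m hm => by
    rw [dotProduct_neg, dotProduct_single_one, hm, neg_zero])
  rw [minWt_mul _ hg0 hq0] at h1 h2
  have h3 := minWt_add_neg_le (Pi.single i 1) hg0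
  have h4 := minWt_add_neg_le (Pi.single i 1) hq0
  have h5 : ∀ m ∈ g1.coeff.support, m i = minWt (Pi.single i 1) g1 := by
    intro m hm
    have := dot_eq_of_width (w := Pi.single i 1) (F := g1) (by omega) hm
    rwa [dotProduct_single_one] at this
  apply hi
  rw [thetaL_mul]
  refine dvd_add (dvd_mul_right _ _) (Dvd.dvd.mul_right ?_ _)
  refine ⟨algebraMap k _ ((minWt (Pi.single i 1) g1 : ℤ) : k), ?_⟩
  rw [mul_comm, ← Algebra.smul_def]
  apply AddMonoidAlgebra.coeff_injective
  ext m
  rw [thetaL_coeff, AddMonoidAlgebra.coeff_smul, Finsupp.smul_apply, smul_eq_mul]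
  by_cases hm : m ∈ g1.coeff.support
  · rw [h5 m hm]; ring
  · rw [Finsupp.notMem_support_iff.1 hm]; ring

/-- **Existence of divisorial valuations on a hypersurface.** -/
theorem exists_val [CharZero k] {y : Fin (n + 1) → K} (hy : ∀ i, y i ≠ 0)
    {f : (Fin (n + 1) → ℤ) →₀ k}
    (hker : ∀ G, coordHom k hy G = 0 ↔ (AddMonoidAlgebra.ofCoeff f : Laurent k (n + 1)) ∣ G)
    (hfrac : ∀ x : K, ∃ F G, coordHom k hy G ≠ 0 ∧ x * coordHom k hy G = coordHom k hy F)
    {ω : Module.Basis (Fin n) K (Ω[K⁄k])} {h : K} (hres : IsResidue ω y f h)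
    {w : Fin (n + 1) → ℤ} (E : (Fin (n + 1) → ℤ) ≃+ ℤ × (Fin n → ℤ))
    (hE : ∀ m, (E m).1 = m ⬝ᵥ w) {g1 : Laurent k n} (hg1 : Prime g1)
    (hdvd : g1 ∣ slice E (minWt w (AddMonoidAlgebra.ofCoeff f : Laurent k (n + 1)))
      (AddMonoidAlgebra.ofCoeff f))
    (hsq : ¬ g1 * g1 ∣ slice E (minWt w (AddMonoidAlgebra.ofCoeff f : Laurent k (n + 1)))
      (AddMonoidAlgebra.ofCoeff f)) :
    ∃ v : DVal k K, v.IsDivisorial n ∧ (∀ i, v.val (y i) = w i) ∧
      v.FormOrd ω (-(1 + minWt w (AddMonoidAlgebra.ofCoeff f : Laurent k (n + 1)) + v.val h)) ∧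
      ∀ (G : Laurent k (n + 1)) (c : ℤ), (∀ m ∈ G.coeff.support, c ≤ m ⬝ᵥ w) →
        (c : WithTop ℤ) ≤ v.ord (coordHom k hy G) ∧
        ((c : WithTop ℤ) < v.ord (coordHom k hy G) ↔ g1 ∣ slice E c G) := by
  classical
  set F : Laurent k (n + 1) := AddMonoidAlgebra.ofCoeff f with hF
  set μ := minWt w F with hμdef
  obtain ⟨g2, hg⟩ := hdvd
  have hg2 : ¬ g1 ∣ g2 := by
    intro h
    apply hsq
    rw [hg]
    exact mul_dvd_mul_left g1 h
  have hμ : ∀ m ∈ F.coeff.support, μ ≤ (E m).1 := fun m hm => by
    rw [hE]; exact minWt_le hm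
  obtain ⟨v, hv1, hv2⟩ := exists_dval_split E (coordHom k hy) hker hfrac hμ hg1 hg hg2
  have hmon : ∀ m, v.ord (monom y m) = (((E m).1 : ℤ) : WithTop ℤ) := by
    intro m
    have h1 := hv1 (AddMonoidAlgebra.single m 1) (E m).1 (fun m' hm' => by
      rw [support_single hm'])
    rw [coordHom_single_one] at h1
    refine le_antisymm (not_lt.1 fun h2 => ?_) h1.1
    have h3 := h1.2.1 h2
    rw [slice_single, if_pos rfl] at h3
    exact hg1.not_isUnit (isUnit_of_dvd_unit h3 isUnit_single)
  have hmon' : ∀ m, v.val (monom y m) = (E m).1 := fun m => (v.ord_eq_iff.1 (hmon m)).2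
  have hmon0 : ∀ m, monom y m ≠ 0 := fun m => monom_ne_zero hy m
  obtain ⟨i, hi⟩ := exists_theta_not_dvd hg1 hg2
  rw [← hg] at hi
  -- the orders of the logarithmic derivatives
  have hθ : ∀ r, ((μ : ℤ) : WithTop ℤ) ≤ v.ord (coordHom k hy (thC E r F)) := fun r =>
    (hv1 _ μ fun m hm => hμ m (thC_support E hm)).1
  have hθi : v.ord (coordHom k hy (thC E i.succ F)) = ((μ : ℤ) : WithTop ℤ) := by
    have h1 := (hv1 (thC E i.succ F) μ fun m hm => hμ m (thC_support E hm))
    refine le_antisymm (not_lt.1 fun h2 => ?_) h1.1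
    have h3 := h1.2.1 h2
    rw [slice_thC_succ] at h3
    exact hi h3
  have hθ0 : ((μ : ℤ) : WithTop ℤ) < v.ord (coordHom k hy (thC E 0 F)) := by
    have h1 : coordHom k hy (thC E 0 F) = coordHom k hy (thC E 0 F - (μ : k) • F) := by
      rw [map_sub, map_smul, (hker F).2 dvd_rfl, smul_zero, sub_zero]
    rw [h1]
    have h2 : ∀ m ∈ (thC E 0 F - (μ : k) • F).coeff.support, μ ≤ (E m).1 := by
      intro m hm
      apply hμ
      rw [Finsupp.mem_support_iff] at hm ⊢
      intro h3
      apply hm
      rw [AddMonoidAlgebra.coeff_sub, Finsupp.sub_apply, thC_coeff, AddMonoidAlgebra.coeff_smul,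
        Finsupp.smul_apply, h3]
      simp
    rw [(hv1 _ μ h2).2]
    have h3 : slice E μ (thC E 0 F - (μ : k) • F) = 0 := by
      apply AddMonoidAlgebra.coeff_injective
      ext a
      rw [slice_coeff, AddMonoidAlgebra.coeff_sub, Finsupp.sub_apply, thC_coeff,
        AddMonoidAlgebra.coeff_smul, Finsupp.smul_apply, AddMonoidAlgebra.coeff_zero]
      simp only [crd, Fin.cons_zero, E.apply_symm_apply, smul_eq_mul, Finsupp.zero_apply]
      ring
    rw [h3]
    exact dvd_zero _
  -- the coordinates
  set b : Fin (n + 1) → K := fun r => monom y (bvec E r) with hb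
  have hb0 : ∀ r, b r ≠ 0 := fun r => hmon0 _
  have hbt : v.val (b 0) = 1 := by
    rw [hb]
    simp only
    rw [hmon']
    simp [bvec]
  have hbz : ∀ j : Fin n, v.val (b j.succ) = 0 := by
    intro j
    rw [hb]
    simp only
    rw [hmon']
    simp [bvec]
  let c : Fin n → K := fun j => if j = i then b 0 else b j.succ
  have hc0 : ∀ j, c j ≠ 0 := by
    intro j
    simp only [c]
    split_ifs <;> exact hb0 _
  have hcval : ∀ j, v.val (c j) = if j = i then 1 else 0 := by
    intro j
    simp only [c]
    split_ifs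
    · exact hbt
    · exact hbz j
  have hcnn : ∀ j, 0 ≤ v.ord (c j) := by
    intro j
    rw [v.nonneg_ord_iff]
    right
    rw [hcval]
    split_ifs <;> norm_num
  -- integral forms
  have hIt : ∀ x : K, 1 ≤ v.ord x → IntForm v c (x • dlog k (b 0)) := by
    intro x hx
    have h1 : x • dlog k (b 0) = (x * (b 0)⁻¹) • D k K (c i) := by
      simp only [c, if_true]
      rw [dlog, smul_smul]
    rw [h1]
    refine IntForm.smul ?_ (IntForm.gen v c i)
    rw [v.ord.map_mul, v.ord_eq_val (inv_ne_zero (hb0 0)), v.val_inv (hb0 0), hbt]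
    calc (0 : WithTop ℤ) = 1 + ((-1 : ℤ) : WithTop ℤ) := by rfl
      _ ≤ _ := by gcongr
  have hIz : ∀ j : Fin n, j ≠ i → IntForm v c (dlog k (b j.succ)) := by
    intro j hj
    have h1 : dlog k (b j.succ) = (b j.succ)⁻¹ • D k K (c j) := by
      simp only [c, if_neg hj]
      rfl
    rw [h1]
    refine IntForm.smul ?_ (IntForm.gen v c j)
    rw [v.ord_eq_val (inv_ne_zero (hb0 _)), v.val_inv (hb0 _), hbz]
    exact le_rfl
  have hIzi : IntForm v c (dlog k (b i.succ)) := by
    have h0 := D_coordHom_eq E hy F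
    rw [(hker F).2 dvd_rfl, map_zero, Fin.sum_univ_succ] at h0
    rw [← Finset.add_sum_erase _ _ (Finset.mem_univ i)] at h0
    have hne : coordHom k hy (thC E i.succ F) ≠ 0 := by
      intro h
      rw [h, v.ord_zero] at hθi
      exact WithTop.top_ne_coe hθi
    have hvi : v.val (coordHom k hy (thC E i.succ F)) = μ := (v.ord_eq_iff.1 hθi).2
    have h1 : dlog k (b i.succ) =
        (-(coordHom k hy (thC E 0 F)) * (coordHom k hy (thC E i.succ F))⁻¹) • dlog k (b 0) +
        ∑ j ∈ Finset.univ.erase i, (-(coordHom k hy (thC E j.succ F)) *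
          (coordHom k hy (thC E i.succ F))⁻¹) • dlog k (b j.succ) := by
      have h2 : coordHom k hy (thC E i.succ F) • dlog k (b i.succ) =
          -(coordHom k hy (thC E 0 F) • dlog k (b 0)) -
          ∑ j ∈ Finset.univ.erase i, coordHom k hy (thC E j.succ F) • dlog k (b j.succ) := by
        rw [eq_comm, ← sub_eq_zero, ← neg_eq_zero]
        rw [h0]
        abel
      have h3 : dlog k (b i.succ) = (coordHom k hy (thC E i.succ F))⁻¹ •
          (coordHom k hy (thC E i.succ F) • dlog k (b i.succ)) := by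
        rw [smul_smul, inv_mul_cancel₀ hne, one_smul]
      rw [h3, h2, smul_sub, smul_neg, smul_smul, Finset.smul_sum, sub_eq_add_neg,
        ← Finset.sum_neg_distrib, ← neg_smul]
      congr 1
      · congr 1
        ring
      · refine Finset.sum_congr rfl fun j _ => ?_
        rw [smul_smul, ← neg_smul]
        congr 1
        ring
    rw [h1]
    refine IntForm.add (hIt _ ?_) (IntForm.sum _ fun j hj => ?_)
    · rw [v.ord.map_mul, v.ord.map_neg, v.ord_eq_val (inv_ne_zero hne), v.val_inv hne, hvi]
      have h4 : ((μ + 1 : ℤ) : WithTop ℤ) ≤ v.ord (coordHom k hy (thC E 0 F)) := by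
        revert hθ0
        generalize v.ord (coordHom k hy (thC E 0 F)) = a
        intro hθ0
        induction a using WithTop.recTopCoe with
        | top => exact le_top
        | coe a =>
          have : μ < a := by exact_mod_cast hθ0
          exact_mod_cast (by omega : μ + 1 ≤ a)
      calc (1 : WithTop ℤ) = ((μ + 1 : ℤ) : WithTop ℤ) + ((-μ : ℤ) : WithTop ℤ) := by
            rw [← WithTop.coe_add]
            have : μ + 1 + -μ = 1 := by ring
            rw [this]; rfl
        _ ≤ _ := by gcongr
    · refine IntForm.smul ?_ (hIz j (Finset.ne_of_mem_erase hj))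
      rw [v.ord.map_mul, v.ord.map_neg, v.ord_eq_val (inv_ne_zero hne), v.val_inv hne, hvi]
      calc (0 : WithTop ℤ) = ((μ : ℤ) : WithTop ℤ) + ((-μ : ℤ) : WithTop ℤ) := by
            rw [← WithTop.coe_add, add_neg_cancel]; rfl
        _ ≤ _ := by gcongr; exact hθ _
  have hIz' : ∀ j : Fin n, IntForm v c (dlog k (b j.succ)) := by
    intro j
    by_cases hj : j = i
    · rw [hj]; exact hIzi
    · exact hIz j hj
  have hID : ∀ G : Laurent k (n + 1), (∀ m ∈ G.coeff.support, 0 ≤ (E m).1) →
      IntForm v c (D k K (coordHom k hy G)) := by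
    intro G hG
    rw [D_coordHom_eq E hy, Fin.sum_univ_succ]
    refine IntForm.add (hIt _ ?_) (IntForm.sum _ fun j _ => IntForm.smul ?_ (hIz' j))
    · have h1 := (hv1 (thC E 0 G) 0 fun m hm => hG m (thC_support E hm)).2
      have h2 : (0 : WithTop ℤ) < v.ord (coordHom k hy (thC E 0 G)) := by
        refine h1.2 ?_
        rw [slice_thC_zero]
        simp
      exact one_le_of_pos h2
    · exact (hv1 (thC E j.succ G) 0 fun m hm => hG m (thC_support E hm)).1
  have hstable : ∀ x, 0 ≤ v.ord x → IntForm v c (D k K x) := by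
    intro x hx
    obtain ⟨G, H, hG, hH, hH0, hx'⟩ := hv2 x hx
    have hHord : v.ord (coordHom k hy H) = 0 := by
      have h1 := hv1 H 0 hH
      refine le_antisymm (not_lt.1 fun h2 => hH0 (h1.2.1 h2)) h1.1
    have hHne : coordHom k hy H ≠ 0 := by
      intro h
      rw [h, v.ord_zero] at hHord
      exact WithTop.top_ne_zero hHord
    have h1 : D k K x = (coordHom k hy H)⁻¹ •
        (D k K (coordHom k hy G) + (-x) • D k K (coordHom k hy H)) := by
      rw [← hx', Derivation.leibniz, neg_smul, smul_add, smul_add, smul_smul _ (coordHom k hy H),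
        inv_mul_cancel₀ hHne, one_smul, smul_neg]
      abel
    rw [h1]
    refine IntForm.smul ?_ (IntForm.add (hID G hG) (IntForm.smul ?_ (hID H hH)))
    · rw [v.ord_eq_val (inv_ne_zero hHne), v.val_inv hHne, (v.ord_eq_zero_iff.1 hHord).2]
      exact le_rfl
    · rw [v.ord.map_neg]; exact hx
  -- the determinant
  have hdet : ω.det (fun j => D k K (c j)) =
      (∏ j, c j) * (h * -((coordHom k hy (thC E i.succ F)) *
        (((Matrix.of (bvec E)).det : ℤ) : K))) := by
    let a : Fin n → Fin (n + 1) → K :=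
      fun j l => (((if j = i then bvec E 0 else bvec E j.succ) l : ℤ) : K)
    have h1 : (fun j => D k K (c j)) = fun j => c j • lcomb k y (a j) := by
      funext j
      rw [D_eq_smul_dlog (hc0 j)]
      congr 1
      have h2 : c j = monom y (if j = i then bvec E 0 else bvec E j.succ) := by
        simp only [c, hb]
        split_ifs <;> rfl
      rw [h2, dlog_monom hy, lcomb_apply]
    have h2 : ω.det (fun j => c j • lcomb k y (a j)) =
        (∏ j, c j) • ω.det (fun j => lcomb k y (a j)) :=
      (ω.det : AlternatingMap K (Ω[K⁄k]) K (Fin n)).toMultilinearMap.map_smul_univ c _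
    rw [h1, h2, smul_eq_mul, residue_formula hy hres]
    congr 2
    -- expand the first row
    let A : Fin (n + 1) → Fin (n + 1) → K := fun r l => ((bvec E r l : ℤ) : K)
    have hΘ : (fun l => coordHom k hy (thetaL l (AddMonoidAlgebra.ofCoeff f))) =
        ∑ r, coordHom k hy (thC E r F) • A r := by
      funext l
      rw [Finset.sum_apply]
      exact coordHom_thetaL_eq E hy l F
    have hdetA : (Matrix.of A).det = (((Matrix.of (bvec E)).det : ℤ) : K) := by
      have := (Int.castRingHom K).map_det (Matrix.of (bvec E))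
      exact this.symm
    have ha : a = fun j => if j = i then A 0 else A j.succ := by
      funext j l
      simp only [a, A]
      split_ifs <;> rfl
    have hcurry : ∀ x : Fin (n + 1) → K, (Matrix.of (Fin.cons x a :
        Fin (n + 1) → Fin (n + 1) → K)).det =
        (AlternatingMap.curryLeft (Matrix.detRowAlternating (R := K) (n := Fin (n + 1))) x) a :=
      fun x => rfl
    rw [hΘ, hcurry, map_sum]
    have hsum : (∑ r, (AlternatingMap.curryLeft
        (Matrix.detRowAlternating (R := K) (n := Fin (n + 1))))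
          (coordHom k hy (thC E r F) • A r)) a =
        ∑ r, coordHom k hy (thC E r F) * (Matrix.of (Fin.cons (A r) a :
        Fin (n + 1) → Fin (n + 1) → K)).det := by
      have h3 : ∀ s : Finset (Fin (n + 1)), (∑ r ∈ s, (AlternatingMap.curryLeft
          (Matrix.detRowAlternating (R := K) (n := Fin (n + 1))))
          (coordHom k hy (thC E r F) • A r)) a =
          ∑ r ∈ s, ((AlternatingMap.curryLeft
          (Matrix.detRowAlternating (R := K) (n := Fin (n + 1))))
          (coordHom k hy (thC E r F) • A r)) a := by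
        intro s
        induction s using Finset.induction_on with
        | empty => simp
        | insert x s hx ih =>
          rw [Finset.sum_insert hx, Finset.sum_insert hx, AlternatingMap.add_apply, ih]
      rw [h3]
      refine Finset.sum_congr rfl fun r _ => ?_
      rw [map_smul, AlternatingMap.smul_apply, smul_eq_mul]
      rfl
    rw [hsum, Finset.sum_eq_single i.succ]
    · rw [ha, det_swap A i, hdetA]
      ring
    · intro r _ hr
      -- two equal rows
      obtain ⟨j, hj⟩ : ∃ j : Fin n, a j = A r := by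
        rw [ha]
        revert hr
        refine Fin.cases (fun _ => ⟨i, by simp⟩) (fun j hj => ⟨j, ?_⟩) r
        exact if_neg fun h => hj (by rw [h])
      have h3 : (Matrix.of (Fin.cons (A r) a : Fin (n + 1) → Fin (n + 1) → K)).det = 0 := by
        refine Matrix.det_zero_of_row_eq (i := 0) (j := j.succ) (Fin.succ_ne_zero j).symm ?_
        funext l
        simp [hj]
      rw [h3, mul_zero]
    · simp
  have hdetM : (((Matrix.of (bvec E)).det : ℤ) : K) ≠ 0 := by
    have h1 : (((Matrix.of (bvec E)).det : ℤ) : k) ≠ 0 := by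
      exact_mod_cast det_bvec_ne_zero E
    have h2 : (((Matrix.of (bvec E)).det : ℤ) : K) =
        algebraMap k K (((Matrix.of (bvec E)).det : ℤ) : k) := by simp
    rw [h2]
    intro h3
    exact h1 ((algebraMap k K).injective (h3.trans (map_zero _).symm))
  have hdetMv : v.val (((Matrix.of (bvec E)).det : ℤ) : K) = 0 := by
    have h2 : (((Matrix.of (bvec E)).det : ℤ) : K) =
        algebraMap k K (((Matrix.of (bvec E)).det : ℤ) : k) := by simp
    rw [h2, v.val_algebraMap]
  have hne : coordHom k hy (thC E i.succ F) ≠ 0 := by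
    intro h
    rw [h, v.ord_zero] at hθi
    exact WithTop.top_ne_coe hθi
  have hprod0 : ∏ j, c j ≠ 0 := Finset.prod_ne_zero_iff.2 fun j _ => hc0 j
  have hprodv : v.val (∏ j, c j) = 1 := by
    rw [v.val_prod _ _ fun j _ => hc0 j]
    simp_rw [hcval]
    simp
  have hdet0 : ω.det (fun j => D k K (c j)) ≠ 0 := by
    rw [hdet]
    exact mul_ne_zero hprod0 (mul_ne_zero hres.1 (neg_ne_zero.2 (mul_ne_zero hne hdetM)))
  have hdetv : v.val (ω.det (fun j => D k K (c j))) = 1 + μ + v.val h := by
    rw [hdet, v.val_mul hprod0 (mul_ne_zero hres.1 (neg_ne_zero.2 (mul_ne_zero hne hdetM))),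
      v.val_mul hres.1 (neg_ne_zero.2 (mul_ne_zero hne hdetM)), v.val_neg, v.val_mul hne hdetM,
      hprodv, hdetMv, (v.ord_eq_iff.1 hθi).2]
    ring
  have hform := FormOrd_of_stable v ω c hcnn hdet0 hstable
  rw [hdetv] at hform
  refine ⟨v, ?_, ?_, hform, ?_⟩
  · -- divisoriality
    have hcard : Fintype.card {j : Fin n // j ≠ i} = n - 1 := by
      rw [Fintype.card_subtype_compl, Fintype.card_fin, Fintype.card_subtype_eq]
    have hn : 1 ≤ n := by
      have := i.2
      omega
    let e : {j : Fin n // j ≠ i} ≃ Fin (n - 1) := Fintype.equivFinOfCardEq hcard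
    refine ⟨n - 1, fun l => b (e.symm l).1.succ, by omega, fun l => ?_, fun P hP => ?_⟩
    · rw [v.nonneg_ord_iff, hbz]
      right; exact le_rfl
    let ex : (Fin (n - 1) →₀ ℕ) → (Fin n → ℤ) :=
      fun d j => if hj : j ≠ i then (d (e ⟨j, hj⟩) : ℤ) else 0
    have hexi : ∀ d, ex d i = 0 := fun d => by simp [ex]
    have hex : ∀ (d : Fin (n - 1) →₀ ℕ) (j : {j : Fin n // j ≠ i}), ex d j.1 = d (e j) := by
      intro d j
      simp only [ex]
      rw [dif_pos j.2]
    have hexinj : Function.Injective ex := by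
      intro d d' hdd
      ext l
      have h1 := congrFun hdd (e.symm l).1
      rw [hex, hex, e.apply_symm_apply] at h1
      exact_mod_cast h1
    let G : Laurent k (n + 1) :=
      ∑ d ∈ P.support, AddMonoidAlgebra.single (E.symm (0, ex d)) (P.coeff d)
    have hGsum : coordHom k hy G = MvPolynomial.aeval (fun l => b (e.symm l).1.succ) P := by
      simp only [G]
      rw [map_sum, MvPolynomial.aeval_def, MvPolynomial.eval₂_eq']
      refine Finset.sum_congr rfl fun d _ => ?_
      rw [coordHom_single, monom_symm_zero hy]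
      congr 1
      rw [Fintype.prod_eq_mul_prod_subtype_ne (fun j => monom y (bvec E j.succ) ^ ex d j) i, hexi,
        zpow_zero, one_mul]
      refine Fintype.prod_equiv e _ _ fun j => ?_
      rw [hex, zpow_natCast, e.symm_apply_apply]
    have hslice : slice E 0 G = ∑ d ∈ P.support, AddMonoidAlgebra.single (ex d) (P.coeff d) := by
      simp only [G]
      have h1 : ∀ s : Finset (Fin (n - 1) →₀ ℕ), slice E 0
          (∑ d ∈ s, AddMonoidAlgebra.single (E.symm (0, ex d)) (P.coeff d) : Laurent k (n + 1)) =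
          ∑ d ∈ s, AddMonoidAlgebra.single (ex d) (P.coeff d) := by
        intro s
        induction s using Finset.induction_on with
        | empty => simp [slice_zero]
        | insert x s hx ih =>
          rw [Finset.sum_insert hx, Finset.sum_insert hx, slice_add, ih, slice_single,
            E.apply_symm_apply, if_pos rfl]
      exact h1 _
    have hQc : ∀ m, (slice E 0 G).coeff m = ∑ d ∈ P.support, if ex d = m then P.coeff d else 0 := by
      intro m
      rw [hslice, AddMonoidAlgebra.coeff_sum, Finsupp.finsetSum_apply]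
      refine Finset.sum_congr rfl fun d _ => ?_
      rw [AddMonoidAlgebra.coeff_single, Finsupp.single_apply]
    have hQ0 : slice E 0 G ≠ 0 := by
      obtain ⟨d, hd⟩ := MvPolynomial.ne_zero_iff.1 hP
      intro h0
      have h1 := hQc (ex d)
      rw [h0, Finset.sum_eq_single d] at h1
      · simp at h1
        exact hd h1.symm
      · intro d' _ hne
        rw [if_neg fun h => hne (hexinj h)]
      · intro h2
        simpa using MvPolynomial.notMem_support_iff.1 h2
    have hQi : ∀ m ∈ (slice E 0 G).coeff.support, m i = 0 := by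
      intro m hm
      rw [Finsupp.mem_support_iff, hQc] at hm
      obtain ⟨d, _, hd⟩ := Finset.exists_ne_zero_of_sum_ne_zero hm
      by_cases h : ex d = m
      · rw [← h, hexi]
      · rw [if_neg h] at hd
        exact absurd rfl hd
    have hnd := not_dvd_of_degree_zero (g2 := g2) (by rw [← hg]; exact hi) hQ0 hQi
    have hGsupp : ∀ m ∈ G.coeff.support, 0 ≤ (E m).1 := by
      intro m hm
      simp only [G] at hm
      rw [AddMonoidAlgebra.coeff_sum] at hm
      obtain ⟨d, _, hd⟩ := Finset.mem_biUnion.1 (Finsupp.support_finsetSum hm)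
      have h1 := support_single hd
      rw [h1, E.apply_symm_apply]
    have h1 := hv1 G 0 hGsupp
    rw [← hGsum]
    exact le_antisymm (not_lt.1 fun h2 => hnd (h1.2.1 h2)) h1.1
  · intro l
    have h1 := hmon' (Pi.single l 1)
    have h2 : monom y (Pi.single l 1) = y l := by
      unfold monom
      rw [Finset.prod_eq_single l]
      · simp
      · intro j _ hj
        rw [Pi.single_eq_of_ne hj, zpow_zero]
      · simp
    rw [h2, hE, single_one_dotProduct] at h1
    exact h1
  · intro G cc hG
    exact hv1 G cc fun m hm => by rw [hE]; exact hG m hm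

end Pool.Agent.H50.Hyp
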