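import Mathlib
import Pool.Agent.H50.Hyp.Residue

/-! # The lower bound of the log discrepancies -/

open scoped BigOperators
open Pool.Agent.H26 KaehlerDifferential

namespace Pool.Agent.H50.Hyp

universe u v

section weights

variable {k : Type u} [Field k] {K : Type v} [Field K] [Algebra k K] {N : ℕ}

/-- the weight of a valuation -/
def wty (v : DVal k K) (y : Fin N → K) : Fin N → ℤ := fun i => v.val (y i)

lemma val_monom (v : DVal k K) {y : Fin N → K} (hy : ∀ i, y i ≠ 0) (m : Fin N → ℤ) :
    v.val (monom y m) = m ⬝ᵥ wty v y := by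
  unfold monom
  rw [v.val_prod _ _ fun i _ => zpow_ne_zero _ (hy i)]
  unfold dotProduct wty
  exact Finset.sum_congr rfl fun i _ => v.val_zpow (hy i) _

lemma ord_monom (v : DVal k K) {y : Fin N → K} (hy : ∀ i, y i ≠ 0) (m : Fin N → ℤ) :
    v.ord (monom y m) = ((m ⬝ᵥ wty v y : ℤ) : WithTop ℤ) := by
  rw [v.ord_eq_val (monom_ne_zero hy m), val_monom v hy]

lemma le_ord_coordHom (v : DVal k K) {y : Fin N → K} (hy : ∀ i, y i ≠ 0) (F : Laurent k N)
    (c : ℤ) (h : ∀ m ∈ F.coeff.support, c ≤ m ⬝ᵥ wty v y) :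
    (c : WithTop ℤ) ≤ v.ord (coordHom k hy F) := by
  rw [coordHom_eq_sum]
  refine v.ord.map_le_sum fun m hm => ?_
  rw [v.ord.map_mul, v.ord_algebraMap _ (Finsupp.mem_support_iff.1 hm), zero_add,
    ord_monom v hy]
  exact_mod_cast h m hm

lemma lt_ord_coordHom (v : DVal k K) {y : Fin N → K} (hy : ∀ i, y i ≠ 0) (F : Laurent k N)
    (c : ℤ) (h : ∀ m ∈ F.coeff.support, c < m ⬝ᵥ wty v y) :
    (c : WithTop ℤ) < v.ord (coordHom k hy F) := by
  have h1 := le_ord_coordHom v hy F (c + 1) (fun m hm => h m hm)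
  refine lt_of_lt_of_le ?_ h1
  exact_mod_cast lt_add_one c

lemma coordHom_single_one' {y : Fin N → K} (hy : ∀ i, y i ≠ 0) (m : Fin N → ℤ) :
    coordHom k hy (AddMonoidAlgebra.single m 1) = monom y m := by
  rw [coordHom_single, map_one, one_mul]

end weights

section

variable {k : Type u} [Field k] {n : ℕ}

/-- completion of independent vectors, the first one coming first -/
lemma exists_completion_zero {ι : Type v} (R : ι → (Fin (n + 1) → k))
    (hR : LinearIndependent k R) (j0 : ι) :
    ∃ c : Fin (n + 1) → ι ⊕ Fin (n + 1), c 0 = Sum.inl j0 ∧ (∀ j, ∃ l, c l = Sum.inl j) ∧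
      (Matrix.of fun l => Sum.elim R (fun i => Pi.single i (1 : k)) (c l)).det ≠ 0 := by
  classical
  obtain ⟨c, hc, hdet⟩ := exists_completion R hR
  obtain ⟨l0, hl0⟩ := hc j0
  refine ⟨c ∘ Equiv.swap 0 l0, ?_, ?_, ?_⟩
  · simp [hl0]
  · intro j
    obtain ⟨l, hl⟩ := hc j
    exact ⟨Equiv.swap 0 l0 l, by simp [hl]⟩
  · have h1 : (Matrix.of fun l => Sum.elim R (fun i => Pi.single i (1 : k))
        ((c ∘ Equiv.swap 0 l0) l)) =
        (Matrix.of fun l => Sum.elim R (fun i => Pi.single i (1 : k)) (c l)).submatrix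
          (Equiv.swap 0 l0) id := rfl
    rw [h1, Matrix.det_permute]
    refine mul_ne_zero ?_ hdet
    rcases Int.units_eq_one_or (Equiv.Perm.sign (Equiv.swap 0 l0)) with h | h <;> rw [h] <;> simp

variable {K : Type v} [Field K] [Algebra k K]

lemma ord_nonneg_degZero (v : DVal k K) {y : Fin (n + 1) → K} (hy : ∀ i, y i ≠ 0)
    {F : Laurent k (n + 1)} (hF : F ∈ degZero k (wty v y)) : 0 ≤ v.ord (coordHom k hy F) := by
  have := le_ord_coordHom v hy F 0 fun m hm => (hF m hm).ge
  exact_mod_cast this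

/-- **The lower bound.** -/
theorem lower_bound [IsAlgClosed k] {ω : Module.Basis (Fin n) K (Ω[K⁄k])} {y : Fin (n + 1) → K}
    (hy : ∀ i, y i ≠ 0) {f : (Fin (n + 1) → ℤ) →₀ k} {hh : K} (hres : IsResidue ω y f hh)
    (v : DVal k K) (e : ℤ) (he : v.FormOrd ω e) {J : Type} [Fintype J] [DecidableEq J]
    (F : J → Laurent k (n + 1)) (j0 : J) (hj0 : F j0 = AddMonoidAlgebra.ofCoeff f)
    (hvan : coordHom k hy (F j0) = 0) (hne : ∀ j, j ≠ j0 → coordHom k hy (F j) ≠ 0)
    (hnd : NondegAt (wty v y) F) (μ : J → ℤ) (hμ : ∀ j, IsMinWt (wty v y) (F j) (μ j)) :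
    ∑ j ∈ Finset.univ.erase j0, (v.val (coordHom k hy (F j)) - μ j) ≤
      e + v.val hh + 1 + μ j0 := by
  classical
  set w : Fin (n + 1) → ℤ := wty v y with hw
  set φ := coordHom k hy with hφ
  have hφs : ∀ x : Fin (n + 1) → ℤ, φ (AddMonoidAlgebra.single x 1) = monom y x :=
    fun x => coordHom_single_one' hy x
  have hφD : ∀ G : Laurent k (n + 1), D k K (φ G) = ∑ l, φ (thetaL l G) • dlog k (y l) :=
    fun G => D_coordHom hy G
  have hge : ∀ j, j ≠ j0 → μ j ≤ v.val (φ (F j)) := by
    intro j hj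
    have h1 := le_ord_coordHom v hy (F j) (μ j) (hμ j).2
    exact (v.le_ord_iff.1 h1).resolve_left (hne j hj)
  choose m hm hmw using fun j => (hμ j).1
  let J0 : Type := {j : J // ((μ j : ℤ) : WithTop ℤ) < v.ord (φ (F j))}
  have hj0' : ((μ j0 : ℤ) : WithTop ℤ) < v.ord (φ (F j0)) := by
    rw [hvan, v.ord_zero]
    exact WithTop.coe_lt_top _
  let o : J0 := ⟨j0, hj0'⟩
  let Rw : J0 ⊕ Fin (n + 1) → Fin (n + 1) → Laurent k (n + 1) :=
    Sum.elim (fun j i => AddMonoidAlgebra.single (-(m j.1)) 1 * thetaL i (inForm w (F j.1)))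
      (fun i0 => Pi.single i0 1)
  have hsingle : ∀ (j : J) (g : Laurent k (n + 1)), (∀ x ∈ g.coeff.support, x ⬝ᵥ w = μ j) →
      AddMonoidAlgebra.single (-(m j)) 1 * g ∈ degZero k w := by
    intro j g hg x hx
    have h1 := AddMonoidAlgebra.support_coeff_single_mul_subset g (1 : k) (-(m j)) hx
    obtain ⟨y, hy, rfl⟩ := Finset.mem_image.1 h1
    rw [add_dotProduct, neg_dotProduct, hmw, hg y hy]
    ring
  have hRw : ∀ x i, Rw x i ∈ degZero k w := by
    rintro (j | i0) i
    · exact hsingle j.1 _ fun x hx => ((mem_inForm_support (hμ j.1)).1 (thetaL_support i _ hx)).2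
    · simp only [Rw, Sum.elim_inr, Pi.single_apply]
      split_ifs
      · exact (degZero k w).one_mem
      · exact (degZero k w).zero_mem
  let C : Type := {c : Fin (n + 1) → J0 ⊕ Fin (n + 1) //
    c 0 = Sum.inl o ∧ ∀ j, ∃ l, c l = Sum.inl j}
  let Dm : C → Laurent k (n + 1) := fun c => (Matrix.of fun l => Rw (c.1 l)).det
  have hDm : ∀ c, Dm c ∈ degZero k w := fun c => det_mem_subalgebra _ _ fun l i => hRw _ _
  let G : J0 ⊕ C → Laurent k (n + 1) :=
    Sum.elim (fun j => AddMonoidAlgebra.single (-(m j.1)) 1 * inForm w (F j.1)) Dm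
  have hG : ∀ x, G x ∈ degZero k w := by
    rintro (j | c)
    · exact hsingle j.1 _ fun x hx => ((mem_inForm_support (hμ j.1)).1 hx).2
    · exact hDm c
  -- the ideal generated is the unit ideal
  have htop : Ideal.span (Set.range G) = ⊤ := by
    by_contra hne
    obtain ⟨P, hP⟩ := exists_point _ hne
    have hP' : ∀ x, evalHom P (G x) = 0 := fun x => by
      rw [evalHom_apply]; exact hP _ (Ideal.subset_span ⟨x, rfl⟩)
    have hin : ∀ j : J0, evalAt P (inForm w (F j.1)) = 0 := by
      intro j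
      have h1 := hP' (Sum.inl j)
      simp only [G, Sum.elim_inl] at h1
      rw [map_mul, evalHom_single, one_mul, evalHom_apply] at h1
      exact (mul_eq_zero.1 h1).resolve_left (monoAt_ne_zero P _)
    have hli1 : LinearIndependent k (fun (j : J0) (i : Fin (n + 1)) =>
        logDerivAt P i (inForm w (F j.1))) := by
      have h1 := (hnd P).comp (fun j : J0 => (⟨j.1, hin j⟩ : {j : J // evalAt P (inForm w (F j)) = 0}))
        (by
          intro a b hab
          have := congrArg Subtype.val hab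
          exact Subtype.ext this)
      exact h1
    have hli2 : LinearIndependent k (fun (j : J0) (i : Fin (n + 1)) =>
        monoAt P (-(m j.1)) * logDerivAt P i (inForm w (F j.1))) := by
      have h1 := hli1.units_smul (fun j : J0 => Units.mk0 (monoAt P (-(m j.1))) (monoAt_ne_zero P _))
      exact h1
    obtain ⟨c, hc0, hc1, hc2⟩ := exists_completion_zero _ hli2 o
    have h2 := hP' (Sum.inr ⟨c, hc0, hc1⟩)
    simp only [G, Sum.elim_inr, Dm] at h2
    rw [AlgHom.map_det] at h2
    apply hc2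
    rw [← h2]
    congr 1
    ext l i
    simp only [Matrix.of_apply, AlgHom.mapMatrix_apply, Matrix.map_apply]
    rcases c l with j | i0
    · simp only [Rw, Sum.elim_inl]
      rw [map_mul, evalHom_single, one_mul, evalAt_thetaL]
    · simp only [Rw, Sum.elim_inr, Pi.single_apply]
      split_ifs
      · rw [map_one]
      · rw [map_zero]
  have h1mem : (1 : Laurent k (n + 1)) ∈ Ideal.span (Set.range G) := by rw [htop]; trivial
  obtain ⟨a, ha⟩ := Ideal.mem_span_range_iff_exists_fun.1 h1mem
  have hres1 : ∑ x, restr (a x) (fun m => m ⬝ᵥ w = 0) * G x = 1 := by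
    have h1 := congrArg (fun f => restr f (fun m => m ⬝ᵥ w = 0)) ha
    simp only [restr_sum] at h1
    rw [restr_eq_self (f := (1 : Laurent k (n + 1)))] at h1
    · rw [← h1]
      exact Finset.sum_congr rfl fun x _ => (restr_mul w (a x) (G x) (hG x)).symm
    · exact (degZero k w).one_mem
  -- the initial forms have positive order
  have hinpos : ∀ j : J0, ((μ j.1 : ℤ) : WithTop ℤ) < v.ord (φ (inForm w (F j.1))) := by
    intro j
    have h3 : inForm w (F j.1) = F j.1 + (-(F j.1 - inForm w (F j.1))) := by ring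
    rw [h3, map_add, map_neg]
    refine v.ord.map_lt_add j.2 ?_
    rw [v.ord.map_neg]
    exact lt_ord_coordHom v hy _ _ fun m hm => (mem_sub_inForm_support (hμ j.1) hm).2
  -- some determinant is a unit
  obtain ⟨c, hc⟩ : ∃ c : C, v.ord (φ (Dm c)) ≤ 0 := by
    by_contra hcon
    push Not at hcon
    have hall : ∀ x, 0 < v.ord (φ (restr (a x) (fun m => m ⬝ᵥ w = 0) * G x)) := by
      intro x
      rw [map_mul, v.ord.map_mul]
      have h1 : 0 ≤ v.ord (φ (restr (a x) (fun m => m ⬝ᵥ w = 0))) :=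
        ord_nonneg_degZero v hy (restr_zero_mem_degZero w _)
      refine lt_of_lt_of_le ?_ (le_add_of_nonneg_left h1)
      rcases x with j | c
      · simp only [G, Sum.elim_inl]
        rw [map_mul, v.ord.map_mul]
        have h4 : v.ord (φ (AddMonoidAlgebra.single (-(m j.1)) 1)) =
            ((-(μ j.1) : ℤ) : WithTop ℤ) := by
          rw [hφs, ord_monom v hy, ← hw, neg_dotProduct, hmw]
        rw [h4]
        calc (0 : WithTop ℤ) = ((-(μ j.1) : ℤ) : WithTop ℤ) + ((μ j.1 : ℤ) : WithTop ℤ) := by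
              rw [← WithTop.coe_add, neg_add_cancel]; rfl
          _ < _ := WithTop.add_lt_add_left WithTop.coe_ne_top (hinpos j)
      · exact hcon c
    have hsum : ((1 : ℤ) : WithTop ℤ) ≤ v.ord (φ (∑ x, restr (a x) (fun m => m ⬝ᵥ w = 0) * G x)) := by
      rw [map_sum]
      exact v.ord.map_le_sum fun x _ => by
        have := one_le_of_pos (hall x)
        exact_mod_cast this
    rw [hres1, map_one, v.ord.map_one] at hsum
    have : (1 : ℤ) ≤ 0 := by exact_mod_cast hsum
    omega
  have hDm0 : v.ord (φ (Dm c)) = 0 := le_antisymm hc (ord_nonneg_degZero v hy (hDm c))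
  -- the rows are different
  have hcinj : Function.Injective c.1 := by
    intro l l' hll
    by_contra hne'
    have h1 : Dm c = 0 := by
      simp only [Dm]
      exact Matrix.det_zero_of_row_eq hne' (by
        funext i
        simp only [Matrix.of_apply]
        rw [hll])
    rw [h1, map_zero, v.ord_zero] at hDm0
    exact WithTop.top_ne_zero hDm0
  have hne0 : ∀ (l : Fin n) (j : J0), c.1 l.succ = Sum.inl j → j.1 ≠ j0 := by
    intro l j hlj hjj
    have h1 : j = o := Subtype.ext hjj
    have h2 : c.1 l.succ = c.1 0 := by rw [hlj, h1, c.2.1]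
    exact Fin.succ_ne_zero l (hcinj h2)
  -- the logarithmic form
  let z : Fin n → K := fun l =>
    Sum.elim (fun j : J0 => φ (F j.1)) (fun i => y i) (c.1 l.succ)
  have hz : ∀ l, z l ≠ 0 := by
    intro l
    simp only [z]
    rcases hcl : c.1 l.succ with j | i0
    · exact hne _ (hne0 l j hcl)
    · exact hy _
  have hbound := log_form_bound v ω e he z hz
  let s : Fin (n + 1) → K := Fin.cons (monom y (m j0))
    (fun l => Sum.elim (fun j : J0 => monom y (m j.1) / φ (F j.1)) (fun _ => 1) (c.1 l.succ))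
  let M : Matrix (Fin (n + 1)) (Fin (n + 1)) K := Matrix.of fun l i =>
    Sum.elim (fun (j : J0) i => monom y (-(m j.1)) * φ (thetaL i (F j.1)))
      (fun i0 => Pi.single i0 1) (c.1 l) i
  let av : Fin n → Fin (n + 1) → K := fun l =>
    Sum.elim (fun (j : J0) i => (φ (F j.1))⁻¹ * φ (thetaL i (F j.1)))
      (fun i0 => Pi.single i0 1) (c.1 l.succ)
  have hmonneg : ∀ x : Fin (n + 1) → ℤ, monom y x * monom y (-x) = 1 := by
    intro x
    rw [← monom_add hy, add_neg_cancel, monom_zero]
  have hdlog : ∀ l, dlog k (z l) = lcomb k y (av l) := by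
    intro l
    rw [lcomb_apply]
    simp only [z, av]
    rcases c.1 l.succ with j | i0
    · simp only [Sum.elim_inl]
      rw [show dlog k (φ (F j.1)) = (φ (F j.1))⁻¹ • D k K (φ (F j.1)) from rfl, hφD,
        Finset.smul_sum]
      exact Finset.sum_congr rfl fun i _ => by rw [smul_smul]
    · simp only [Sum.elim_inr]
      rw [Finset.sum_eq_single i0]
      · rw [Pi.single_eq_same, one_smul]
      · intro l' _ hl'
        rw [Pi.single_eq_of_ne hl', zero_smul]
      · simp
  have hdet : ω.det (fun l => dlog k (z l)) = hh * ((∏ l, s l) * M.det) := by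
    simp_rw [hdlog]
    rw [residue_formula hy hres, ← Matrix.det_mul_column]
    congr 2
    ext l i
    rw [Matrix.of_apply, Matrix.of_apply]
    refine Fin.cases ?_ (fun l => ?_) l
    · simp only [Fin.cons_zero, s, M, Matrix.of_apply, c.2.1, Sum.elim_inl, o]
      rw [← hj0, ← mul_assoc, hmonneg, one_mul]
    · simp only [Fin.cons_succ, s, M, Matrix.of_apply, av]
      rcases hcl : c.1 l.succ with j | i0
      · simp only [Sum.elim_inl]
        have h1 := hmonneg (m j.1)
        have h2 := hne _ (hne0 l j hcl)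
        rw [div_eq_mul_inv]
        linear_combination (-(φ (F j.1))⁻¹ * φ (thetaL i (F j.1))) * h1
      · simp only [Sum.elim_inr, one_mul]
  have hMentry : ∀ l i, 0 < v.ord (M l i - φ (Rw (c.1 l) i)) := by
    intro l i
    simp only [M, Matrix.of_apply]
    rcases c.1 l with j | i0
    · simp only [Rw, Sum.elim_inl]
      rw [map_mul]
      have h1 : φ (AddMonoidAlgebra.single (-(m j.1)) 1) = monom y (-(m j.1)) :=
        coordHom_single_one' hy _
      have h3 : thetaL i (F j.1) - thetaL i (inForm w (F j.1)) =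
          thetaL i (F j.1 - inForm w (F j.1)) := by
        have h5 := thetaL_add i (inForm w (F j.1)) (F j.1 - inForm w (F j.1))
        rw [add_sub_cancel] at h5
        rw [h5]
        ring
      rw [h1, ← mul_sub, ← map_sub, h3, v.ord.map_mul, ord_monom v hy, ← hw, neg_dotProduct, hmw]
      have h2 : ((μ j.1 : ℤ) : WithTop ℤ) < v.ord (φ (thetaL i (F j.1 - inForm w (F j.1)))) :=
        lt_ord_coordHom v hy _ _ fun m hm =>
          (mem_sub_inForm_support (hμ j.1) (thetaL_support i _ hm)).2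
      calc (0 : WithTop ℤ) = ((-(μ j.1) : ℤ) : WithTop ℤ) + ((μ j.1 : ℤ) : WithTop ℤ) := by
            rw [← WithTop.coe_add, neg_add_cancel]; rfl
        _ < _ := WithTop.add_lt_add_left WithTop.coe_ne_top h2
    · simp only [Rw, Sum.elim_inr, Pi.single_apply]
      have : (if i = i0 then (1 : K) else 0) - φ (if i = i0 then 1 else 0) = 0 := by
        split_ifs <;> simp
      rw [this, v.ord_zero]
      exact WithTop.coe_lt_top (0 : ℤ)
  have hRord : ∀ l i, 0 ≤ v.ord (φ (Rw (c.1 l) i)) := fun l i => ord_nonneg_degZero v hy (hRw _ _)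
  have hMord : ∀ l i, 0 ≤ v.ord (M l i) := by
    intro l i
    have h1 : M l i = (M l i - φ (Rw (c.1 l) i)) + φ (Rw (c.1 l) i) := by ring
    rw [h1]
    exact v.ord.map_le_add (hMentry l i).le (hRord l i)
  have hMdet : v.ord M.det = 0 := by
    let M' : Matrix (Fin (n + 1)) (Fin (n + 1)) K := Matrix.of fun l i => φ (Rw (c.1 l) i)
    have h1 := det_close v.ord M M' hMord hRord hMentry
    have h2 : M'.det = φ (Dm c) := by
      simp only [Dm, M']
      rw [AlgHom.map_det]
      rfl
    rw [h2] at h1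
    have h3 : M.det = φ (Dm c) + (M.det - φ (Dm c)) := by ring
    rw [h3]
    have h4 : v.ord (φ (Dm c)) < v.ord (M.det - φ (Dm c)) := by rw [hDm0]; exact h1
    exact (v.ord.map_add_eq_of_lt_left h4).trans hDm0
  -- computation
  let h : J0 ⊕ Fin (n + 1) → ℤ := Sum.elim (fun j => μ j.1 - v.val (φ (F j.1))) (fun _ => 0)
  have hs0 : v.ord (s 0) = ((μ j0 : ℤ) : WithTop ℤ) := by
    simp only [s, Fin.cons_zero]
    rw [ord_monom v hy, ← hw, hmw]
  have hs : ∀ l : Fin n, v.ord (s l.succ) = ((h (c.1 l.succ) : ℤ) : WithTop ℤ) := by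
    intro l
    simp only [s, h, Fin.cons_succ]
    rcases hcl : c.1 l.succ with j | i0
    · simp only [Sum.elim_inl]
      have h2 := hne _ (hne0 l j hcl)
      rw [v.ord_eq_val (div_ne_zero (monom_ne_zero hy _) h2), v.val_div (monom_ne_zero hy _) h2,
        val_monom v hy, ← hw, hmw]
    · simp only [Sum.elim_inr]
      rw [v.ord.map_one]; rfl
  have hfin : -e - 1 ≤ v.val hh + (μ j0 + ∑ l : Fin n, h (c.1 l.succ)) := by
    rw [hdet, v.ord.map_mul, v.ord.map_mul, hMdet, add_zero, v.ord_prod, Fin.sum_univ_succ, hs0,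
      v.ord_eq_val hres.1] at hbound
    have h1 : ∑ l : Fin n, v.ord (s l.succ) = ((∑ l : Fin n, h (c.1 l.succ) : ℤ) : WithTop ℤ) := by
      rw [WithTop.coe_sum]
      exact Finset.sum_congr rfl fun l _ => hs l
    rw [h1] at hbound
    exact_mod_cast hbound
  have hh0 : ∀ (l : Fin n), h (c.1 l.succ) ≤ 0 := by
    intro l
    rcases hcl : c.1 l.succ with j | i0
    · simp only [h, Sum.elim_inl]
      have h5 := hge j.1 (hne0 l j hcl)
      omega
    · simp [h]
  -- the rows of the members different from `j0`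
  let J1 : Type := {j : J // j ≠ j0 ∧ μ j < v.val (φ (F j))}
  have hJ1 : ∀ j : J1, ((μ j.1 : ℤ) : WithTop ℤ) < v.ord (φ (F j.1)) := fun j => by
    rw [v.lt_ord_iff]; exact Or.inr j.2.2
  have hex : ∀ j : J1, ∃ l : Fin n, c.1 l.succ = Sum.inl ⟨j.1, hJ1 j⟩ := by
    intro j
    obtain ⟨l, hl⟩ := c.2.2 ⟨j.1, hJ1 j⟩
    refine Fin.cases (fun hl => ?_) (fun l hl => ⟨l, hl⟩) l hl
    exfalso
    rw [c.2.1] at hl
    have h1 := Sum.inl_injective hl
    exact j.2.1 (congrArg Subtype.val h1).symm
  choose L hL using hex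
  have hLinj : Function.Injective L := by
    intro a b hab
    have h1 := hL a
    rw [hab, hL b] at h1
    have h2 := congrArg Subtype.val (Sum.inl_injective h1)
    exact Subtype.ext h2.symm
  have hle : ∑ l : Fin n, h (c.1 l.succ) ≤ ∑ j : J1, (μ j.1 - v.val (φ (F j.1))) := by
    calc ∑ l : Fin n, h (c.1 l.succ) ≤ ∑ l ∈ Finset.univ.map ⟨L, hLinj⟩, h (c.1 l.succ) := by
          have h6 := Finset.sum_le_sum_of_subset_of_nonneg
            (Finset.subset_univ (Finset.univ.map ⟨L, hLinj⟩)) (f := fun l => -h (c.1 l.succ))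
            fun l _ _ => by have := hh0 l; omega
          rw [Finset.sum_neg_distrib, Finset.sum_neg_distrib] at h6
          omega
      _ = ∑ j : J1, (μ j.1 - v.val (φ (F j.1))) := by
          rw [Finset.sum_map]
          refine Finset.sum_congr rfl fun j _ => ?_
          simp only [Function.Embedding.coeFn_mk]
          rw [hL j]
          rfl
  have hJ : ∑ j ∈ Finset.univ.erase j0, (v.val (φ (F j)) - μ j) =
      -∑ j : J1, (μ j.1 - v.val (φ (F j.1))) := by
    have h1 : ∑ j ∈ Finset.univ.erase j0, (v.val (φ (F j)) - μ j) =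
        ∑ j ∈ Finset.univ.filter (fun j => j ≠ j0 ∧ μ j < v.val (φ (F j))),
          (v.val (φ (F j)) - μ j) := by
      symm
      refine Finset.sum_subset ?_ ?_
      · intro j hj
        rw [Finset.mem_filter] at hj
        exact Finset.mem_erase.2 ⟨hj.2.1, Finset.mem_univ j⟩
      · intro j hj hj'
        have h2 := (Finset.mem_erase.1 hj).1
        have h3 := hge j h2
        have h4 : ¬ μ j < v.val (φ (F j)) := fun h5 =>
          hj' (Finset.mem_filter.2 ⟨Finset.mem_univ j, h2, h5⟩)
        omega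
    rw [h1, ← Finset.sum_neg_distrib]
    rw [← Finset.sum_subtype_eq_sum_filter]
    refine Finset.sum_bij (fun j _ => (⟨j.1, (by simpa using j.2)⟩ : J1)) ?_ ?_ ?_ ?_
    · intro j _; exact Finset.mem_univ _
    · intro a _ b _ hab
      exact Subtype.ext (congrArg Subtype.val hab)
    · intro j _
      exact ⟨⟨j.1, j.2⟩, by simp, rfl⟩
    · intro j _
      ring
  rw [hJ]
  omega

end

end Pool.Agent.H50.Hyp
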