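import Mathlib
import Pool.Agent.H26.ToricDiv
import Pool.Agent.H50.Hyp.Lower

/-! # The coordinate ring of the hypersurface -/

open scoped BigOperators
open Pool.Agent.H26 KaehlerDifferential

namespace Pool.Agent.H50.Hyp

universe u v

section ring

variable {k : Type u} [Field k] {K : Type v} [Field K] [Algebra k K] {N : ℕ} {y : Fin N → K}
  {S : AddSubmonoid (Fin N → ℤ)} {A : Subalgebra k K}

lemma exists_laurent_of_mem_adjoin (hy : ∀ i, y i ≠ 0)
    (hA : A = Algebra.adjoin k (monom y '' (S : Set (Fin N → ℤ)))) {x : K} (hx : x ∈ A) :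
    ∃ P : Laurent k N, (∀ m ∈ P.coeff.support, m ∈ S) ∧ coordHom k hy P = x := by
  classical
  rw [hA, ← Subalgebra.mem_toSubmodule, Algebra.adjoin_eq_span] at hx
  have hcl : (Submonoid.closure (monom y '' (S : Set (Fin N → ℤ))) : Set K) =
      monom y '' (S : Set (Fin N → ℤ)) := by
    apply Set.Subset.antisymm
    · intro z hz
      rw [SetLike.mem_coe] at hz
      induction hz using Submonoid.closure_induction with
      | mem x hx => exact hx
      | one => exact ⟨0, S.zero_mem, monom_zero y⟩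
      | mul x z _ _ hx hz =>
        obtain ⟨m, hm, rfl⟩ := hx
        obtain ⟨m', hm', rfl⟩ := hz
        exact ⟨m + m', S.add_mem hm hm', monom_add hy _ _⟩
    · exact Submonoid.subset_closure
  rw [hcl] at hx
  induction hx using Submodule.span_induction with
  | mem x h =>
    obtain ⟨m, hm, rfl⟩ := h
    refine ⟨AddMonoidAlgebra.single m 1, ?_, coordHom_single_one' hy m⟩
    intro m' hm'
    rw [AddMonoidAlgebra.coeff_single] at hm'
    have := Finsupp.support_single_subset hm'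
    rw [Finset.mem_singleton] at this
    rw [this]; exact hm
  | zero => exact ⟨0, by simp, by simp⟩
  | add x y _ _ hx hy =>
    obtain ⟨f, hf, rfl⟩ := hx
    obtain ⟨g, hg, rfl⟩ := hy
    refine ⟨f + g, ?_, map_add _ _ _⟩
    intro m hm
    rcases mem_support_add hm with h | h
    · exact hf m h
    · exact hg m h
  | smul c x _ hx =>
    obtain ⟨f, hf, rfl⟩ := hx
    refine ⟨c • f, ?_, map_smul _ _ _⟩
    intro m hm
    rw [AddMonoidAlgebra.coeff_smul] at hm
    exact hf m (Finsupp.support_smul hm)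

lemma monom_mem_adjoin (hA : A = Algebra.adjoin k (monom y '' (S : Set (Fin N → ℤ))))
    {m : Fin N → ℤ} (hm : m ∈ S) : monom y m ∈ A := by
  rw [hA]
  exact Algebra.subset_adjoin ⟨m, hm, rfl⟩

/-- the ideal of the fixed point contains the elements without constant term -/
lemma mem_pt_of_coeff_zero (hy : ∀ i, y i ≠ 0)
    (hA : A = Algebra.adjoin k (monom y '' (S : Set (Fin N → ℤ)))) {pt : Ideal A}
    (hpt : ∀ m ∈ S, m ≠ 0 → ∃ a ∈ pt, (a : K) = monom y m) {a : A} {P : Laurent k N}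
    (hP : ∀ m ∈ P.coeff.support, m ∈ S) (hPa : coordHom k hy P = a) (h0 : P.coeff 0 = 0) :
    a ∈ pt := by
  classical
  have h1 : a = ∑ m ∈ P.coeff.support.attach, algebraMap k A (P.coeff m.1) *
      (⟨monom y m.1, monom_mem_adjoin hA (hP m.1 m.2)⟩ : A) := by
    apply Subtype.ext
    rw [← hPa, coordHom_eq_sum, AddSubmonoidClass.coe_finsetSum, ← Finset.sum_attach]
    rfl
  rw [h1]
  refine Ideal.sum_mem _ fun m _ => Ideal.mul_mem_left _ _ ?_
  have hm0 : m.1 ≠ 0 := by
    intro h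
    have := Finsupp.mem_support_iff.1 m.2
    rw [h, h0] at this
    exact this rfl
  obtain ⟨b, hb, hbm⟩ := hpt m.1 (hP m.1 m.2) hm0
  have : (⟨monom y m.1, monom_mem_adjoin hA (hP m.1 m.2)⟩ : A) = b := Subtype.ext hbm.symm
  rw [this]; exact hb

lemma coeff_zero_of_mem_pt (hy : ∀ i, y i ≠ 0)
    (hA : A = Algebra.adjoin k (monom y '' (S : Set (Fin N → ℤ)))) {pt : Ideal A}
    (hmax : pt ≠ ⊤) (hpt : ∀ m ∈ S, m ≠ 0 → ∃ a ∈ pt, (a : K) = monom y m) {a : A}
    {P : Laurent k N} (hP : ∀ m ∈ P.coeff.support, m ∈ S) (hPa : coordHom k hy P = a)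
    (ha : a ∈ pt) : P.coeff 0 = 0 := by
  classical
  by_contra hne
  let g : Laurent k N := restr P (fun m => ¬ m = 0)
  have hg : ∀ m ∈ g.coeff.support, m ∈ S := by
    intro m hm
    rw [restr_support, Finset.mem_filter] at hm
    exact hP m hm.1
  have hg0 : g.coeff 0 = 0 := by
    rw [restr_coeff, Finsupp.filter_apply_neg]
    simp
  have hfg : P = algebraMap k _ (P.coeff 0) + g := by
    apply AddMonoidAlgebra.coeff_injective
    rw [AddMonoidAlgebra.coeff_add, AddMonoidAlgebra.coe_algebraMap]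
    ext m
    rw [Finsupp.add_apply, Function.comp_apply, AddMonoidAlgebra.coeff_single,
      Finsupp.single_apply]
    simp only [g, restr_coeff, Finsupp.filter_apply]
    by_cases hm : m = 0
    · subst hm; simp
    · simp [hm, Ne.symm hm]
  have hφ : (a : K) = algebraMap k K (P.coeff 0) + coordHom k hy g := by
    rw [← hPa]
    conv_lhs => rw [hfg]
    rw [map_add, AlgHom.commutes]
  have hgA : coordHom k hy g ∈ A := by
    have h1 : coordHom k hy g = (a : K) - algebraMap k K (P.coeff 0) := by rw [hφ]; ring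
    rw [h1]
    exact A.sub_mem a.2 (A.algebraMap_mem _)
  have hgmem : (⟨coordHom k hy g, hgA⟩ : A) ∈ pt :=
    mem_pt_of_coeff_zero hy hA hpt hg rfl hg0
  have hc : algebraMap k A (P.coeff 0) ∈ pt := by
    have h1 : algebraMap k A (P.coeff 0) = a - ⟨coordHom k hy g, hgA⟩ := by
      apply Subtype.ext
      change algebraMap k K (P.coeff 0) = (a : K) - coordHom k hy g
      rw [hφ]
      ring
    rw [h1]
    exact Ideal.sub_mem _ ha hgmem
  exact hmax (Ideal.eq_top_of_isUnit_mem _ hc ((IsUnit.mk0 _ hne).map (algebraMap k A)))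

end ring

section hyp

variable {k : Type u} [Field k] {K : Type v} [Field K] [Algebra k K] {N : ℕ} {y : Fin N → K}
  {f : (Fin N → ℤ) →₀ k}

lemma IsHypersurfaceCoord.ker (h : IsHypersurfaceCoord y f) (G : Laurent k N) :
    coordHom k h.ne_zero G = 0 ↔ (AddMonoidAlgebra.ofCoeff f : Laurent k N) ∣ G := by
  rw [coordHom_apply]
  exact h.vanish G.coeff

lemma IsHypersurfaceCoord.frac (h : IsHypersurfaceCoord y f) (x : K) :
    ∃ F G, coordHom k h.ne_zero G ≠ 0 ∧ x * coordHom k h.ne_zero G = coordHom k h.ne_zero F := by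
  have hz : x ∈ IntermediateField.adjoin k (Set.range y) := by rw [h.generate]; trivial
  obtain ⟨r, s, hrs⟩ := (IntermediateField.mem_adjoin_range_iff k y x).1 hz
  let z : Fin N → Laurent k N := fun i => AddMonoidAlgebra.single (Pi.single i 1) 1
  have hy : ∀ r : MvPolynomial (Fin N) k,
      coordHom k h.ne_zero (MvPolynomial.aeval z r) = MvPolynomial.aeval y r := by
    intro r
    rw [MvPolynomial.comp_aeval_apply]
    congr 2
    funext i
    change coordHom k h.ne_zero (AddMonoidAlgebra.single (Pi.single i 1) 1) = y i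
    rw [coordHom_single, map_one, one_mul]
    unfold monom
    rw [Finset.prod_eq_single i]
    · simp
    · intro j _ hj
      rw [Pi.single_eq_of_ne hj, zpow_zero]
    · simp
  by_cases hs : MvPolynomial.aeval y s = 0
  · refine ⟨0, 1, ?_, ?_⟩
    · rw [map_one]; exact one_ne_zero
    · rw [hrs, hs, map_one, map_zero, mul_one, div_zero]
  · refine ⟨MvPolynomial.aeval z r, MvPolynomial.aeval z s, by rwa [hy], ?_⟩
    rw [hy, hy, hrs]
    exact div_mul_cancel₀ _ hs

lemma minWeight_eq (w : Fin N → ℤ) {q : (Fin N → ℤ) →₀ k} (hq : q ≠ 0) :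
    minWeight w q = minWt w (AddMonoidAlgebra.ofCoeff q : Laurent k N) := by
  have hq' : (AddMonoidAlgebra.ofCoeff q : Laurent k N) ≠ 0 := fun h => by
    apply hq
    have := congrArg AddMonoidAlgebra.coeff h
    exact this
  have h1 := minWt_spec w hq'
  unfold minWeight
  refine IsLeast.csInf_eq ⟨?_, ?_⟩
  · obtain ⟨m, hm, hmw⟩ := h1.1
    exact ⟨m, hm, hmw⟩
  · rintro _ ⟨m, hm, rfl⟩
    exact h1.2 m hm

lemma ofCoeff_ne_zero {q : (Fin N → ℤ) →₀ k} (hq : q ≠ 0) :
    (AddMonoidAlgebra.ofCoeff q : Laurent k N) ≠ 0 := fun h => by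
  apply hq
  have := congrArg AddMonoidAlgebra.coeff h
  exact this

lemma coordHom_ofCoeff (hy : ∀ i, y i ≠ 0) (q : (Fin N → ℤ) →₀ k) :
    coordHom k hy (AddMonoidAlgebra.ofCoeff q) = laurentPoly y q := by
  rw [coordHom_apply]

lemma ne_zero_of_laurentPoly {q : (Fin N → ℤ) →₀ k} (hq : laurentPoly y q ≠ 0) : q ≠ 0 := by
  rintro rfl
  apply hq
  unfold laurentPoly
  simp

/-- the logarithmic forms of the coordinates span -/
lemma lcomb_surjective (h : IsHypersurfaceCoord y f) : Function.Surjective (lcomb k y) := by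
  rw [← LinearMap.range_eq_top, eq_top_iff, ← KaehlerDifferential.span_range_derivation,
    Submodule.span_le]
  rintro _ ⟨x, rfl⟩
  obtain ⟨F, G, hG, hx⟩ := h.frac x
  have hx' : x = coordHom k h.ne_zero F / coordHom k h.ne_zero G := by
    rw [eq_div_iff hG]; exact hx
  have key : ∀ F, D k K (coordHom k h.ne_zero F) ∈ LinearMap.range (lcomb k y) := by
    intro F
    rw [D_coordHom]
    exact ⟨_, lcomb_apply _ _⟩
  rw [hx', Derivation.leibniz_div]
  exact Submodule.smul_mem _ _ (Submodule.sub_mem _ (Submodule.smul_mem _ _ (key F))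
    (Submodule.smul_mem _ _ (key G)))

end hyp

section ne

variable {k : Type u} [Field k] {K : Type v} [Field K] [Algebra k K] {n : ℕ}
  {y : Fin (n + 1) → K} {f : (Fin (n + 1) → ℤ) →₀ k}

lemma f_ne_zero (h : IsHypersurfaceCoord y f) {ω : Module.Basis (Fin n) K (Ω[K⁄k])} {hh : K}
    (hres : IsResidue ω y f hh) : f ≠ 0 := by
  rintro rfl
  choose a ha using fun j => lcomb_surjective h (ω j)
  have h1 := residue_formula h.ne_zero hres a
  simp_rw [ha] at h1
  rw [ω.det_self] at h1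
  have h2 : (Matrix.of (Fin.cons (fun l => coordHom k h.ne_zero (thetaL l
      (AddMonoidAlgebra.ofCoeff (0 : (Fin (n + 1) → ℤ) →₀ k)))) a :
        Fin (n + 1) → Fin (n + 1) → K)).det = 0 := by
    refine Matrix.det_eq_zero_of_row_eq_zero 0 fun i => ?_
    simp only [Matrix.of_apply, Fin.cons_zero]
    have h3 : (AddMonoidAlgebra.ofCoeff (0 : (Fin (n + 1) → ℤ) →₀ k) : Laurent k (n + 1)) = 0 := rfl
    rw [h3, thetaL_zero, map_zero]
  rw [h2, mul_zero] at h1
  exact one_ne_zero h1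

end ne

section germ

variable {k : Type u} [Field k] {K : Type v} [Field K] [Algebra k K] {n : ℕ}
  {G : LogGerm k K n} {y : Fin (n + 1) → K} {R : Finset (Fin (n + 1) → ℤ)}
  {f : (Fin (n + 1) → ℤ) →₀ k}

lemma passesThrough (hG : IsToricHypersurface G y R f) :
    PassesThrough R (AddMonoidAlgebra.ofCoeff f : Laurent k (n + 1)) := by
  classical
  intro m0 hm0
  by_contra hcon
  push Not at hcon
  set F : Laurent k (n + 1) := AddMonoidAlgebra.ofCoeff f with hF
  have hy := hG.coordinates.ne_zero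
  set P : Laurent k (n + 1) := AddMonoidAlgebra.single (-m0) 1 * F with hP
  have hPs : ∀ m ∈ P.coeff.support, m ∈ dualMonoid R := by
    intro m hm
    obtain ⟨a, ha, b, hb, rfl⟩ := mem_support_mul hm
    rw [AddMonoidAlgebra.coeff_single] at ha
    have ha' := Finsupp.support_single_subset ha
    rw [Finset.mem_singleton] at ha'
    intro ρ hρ
    rw [ha', add_dotProduct, neg_dotProduct]
    have := hcon ρ hρ b hb
    omega
  have hP0 : coordHom k hy P = ((0 : G.A) : K) := by
    rw [hP, map_mul, (hG.coordinates.ker F).2 dvd_rfl, mul_zero]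
    rfl
  have h1 := coeff_zero_of_mem_pt hy hG.coordinate_ring G.isMaximal.ne_top hG.fixed_point hPs hP0
    (Ideal.zero_mem _)
  have h2 : P.coeff (-m0 + m0) = 1 * F.coeff m0 := AddMonoidAlgebra.coeff_single_mul_add F (1 : k) (-m0) m0
  rw [neg_add_cancel, one_mul, h1] at h2
  exact Finsupp.mem_support_iff.1 hm0 h2.symm

lemma rays_nonempty (hG : IsToricHypersurface G y R f) (hf : f ≠ 0) : R.Nonempty := by
  obtain ⟨m0, hm0⟩ := Finsupp.support_nonempty_iff.2 hf
  obtain ⟨ρ, hρ, _⟩ := passesThrough hG m0 hm0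
  exact ⟨ρ, hρ⟩

lemma exists_strict (hR : IsRayGenerators R) (hne : R.Nonempty) :
    ∃ m ∈ dualMonoid R, m ≠ 0 ∧ ∀ ρ ∈ R, 0 < m ⬝ᵥ ρ := by
  classical
  suffices h : ∃ m : Fin (n + 1) → ℤ, ∀ ρ ∈ R, 0 < m ⬝ᵥ ρ by
    obtain ⟨m, hm⟩ := h
    refine ⟨m, fun ρ hρ => (hm ρ hρ).le, ?_, hm⟩
    rintro rfl
    obtain ⟨ρ, hρ⟩ := hne
    have := hm ρ hρ
    rw [zero_dotProduct] at this
    exact lt_irrefl _ this
  by_cases hcard : R.card ≤ 1
  · obtain ⟨ρ, hρ⟩ := hne
    obtain ⟨m, hm⟩ := (hR ρ hρ).1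
    refine ⟨m, fun ρ' hρ' => ?_⟩
    have : ρ' = ρ := Finset.card_le_one.1 hcard ρ' hρ' ρ hρ
    rw [this, hm]
    exact one_pos
  · push Not at hcard
    choose! m hm using fun ρ hρ => (hR ρ hρ).2
    refine ⟨∑ ρ ∈ R, m ρ, fun ρ hρ => ?_⟩
    rw [sum_dotProduct]
    obtain ⟨ρ', hρ', hne'⟩ := Finset.exists_mem_ne hcard ρ
    refine Finset.sum_pos' (fun ρ'' hρ'' => ?_) ⟨ρ', hρ', (hm ρ' hρ').2 ρ hρ hne'.symm⟩
    by_cases h : ρ = ρ''
    · rw [← h, (hm ρ hρ).1]
    · exact ((hm ρ'' hρ'').2 ρ hρ h).le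

end germ

end Pool.Agent.H50.Hyp
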