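import Mathlib
import Pool.Agent.H50.Hyp.Exist
import Pool.Agent.H50.Hyp.Transfer

/-! # Existence of divisors over a point of a nondegenerate hypersurface -/

open scoped BigOperators
open Pool.Agent.H26 KaehlerDifferential

namespace Pool.Agent.H50.Hyp

universe u v

section slices

variable {k : Type u} [Field k] {n : ℕ} (E : (Fin (n + 1) → ℤ) ≃+ ℤ × (Fin n → ℤ))

/-- the restriction of a weight to the hyperplane of weight zero -/
def pull (w0 : Fin (n + 1) → ℤ) : Fin n → ℤ := fun j => E.symm (0, Pi.single j 1) ⬝ᵥ w0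

lemma symm_zero_dot (a : Fin n → ℤ) (w0 : Fin (n + 1) → ℤ) :
    E.symm (0, a) ⬝ᵥ w0 = a ⬝ᵥ pull E w0 := by
  have h1 : E.symm (0, a) = ∑ j, a j • E.symm (0, Pi.single j 1) := by
    apply E.injective
    rw [E.apply_symm_apply, map_sum]
    simp_rw [map_zsmul, E.apply_symm_apply]
    refine Prod.ext ?_ ?_
    · rw [Prod.fst_sum]
      simp
    · rw [Prod.snd_sum]
      funext j
      simp [Finset.sum_apply, Pi.single_apply]
  rw [h1, sum_dotProduct]
  unfold dotProduct pull
  refine Finset.sum_congr rfl fun j _ => ?_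
  change (a j • E.symm (0, Pi.single j 1)) ⬝ᵥ w0 = _
  rw [smul_dotProduct, smul_eq_mul]

lemma dot_eq_pull (m w0 : Fin (n + 1) → ℤ) :
    m ⬝ᵥ w0 = (E m).1 * (E.symm (1, 0) ⬝ᵥ w0) + (E m).2 ⬝ᵥ pull E w0 := by
  have h1 : m = (E m).1 • E.symm (1, 0) + E.symm (0, (E m).2) := by
    apply E.injective
    rw [map_add, map_zsmul, E.apply_symm_apply, E.apply_symm_apply]
    refine Prod.ext ?_ ?_
    · simp
    · simp
  conv_lhs => rw [h1]
  rw [add_dotProduct, smul_dotProduct, smul_eq_mul, symm_zero_dot]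

/-- the inclusion of the Laurent polynomials of weight zero -/
noncomputable def incl (k : Type u) [Field k] {n : ℕ}
    (E : (Fin (n + 1) → ℤ) ≃+ ℤ × (Fin n → ℤ)) : Laurent k n →+* Laurent k (n + 1) :=
  ((splitEquiv k E).symm.toRingEquiv.toRingHom).comp LaurentPolynomial.C

lemma incl_single (a : Fin n → ℤ) (x : k) :
    incl k E (AddMonoidAlgebra.single a x) = AddMonoidAlgebra.single (E.symm (0, a)) x :=
  splitEquiv_symm_C_single E a x

lemma incl_coeff (G : Laurent k n) (m : Fin (n + 1) → ℤ) :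
    (incl k E G).coeff m = if (E m).1 = 0 then G.coeff (E m).2 else 0 := by
  classical
  induction G using AddMonoidAlgebra.induction_linear with
  | zero => rw [map_zero, AddMonoidAlgebra.coeff_zero, AddMonoidAlgebra.coeff_zero]; simp
  | add F G h1 h2 =>
    rw [map_add, AddMonoidAlgebra.coeff_add, AddMonoidAlgebra.coeff_add, Finsupp.add_apply,
      Finsupp.add_apply, h1, h2]
    split_ifs <;> simp
  | single a x =>
    rw [incl_single, AddMonoidAlgebra.coeff_single, AddMonoidAlgebra.coeff_single,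
      Finsupp.single_apply, Finsupp.single_apply]
    by_cases h : E.symm (0, a) = m
    · have h1 : E m = (0, a) := by rw [← h, E.apply_symm_apply]
      rw [if_pos h, h1, if_pos rfl, if_pos rfl]
    · rw [if_neg h]
      split_ifs with h1 h2
      · exfalso
        apply h
        rw [← E.symm_apply_apply m]
        congr 1
        exact Prod.ext h1.symm h2
      · rfl
      · rfl

/-- the initial form and the slice -/
lemma inForm_eq_slice {w : Fin (n + 1) → ℤ} (hE : ∀ m, (E m).1 = m ⬝ᵥ w) {F : Laurent k (n + 1)}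
    (hF : F ≠ 0) : inForm w F =
      AddMonoidAlgebra.single (E.symm (minWt w F, 0)) 1 * incl k E (slice E (minWt w F) F) := by
  classical
  set μ := minWt w F with hμ
  apply AddMonoidAlgebra.coeff_injective
  ext m
  have h1 : m = E.symm (μ, 0) + (m - E.symm (μ, 0)) := by abel
  have h2 := AddMonoidAlgebra.coeff_single_mul_add (incl k E (slice E μ F)) (1 : k)
    (E.symm (μ, 0)) (m - E.symm (μ, 0))
  rw [← h1, one_mul] at h2
  rw [h2, incl_coeff, inForm_coeff (minWt_spec w hF), map_sub, E.apply_symm_apply, Prod.fst_sub,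
    Prod.snd_sub, slice_coeff, hE, sub_zero]
  by_cases h : m ⬝ᵥ w = μ
  · rw [if_pos h, if_pos (by rw [h, sub_self])]
    congr 1
    rw [← E.symm_apply_apply m]
    congr 1
    rw [E.apply_symm_apply]
    exact Prod.ext (by rw [hE, h]) rfl
  · rw [if_neg h, if_neg (fun h3 => h (by omega))]

lemma dvd_inForm {w : Fin (n + 1) → ℤ} (hE : ∀ m, (E m).1 = m ⬝ᵥ w) {F : Laurent k (n + 1)}
    (hF : F ≠ 0) {g : Laurent k n} (h : g ∣ slice E (minWt w F) F) :
    incl k E g ∣ inForm w F := by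
  rw [inForm_eq_slice E hE hF]
  exact (map_dvd (incl k E) h).mul_left _

lemma incl_ne_zero {g : Laurent k n} (hg : g ≠ 0) : incl k E g ≠ 0 := by
  obtain ⟨a, ha⟩ := ne_zero_iff_support.1 hg
  rw [ne_zero_iff_support]
  refine ⟨E.symm (0, a), ?_⟩
  rw [Finsupp.mem_support_iff, incl_coeff, E.apply_symm_apply, if_pos rfl]
  exact Finsupp.mem_support_iff.1 ha

lemma mem_incl_support {g : Laurent k n} {m : Fin (n + 1) → ℤ} :
    m ∈ (incl k E g).coeff.support ↔ (E m).1 = 0 ∧ (E m).2 ∈ g.coeff.support := by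
  rw [Finsupp.mem_support_iff, Finsupp.mem_support_iff, incl_coeff]
  split_ifs with h
  · simp [h]
  · simp [h]

lemma isMono_incl {g : Laurent k n} {w0 : Fin (n + 1) → ℤ} (h : IsMono w0 (incl k E g)) :
    IsMono (pull E w0) g := by
  obtain ⟨m0, hm0, hm⟩ := h
  obtain ⟨h1, h2⟩ := (mem_incl_support E).1 hm0
  refine ⟨(E m0).2, h2, fun a ha hne => ?_⟩
  have h3 := hm (E.symm (0, a)) ((mem_incl_support E).2 (by
    rw [E.apply_symm_apply]; exact ⟨rfl, ha⟩)) (by
    intro h
    apply hne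
    rw [← h, E.apply_symm_apply])
  rw [symm_zero_dot, dot_eq_pull E m0, h1, zero_mul, zero_add] at h3
  exact h3

lemma isMono_of_slice {w : Fin (n + 1) → ℤ} (hE : ∀ m, (E m).1 = m ⬝ᵥ w) {F : Laurent k (n + 1)}
    (hF : F ≠ 0) {w0 : Fin (n + 1) → ℤ} (h : IsMono (pull E w0) (slice E (minWt w F) F)) :
    IsMono w0 (inForm w F) := by
  obtain ⟨a0, ha0, ha⟩ := h
  have hspec := minWt_spec w hF
  rw [mem_slice_support] at ha0
  refine ⟨E.symm (minWt w F, a0), ?_, fun m hm hne => ?_⟩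
  · rw [mem_inForm_support hspec, ← hE, E.apply_symm_apply]
    exact ⟨ha0, rfl⟩
  · rw [mem_inForm_support hspec, ← hE] at hm
    have hm' : m = E.symm (minWt w F, (E m).2) := by
      rw [← E.symm_apply_apply m]
      congr 1
      rw [E.apply_symm_apply]
      exact Prod.ext hm.2 rfl
    have h3 := ha (E m).2 (by rw [mem_slice_support, ← hm']; exact hm.1) (by
      intro h
      apply hne
      rw [hm', h])
    rw [dot_eq_pull E m, dot_eq_pull E (E.symm _), E.apply_symm_apply, hm.2]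
    simpa using h3

end slices

lemma inForm_inForm_self {k : Type u} [Field k] {n : ℕ} {w : Fin n → ℤ} {F : Laurent k n}
    (h : IsMono w (inForm w F)) (hF : F ≠ 0) : IsMono w F := by
  obtain ⟨m0, hm0, hm⟩ := h
  have hspec := minWt_spec w hF
  obtain ⟨h1, h2⟩ := (mem_inForm_support hspec).1 hm0
  refine ⟨m0, h1, fun m hmF hne => ?_⟩
  rw [h2]
  refine lt_of_le_of_ne (hspec.2 m hmF) fun h => ?_
  have h3 := hm m ((mem_inForm_support hspec).2 ⟨hmF, h.symm⟩) hne
  omega

section main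

variable {k : Type u} [Field k] [IsAlgClosed k] [CharZero k] {K : Type v} [Field K] [Algebra k K]
  {n : ℕ} {G : LogGerm k K n} {y : Fin (n + 1) → K} {R : Finset (Fin (n + 1) → ℤ)}
  {f : (Fin (n + 1) → ℤ) →₀ k} {h : K}

/-- **Existence of divisors** over a germ of a nondegenerate hypersurface. -/
theorem exists_val_germ (hG : IsToricHypersurface G y R f) (hres : IsResidue G.ω y f h) {p : ℕ}
    (g : Fin p → (Fin (n + 1) → ℤ) →₀ k) (hg : ∀ j, laurentPoly y (g j) ≠ 0)
    (hnd : ∀ w, InInt (dualMonoid R) w → NondegAt w (fun j => (AddMonoidAlgebra.ofCoeff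
      ((Fin.cons f g : Fin (p + 1) → (Fin (n + 1) → ℤ) →₀ k) j) : Laurent k (n + 1))))
    {w : Fin (n + 1) → ℤ} (hw : ∃ m : Fin (n + 1) → ℤ, m ⬝ᵥ w = 1)
    (hwS : ∀ m ∈ dualMonoid R, 0 ≤ m ⬝ᵥ w) {w0 : Fin (n + 1) → ℤ}
    (hw0 : InInt (dualMonoid R) w0)
    (hmono : ¬ IsMono w0 (inForm w (AddMonoidAlgebra.ofCoeff f : Laurent k (n + 1)))) :
    ∃ v : DVal k K, v.IsDivisorial n ∧ (∀ i, v.val (y i) = w i) ∧
      v.FormOrd G.ω (-(1 + minWt w (AddMonoidAlgebra.ofCoeff f : Laurent k (n + 1)) + v.val h)) ∧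
      (∀ j, v.val (laurentPoly y (g j)) =
        minWt w (AddMonoidAlgebra.ofCoeff (g j) : Laurent k (n + 1))) ∧
      (∃ P, v.HasCenter G.A P ∧ P ≤ G.pt) ∧
      (InInt (dualMonoid R) w → v.HasCenter G.A G.pt) := by
  classical
  set F : Laurent k (n + 1) := AddMonoidAlgebra.ofCoeff f with hFdef
  have hy := hG.coordinates.ne_zero
  have hF : F ≠ 0 := ofCoeff_ne_zero (f_ne_zero hG.coordinates hres)
  obtain ⟨E, hE⟩ := exists_adapted w hw
  set μ := minWt w F with hμ
  set Q := slice E μ F with hQdef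
  have hQ0 : Q ≠ 0 := by
    obtain ⟨m, hm, hmw⟩ := (minWt_spec w hF).1
    rw [ne_zero_iff_support]
    refine ⟨(E m).2, ?_⟩
    rw [hQdef, mem_slice_support]
    have : (μ, (E m).2) = E m := Prod.ext (by rw [hE, hmw]) rfl
    rw [this, E.symm_apply_apply]
    exact hm
  have hQ : ¬ IsMono (pull E w0) Q := fun h => hmono (isMono_of_slice E hE hF h)
  obtain ⟨g1, hg1, hdvd, hnm⟩ := exists_prime_not_mono Q hQ0 hQ
  have hp : ¬ IsUnit (inForm w0 (incl k E g1)) := fun h =>
    hnm (isMono_incl E ((isMono_iff (incl_ne_zero E hg1.ne_zero) w0).2 h))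
  have hint : ∀ a : ℕ, InInt (dualMonoid R) ((a : ℤ) • w + w0) := by
    intro a m hm hm0
    rw [dotProduct_add, dotProduct_smul, smul_eq_mul]
    exact add_pos_of_nonneg_of_pos (mul_nonneg (by positivity) (hwS m hm)) (hw0 m hm hm0)
  have hsq : ¬ g1 * g1 ∣ Q := by
    intro hdiv
    have h1 := dvd_inForm E hE hF hdiv
    rw [map_mul] at h1
    have h2 := inForm_dvd w0 h1
    rw [inForm_mul] at h2
    obtain ⟨K0, hK0⟩ := exists_inForm_inForm w w0 F
    rw [← hK0 K0 le_rfl] at h2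
    exact nondeg_sq (hnd _ (hint K0)) 0 hp h2
  have hgj : ∀ j, ¬ g1 ∣ slice E (minWt w (AddMonoidAlgebra.ofCoeff (g j) : Laurent k (n + 1)))
      (AddMonoidAlgebra.ofCoeff (g j)) := by
    intro j hdiv
    have hGj : (AddMonoidAlgebra.ofCoeff (g j) : Laurent k (n + 1)) ≠ 0 :=
      ofCoeff_ne_zero (ne_zero_of_laurentPoly (hg j))
    have h1 := inForm_dvd w0 (dvd_inForm E hE hGj hdiv)
    have h2 := inForm_dvd w0 (dvd_inForm E hE hF hdvd)
    obtain ⟨K0, hK0⟩ := exists_inForm_inForm w w0 F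
    obtain ⟨K1, hK1⟩ := exists_inForm_inForm w w0
      (AddMonoidAlgebra.ofCoeff (g j) : Laurent k (n + 1))
    rw [← hK1 (K0 + K1) (by omega)] at h1
    rw [← hK0 (K0 + K1) (by omega)] at h2
    exact nondeg_pair (hnd _ (hint (K0 + K1))) (Fin.succ_ne_zero j).symm hp h2 h1
  obtain ⟨v, hv1, hv2, hv3, hv4⟩ := exists_val hy hG.coordinates.ker hG.coordinates.frac hres E hE
    hg1 hdvd hsq
  have hwty : wty v y = w := funext hv2
  have hnn : ∀ a : G.A, 0 ≤ v.ord (a : K) := by
    intro a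
    obtain ⟨P, hP, hPa⟩ := exists_laurent_of_mem_adjoin hy hG.coordinate_ring a.2
    rw [← hPa]
    have := le_ord_coordHom v hy P 0 fun m hm => by rw [hwty]; exact hwS m (hP m hm)
    exact_mod_cast this
  have hle : v.centerIdeal G.A hnn ≤ G.pt := by
    intro a ha
    have ha' : 0 < v.ord (a : K) := ha
    by_contra hapt
    obtain ⟨P, hP, hPa⟩ := exists_laurent_of_mem_adjoin hy hG.coordinate_ring a.2
    have hc0 : P.coeff 0 ≠ 0 := fun h0 =>
      hapt (mem_pt_of_coeff_zero hy hG.coordinate_ring hG.fixed_point hP hPa h0)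
    have h1 : g1 ∣ slice E 0 P := by
      rw [← (hv4 P 0 fun m hm => hwS m (hP m hm)).2, hPa]
      exact_mod_cast ha'
    have hE0 : E.symm ((0 : ℤ), (0 : Fin n → ℤ)) = 0 := E.symm.map_zero
    have hs0 : (0 : Fin n → ℤ) ∈ (slice E 0 P).coeff.support := by
      rw [mem_slice_support, hE0]
      exact Finsupp.mem_support_iff.2 hc0
    have hmono' : IsMono (pull E w0) (slice E 0 P) := by
      refine ⟨0, hs0, fun a' ha' hne => ?_⟩
      rw [zero_dotProduct, ← symm_zero_dot]
      rw [mem_slice_support] at ha'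
      refine hw0 _ (hP _ ha') fun h0 => hne ?_
      have h2 := congrArg E h0
      rw [E.apply_symm_apply, map_zero] at h2
      exact congrArg Prod.snd h2
    have hs : slice E 0 P ≠ 0 := ne_zero_iff_support.2 ⟨0, hs0⟩
    refine hnm ((isMono_iff hg1.ne_zero _).2 ?_)
    exact isUnit_of_dvd_unit (inForm_dvd _ h1) ((isMono_iff hs _).1 hmono')
  refine ⟨v, hv1, hv2, hv3, fun j => ?_, ⟨v.centerIdeal G.A hnn,
    v.centerIdeal_hasCenter G.A hnn, hle⟩, fun hint' => ⟨hnn, fun a => ⟨fun ha => ?_, fun ha => ?_⟩⟩⟩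
  · have h1 := hv4 (AddMonoidAlgebra.ofCoeff (g j)) _ fun m hm => minWt_le hm
    rw [← coordHom_ofCoeff hy]
    refine (v.ord_eq_iff.1 (le_antisymm (not_lt.1 fun h2 => hgj j (h1.2.1 h2)) h1.1)).2
  · obtain ⟨P, hP, hPa⟩ := exists_laurent_of_mem_adjoin hy hG.coordinate_ring a.2
    have h0 := coeff_zero_of_mem_pt hy hG.coordinate_ring G.isMaximal.ne_top hG.fixed_point hP hPa ha
    rw [← hPa]
    have := lt_ord_coordHom v hy P 0 fun m hm => by
      rw [hwty]
      refine hint' m (hP m hm) ?_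
      rintro rfl
      exact Finsupp.mem_support_iff.1 hm h0
    exact_mod_cast this
  · exact hle ha

end main

end Pool.Agent.H50.Hyp
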