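import Mathlib
import Pool.Agent.H50.Hyp.Comb

/-! # The input of the limiting argument -/

open scoped BigOperators
open Pool.Agent.H26

namespace Pool.Agent.H50.Hyp

universe u

variable {k : Type u} [Field k] {n : ℕ} {J : Type} [Fintype J] {f : J → Laurent k n} {d : J → ℝ}
  {u : Fin n → ℝ}

theorem comb_output (hf : ∀ j, f j ≠ 0) (Γ : Set ℝ) (hΓ : Γ ⊆ Set.Icc 0 1)
    (hdΓ : ∀ j, d j ∈ Γ) {S : AddSubmonoid (Fin n → ℤ)} {R : Finset (Fin n → ℤ)}
    (hnn : ∀ ρ ∈ R, ∀ m ∈ S, 0 ≤ m ⬝ᵥ ρ) (hmem : ∀ m : Fin n → ℤ, (∀ ρ ∈ R, 0 ≤ m ⬝ᵥ ρ) → m ∈ S)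
    (b : (Fin n → ℤ) → ℝ) (hb : ∀ ρ ∈ R, b ρ = 0 ∨ b ρ ∈ Γ)
    (hu : ∀ ρ ∈ R, Fun u f d ρ = 1 - b ρ) (t t' : ℝ)
    (ht : ∀ w, InInt S w → t ≤ Fun u f d w) {w : Fin n → ℤ} (hint : InInt S w) (hw0 : w ≠ 0)
    (hlt : Fun u f d w < t') :
    ∃ (U : Set (Fin n → ℝ)) (x : Fin n → ℝ),
      (∀ u ∈ U, ∀ l, u l ∈ (AddSubmonoid.closure Γ : Set ℝ)) ∧
      (∃ Q : ℕ, 0 < Q ∧ ∀ l, ∃ z : ℤ, Q * x l = z) ∧ (∀ l, 0 < x l) ∧
      (∀ (q : ℕ) (z : Fin n → ℤ), (∀ l, 0 < q * x l + z l) →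
        ∃ u ∈ U, t ≤ ∑ l, (1 - u l) * (q * x l + z l)) ∧
      (∀ u ∈ U, ∑ l, (1 - u l) * x l < t') := by
  classical
  have hd : ∀ j, 0 ≤ d j := fun j => (hΓ (hdΓ j)).1
  obtain ⟨c, x, hc, hx, hwx⟩ := exists_positive_combination R w hw0 (by
    intro m hm
    by_cases h0 : m = 0
    · rw [h0, zero_dotProduct]
    · exact (hint m (hmem m hm) h0).le)
  have hsum : ∀ (y : Fin n → ℝ) (m : J → Fin n → ℤ),
      ∑ l, (1 - (1 - lin u d m (toReal (c l)))) * y l =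
        lin u d m (∑ l, y l • toReal (c l)) := by
    intro y m
    rw [lin_sum]
    refine Finset.sum_congr rfl fun l _ => ?_
    ring
  have hwR : toReal w = ∑ l, (x l : ℝ) • toReal (c l) := by
    funext i
    have h1 : ((w i : ℚ) : ℝ) = ((∑ l, x l * (c l i : ℚ) : ℚ) : ℝ) := by rw [hwx i]
    push_cast at h1
    rw [Finset.sum_apply]
    exact h1
  refine ⟨{uu | ∃ m, IsSel f m ∧ uu = fun l => 1 - lin u d m (toReal (c l))},
    fun l => (x l : ℝ), ?_, ?_, ?_, ?_, ?_⟩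
  · rintro _ ⟨m, hm, rfl⟩ l
    have h1 : 1 - lin u d m (toReal (c l)) = b (c l) +
        ∑ j, (m j ⬝ᵥ c l - minWt (c l) (f j)).toNat • d j := by
      have h2 := hu (c l) (hc l)
      have h3 : ∀ j, (((m j ⬝ᵥ c l - minWt (c l) (f j)).toNat : ℕ) : ℝ) =
          ((m j ⬝ᵥ c l : ℤ) : ℝ) - (minWt (c l) (f j) : ℝ) := by
        intro j
        have h4 := (minWt_spec (c l) (hf j)).2 _ (hm j)
        have h5 : (((m j ⬝ᵥ c l - minWt (c l) (f j)).toNat : ℕ) : ℤ) =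
            m j ⬝ᵥ c l - minWt (c l) (f j) := Int.toNat_of_nonneg (by omega)
        have h6 : (((m j ⬝ᵥ c l - minWt (c l) (f j)).toNat : ℕ) : ℝ) =
            (((m j ⬝ᵥ c l - minWt (c l) (f j) : ℤ)) : ℝ) := by
          rw [← h5]; push_cast; rfl
        rw [h6]; push_cast; rfl
      simp_rw [nsmul_eq_mul, h3]
      rw [lin_toReal]
      unfold Fun at h2
      have h7 : ∑ j, (((m j ⬝ᵥ c l : ℤ) : ℝ) - (minWt (c l) (f j) : ℝ)) * d j =
          ∑ j, d j * ((m j ⬝ᵥ c l : ℤ) : ℝ) - ∑ j, d j * (minWt (c l) (f j) : ℝ) := by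
        rw [← Finset.sum_sub_distrib]
        exact Finset.sum_congr rfl fun j _ => by ring
      rw [h7]
      linarith
    change 1 - lin u d m (toReal (c l)) ∈ AddSubmonoid.closure Γ
    rw [h1]
    refine (AddSubmonoid.closure Γ).add_mem ?_ (AddSubmonoid.sum_mem _ fun j _ =>
      AddSubmonoid.nsmul_mem _ (AddSubmonoid.subset_closure (hdΓ j)) _)
    rcases hb (c l) (hc l) with h | h
    · rw [h]; exact AddSubmonoid.zero_mem _
    · exact AddSubmonoid.subset_closure h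
  · refine ⟨∏ l, (x l).den, Finset.prod_pos fun l _ => (x l).pos, fun l => ?_⟩
    refine ⟨(∏ j ∈ Finset.univ.erase l, ((x j).den : ℤ)) * (x l).num, ?_⟩
    have h1 : (∏ j, ((x j).den : ℤ)) = ((x l).den : ℤ) * ∏ j ∈ Finset.univ.erase l, ((x j).den : ℤ) :=
      (Finset.mul_prod_erase _ _ (Finset.mem_univ l)).symm
    have h2 : ((x l).den : ℚ) * x l = (x l).num := by
      rw [mul_comm]; exact Rat.mul_den_eq_num _
    have h3 : ((∏ j, (x j).den : ℕ) : ℚ) * x l =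
        (((∏ j ∈ Finset.univ.erase l, ((x j).den : ℤ)) * (x l).num : ℤ) : ℚ) := by
      have h4 : ((∏ j, (x j).den : ℕ) : ℚ) = ((∏ j, ((x j).den : ℤ) : ℤ) : ℚ) := by push_cast; rfl
      rw [h4, h1]
      push_cast
      calc ((x l).den : ℚ) * (∏ j ∈ Finset.univ.erase l, ((x j).den : ℚ)) * x l =
          (∏ j ∈ Finset.univ.erase l, ((x j).den : ℚ)) * (((x l).den : ℚ) * x l) := by ring
        _ = _ := by rw [h2]
    have h5 := congrArg (fun a : ℚ => (a : ℝ)) h3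
    push_cast at h5
    push_cast
    exact h5
  · intro l
    have := hx l
    change (0 : ℝ) < (x l : ℝ)
    exact_mod_cast this
  · intro q z hqz
    let w' : Fin n → ℤ := (q : ℤ) • w + ∑ l, z l • c l
    have hw'R : toReal w' = ∑ l, ((q : ℝ) * x l + z l) • toReal (c l) := by
      have h1 : toReal (∑ l, z l • c l) = ∑ l, (z l : ℝ) • toReal (c l) := by
        funext i
        simp only [toReal, Finset.sum_apply, Pi.smul_apply, smul_eq_mul]
        push_cast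
        rfl
      simp only [w']
      rw [toReal_add, toReal_smul, hwR, h1, Finset.smul_sum, ← Finset.sum_add_distrib]
      refine Finset.sum_congr rfl fun l _ => ?_
      rw [smul_smul, ← add_smul]
      push_cast
      rfl
    have hint' : InInt S w' := by
      refine hint.of_combination hnn hc hwx (y := fun l => (q : ℝ) * x l + z l) hqz ?_
      intro i
      have := congrFun hw'R i
      rw [Finset.sum_apply] at this
      exact this
    obtain ⟨m, hm, hmF⟩ := exists_sel (u := u) (d := d) hf w'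
    refine ⟨_, ⟨m, hm, rfl⟩, ?_⟩
    have h2 := hsum (fun l => (q : ℝ) * x l + z l) m
    rw [h2, ← hw'R, hmF]
    exact ht w' hint'
  · rintro _ ⟨m, hm, rfl⟩
    rw [hsum, ← hwR]
    exact (lin_le_Fun hf hd hm w).trans_lt hlt

end Pool.Agent.H50.Hyp
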