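import Mathlib
import Pool.Agent.H26.Cartier

/-! # Real units of a normal local domain -/

open scoped BigOperators
open Pool.Agent.H26

namespace Pool.Agent.H50.Hyp

universe u v

variable {k : Type u} {K : Type v} [Field k] [Field K] [Algebra k K]
  {A : Subalgebra k K} [IsFractionRing A K] [IsNoetherianRing A] [IsIntegrallyClosed A]

/-- an element without zeros and poles through `𝔪` is a unit at `𝔪` -/
lemma val_eq_zero_of_forall {𝔪 : Ideal A} [𝔪.IsPrime] {s : K} (hs : s ≠ 0)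
    (h : ∀ w : DVal k K, w.IsPrimeDivisorThrough A 𝔪 → w.val s = 0)
    (v : DVal k K) {P : Ideal A} (hv : v.HasCenter A P) (hP : P ≤ 𝔪) : v.val s = 0 := by
  have h1 : s ∈ Loc K 𝔪 := mem_Loc_of_forall (k := k) 𝔪 _ fun w hw => by
    rw [w.nonneg_ord_iff, h w hw]; exact Or.inr le_rfl
  have h2 : s⁻¹ ∈ Loc K 𝔪 := mem_Loc_of_forall (k := k) 𝔪 _ fun w hw => by
    rw [w.nonneg_ord_iff, w.val_inv hs, h w hw]; exact Or.inr (by simp)
  have h3 := ord_nonneg_of_mem_Loc hv hP h1
  have h4 := ord_nonneg_of_mem_Loc hv hP h2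
  rw [v.nonneg_ord_iff] at h3 h4
  have h5 := h3.resolve_left hs
  have h6 := h4.resolve_left (inv_ne_zero hs)
  rw [v.val_inv hs] at h6
  omega

/-- a real combination of divisors without components through `𝔪` -/
theorem sum_val_eq_zero {𝔪 : Ideal A} [𝔪.IsPrime] {ι : Type*} [Fintype ι] (c : ι → ℝ)
    (s : ι → K) (hs : ∀ i, s i ≠ 0)
    (h : ∀ w : DVal k K, w.IsPrimeDivisorThrough A 𝔪 → ∑ i, c i * (w.val (s i) : ℝ) = 0)
    (v : DVal k K) {P : Ideal A} (hv : v.HasCenter A P) (hP : P ≤ 𝔪) :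
    ∑ i, c i * (v.val (s i) : ℝ) = 0 := by
  classical
  set V : Submodule ℤ ℝ := Submodule.span ℤ (Set.range c) with hV
  have : Module.Finite ℤ V := Module.Finite.span_of_finite ℤ (Set.finite_range c)
  have : Module.Free ℤ V := Module.free_of_finite_type_torsion_free'
  let β := Module.finBasis ℤ V
  have hcV : ∀ i, c i ∈ V := fun i => Submodule.subset_span ⟨i, rfl⟩
  let q : ι → Fin (Module.finrank ℤ V) → ℤ := fun i j => β.repr ⟨c i, hcV i⟩ j
  have hq : ∀ i, c i = ∑ j, (q i j : ℝ) * (β j : ℝ) := by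
    intro i
    have h1 := β.sum_repr ⟨c i, hcV i⟩
    have h2 : ((∑ j, (β.repr ⟨c i, hcV i⟩) j • β j : V) : ℝ) = c i := congrArg Subtype.val h1
    rw [← h2, AddSubmonoidClass.coe_finsetSum]
    refine Finset.sum_congr rfl fun j _ => ?_
    simp [q]
  let S : Fin (Module.finrank ℤ V) → K := fun j => ∏ i, s i ^ (q i j)
  have hS0 : ∀ j, S j ≠ 0 := fun j => Finset.prod_ne_zero_iff.2 fun i _ => zpow_ne_zero _ (hs i)
  have hSval : ∀ (w : DVal k K) j, w.val (S j) = ∑ i, q i j * w.val (s i) := by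
    intro w j
    rw [w.val_prod _ _ fun i _ => zpow_ne_zero _ (hs i)]
    refine Finset.sum_congr rfl fun i _ => w.val_zpow (hs i) _
  have hsum : ∀ w : DVal k K, ∑ i, c i * (w.val (s i) : ℝ) =
      ∑ j, (β j : ℝ) * (w.val (S j) : ℝ) := by
    intro w
    simp_rw [hSval]
    push_cast
    simp_rw [Finset.mul_sum]
    rw [Finset.sum_comm]
    refine Finset.sum_congr rfl fun i _ => ?_
    rw [hq i, Finset.sum_mul]
    refine Finset.sum_congr rfl fun j _ => ?_
    ring
  have hSv : ∀ j, ∀ w : DVal k K, w.IsPrimeDivisorThrough A 𝔪 → w.val (S j) = 0 := by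
    intro j w hw
    have h1 := h w hw
    rw [hsum w] at h1
    have h2 : ∑ j, w.val (S j) • β j = 0 := by
      apply Subtype.ext
      rw [AddSubmonoidClass.coe_finsetSum]
      simp only [SetLike.val_smul, zsmul_eq_mul, ZeroMemClass.coe_zero]
      rw [← h1]
      refine Finset.sum_congr rfl fun j _ => mul_comm _ _
    exact (Fintype.linearIndependent_iff.1 β.linearIndependent) _ h2 j
  rw [hsum v]
  refine Finset.sum_eq_zero fun j _ => ?_
  rw [val_eq_zero_of_forall (hS0 j) (hSv j) v hv hP]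
  simp

end Pool.Agent.H50.Hyp
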