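import Mathlib
import Pool.Agent.H50.Hyp.RealUnit
import Pool.Agent.H50.Hyp.Output
import Pool.Agent.H50.Hyp.Exist2

/-! # ACC for minimal log discrepancies of nondegenerate toric hypersurfaces -/

open scoped BigOperators
open Pool.Agent.H26 KaehlerDifferential

namespace Pool.Agent.H50.Hyp

universe u v

section scale

variable {k : Type u} [Field k] {n : ℕ}

lemma isMinWt_smul {w : Fin n → ℤ} {F : Laurent k n} {μ : ℤ} (h : IsMinWt w F μ) {a : ℤ}
    (ha : 0 < a) : IsMinWt (a • w) F (a * μ) := by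
  obtain ⟨⟨m, hm, hmw⟩, hmin⟩ := h
  refine ⟨⟨m, hm, ?_⟩, fun m' hm' => ?_⟩
  · rw [dotProduct_smul, smul_eq_mul, hmw]
  · rw [dotProduct_smul, smul_eq_mul]
    exact mul_le_mul_of_nonneg_left (hmin m' hm') ha.le

lemma inForm_smul {w : Fin n → ℤ} {F : Laurent k n} (hF : F ≠ 0) {a : ℤ} (ha : 0 < a) :
    inForm (a • w) F = inForm w F := by
  apply AddMonoidAlgebra.coeff_injective
  ext m
  rw [inForm_coeff (minWt_spec w hF), inForm_coeff (isMinWt_smul (minWt_spec w hF) ha),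
    dotProduct_smul, smul_eq_mul]
  by_cases h : m ⬝ᵥ w = minWt w F
  · rw [if_pos h, if_pos (by rw [h])]
  · rw [if_neg h, if_neg (fun h1 => h (mul_left_cancel₀ ha.ne' h1))]

lemma isMono_smul {w : Fin n → ℤ} {F : Laurent k n} {a : ℤ} (ha : 0 < a) (h : IsMono w F) :
    IsMono (a • w) F := by
  obtain ⟨m0, hm0, hm⟩ := h
  refine ⟨m0, hm0, fun m hmF hne => ?_⟩
  rw [dotProduct_smul, dotProduct_smul, smul_eq_mul, smul_eq_mul]
  exact mul_lt_mul_of_pos_left (hm m hmF hne) ha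

end scale

section germ

variable {k : Type u} [Field k] {K : Type v} [Field K] [Algebra k K]
  {n : ℕ} {G : LogGerm k K n} {y : Fin (n + 1) → K} {R : Finset (Fin (n + 1) → ℤ)}
  {f : (Fin (n + 1) → ℤ) →₀ k} {h : K} {B B₀ : AmbientDivisor k (n + 1)}

/-- the log discrepancy function -/
noncomputable def BFun (B : AmbientDivisor k (n + 1)) (f : (Fin (n + 1) → ℤ) →₀ k)
    (w : Fin (n + 1) → ℤ) : ℝ :=
  Fun B.u (fam (AddMonoidAlgebra.ofCoeff f : Laurent k (n + 1))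
    (fun j => (AddMonoidAlgebra.ofCoeff (B.g j) : Laurent k (n + 1)))) (cof B.d) w

lemma BFun_eq (w : Fin (n + 1) → ℤ) : BFun B f w =
    ∑ i, B.u i * (w i : ℝ) - (minWt w (AddMonoidAlgebra.ofCoeff f : Laurent k (n + 1)) +
      ∑ j, B.d j * (minWt w (AddMonoidAlgebra.ofCoeff (B.g j) : Laurent k (n + 1)) : ℝ)) :=
  Fun_fam _ _ _ _ _

lemma BFun_ray {Γ : Set ℝ} (hf : f ≠ 0) (hB : B.IsBoundary y R f Γ) {ρ : Fin (n + 1) → ℤ}
    (hρ : ρ ∈ R) : BFun B f ρ = 1 - B.c ρ := by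
  rw [BFun_eq, hB.cartier ρ hρ, minWeight_eq ρ hf]
  simp_rw [fun j => minWeight_eq ρ (ne_zero_of_laurentPoly (hB.ne_zero j))]
  ring

lemma adj_eq_BFun {v : DVal k K} {w : Fin (n + 1) → ℤ} (hv : ∀ i, v.val (y i) = w i)
    (hg : ∀ j, v.val (laurentPoly y (B.g j)) =
      minWt w (AddMonoidAlgebra.ofCoeff (B.g j) : Laurent k (n + 1))) :
    B.adjDiscrepancy y h v
      (-(1 + minWt w (AddMonoidAlgebra.ofCoeff f : Laurent k (n + 1)) + v.val h)) =
      BFun B f w := by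
  rw [BFun_eq]
  unfold AmbientDivisor.adjDiscrepancy
  simp_rw [hv, hg]
  push_cast
  ring

/-- the log discrepancies are computed by adjunction -/
lemma isLogDiscrepancy_iff (hy : ∀ i, y i ≠ 0) (hh : h ≠ 0) (hD : IsDifferent B G y h)
    (hg : ∀ j, laurentPoly y (B.g j) ≠ 0) {v : DVal k K} {P : Ideal G.A}
    (hv : v.HasCenter G.A P) (hP : P ≤ G.pt) {e : ℤ} (he : v.FormOrd G.ω e) (a : ℝ) :
    G.IsLogDiscrepancy v a ↔ a = B.adjDiscrepancy y h v e := by
  classical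
  have := G.isFractionRing
  have := G.normal
  have hnoeth : IsNoetherianRing G.A := by
    have : Algebra.FiniteType k G.A := G.A.fg_iff_finiteType.1 G.fg
    exact Algebra.FiniteType.isNoetherianRing k _
  have hprime := G.isMaximal.isPrime
  let c : G.ι ⊕ (Unit ⊕ (Fin (n + 1) ⊕ Fin B.p)) → ℝ :=
    Sum.elim G.r (Sum.elim (fun _ => 1) (Sum.elim B.u (fun j => -B.d j)))
  let s : G.ι ⊕ (Unit ⊕ (Fin (n + 1) ⊕ Fin B.p)) → K :=
    Sum.elim G.s (Sum.elim (fun _ => h) (Sum.elim y (fun j => laurentPoly y (B.g j))))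
  have hs : ∀ i, s i ≠ 0 := by
    rintro (i | i | i | j)
    · exact G.s_ne_zero i
    · exact hh
    · exact hy i
    · exact hg j
  have hsum : ∀ v : DVal k K, ∑ i, c i * (v.val (s i) : ℝ) =
      ∑ i, G.r i * (v.val (G.s i) : ℝ) + v.val h + ∑ i, B.u i * (v.val (y i) : ℝ) -
        ∑ j, B.d j * (v.val (laurentPoly y (B.g j)) : ℝ) := by
    intro v
    rw [Fintype.sum_sum_type, Fintype.sum_sum_type, Fintype.sum_sum_type]
    simp only [c, s, Sum.elim_inl, Sum.elim_inr, Finset.univ_unique, Finset.sum_singleton, one_mul,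
      neg_mul, Finset.sum_neg_distrib]
    ring
  have h0 : ∀ w : DVal k K, w.IsPrimeDivisorThrough G.A G.pt →
      ∑ i, c i * (w.val (s i) : ℝ) = 0 := by
    intro w hw
    obtain ⟨e', he', hcar⟩ := G.cartier w hw
    have h1 := hD w hw e' he'
    rw [hsum, ← hcar, h1]
    unfold AmbientDivisor.adjDiscrepancy
    ring
  have h2 := sum_val_eq_zero c s hs h0 v hv hP
  rw [hsum] at h2
  constructor
  · rintro ⟨e', he', rfl⟩
    rw [FormOrd_unique v G.ω he' he]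
    unfold AmbientDivisor.adjDiscrepancy
    linarith
  · rintro rfl
    refine ⟨e, he, ?_⟩
    unfold AmbientDivisor.adjDiscrepancy
    linarith

lemma inInt_of_hasCenter (hG : IsToricHypersurface G y R f) {v : DVal k K}
    (hv : v.HasCenter G.A G.pt) : InInt (dualMonoid R) (wty v y) := by
  intro m hm hm0
  obtain ⟨a, ha, ham⟩ := hG.fixed_point m hm hm0
  have h1 := (hv.2 a).1 ha
  rw [ham, ord_monom v hG.coordinates.ne_zero] at h1
  exact_mod_cast h1

lemma nondeg_family {Γ : Set ℝ} (hB : B.IsBoundary y R f Γ) (w : Fin (n + 1) → ℤ)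
    (hw : InInt (dualMonoid R) w) : NondegAt w (fun j => (AddMonoidAlgebra.ofCoeff
      ((Fin.cons f B.g : Fin (B.p + 1) → (Fin (n + 1) → ℤ) →₀ k) j) : Laurent k (n + 1))) :=
  nondegAt_of (hB.nondegenerate w hw)

/-- the lower bound of the log discrepancies -/
lemma BFun_le [IsAlgClosed k] {Γ : Set ℝ} (hΓ : Γ ⊆ Set.Icc 0 1)
    (hG : IsToricHypersurface G y R f) (hres : IsResidue G.ω y f h) (hB : B.IsBoundary y R f Γ)
    {v : DVal k K} (hv : v.HasCenter G.A G.pt) {e : ℤ} (he : v.FormOrd G.ω e) :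
    BFun B f (wty v y) ≤ B.adjDiscrepancy y h v e := by
  classical
  have hy := hG.coordinates.ne_zero
  have hf := f_ne_zero hG.coordinates hres
  have hint := inInt_of_hasCenter hG hv
  have hne : ∀ j : Fin (B.p + 1), (AddMonoidAlgebra.ofCoeff
      ((Fin.cons f B.g : Fin (B.p + 1) → (Fin (n + 1) → ℤ) →₀ k) j) : Laurent k (n + 1)) ≠ 0 := by
    intro j
    refine Fin.cases ?_ (fun j => ?_) j
    · exact ofCoeff_ne_zero hf
    · exact ofCoeff_ne_zero (ne_zero_of_laurentPoly (hB.ne_zero j))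
  have h1 := lower_bound hy hres v e he (J := Fin (B.p + 1)) (fun j => AddMonoidAlgebra.ofCoeff
      ((Fin.cons f B.g : Fin (B.p + 1) → (Fin (n + 1) → ℤ) →₀ k) j)) 0 rfl
      ((hG.coordinates.ker _).2 dvd_rfl) (fun j hj => by
        obtain ⟨i, rfl⟩ := Fin.exists_succ_eq.2 hj
        rw [coordHom_ofCoeff hy]
        exact hB.ne_zero i) (nondeg_family hB _ hint)
      (fun j => minWt (wty v y) (AddMonoidAlgebra.ofCoeff
      ((Fin.cons f B.g : Fin (B.p + 1) → (Fin (n + 1) → ℤ) →₀ k) j)))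
      (fun j => minWt_spec _ (hne j))
  have h2 : ∑ j ∈ Finset.univ.erase (0 : Fin (B.p + 1)), (v.val (coordHom k hy
      (AddMonoidAlgebra.ofCoeff ((Fin.cons f B.g : Fin (B.p + 1) → (Fin (n + 1) → ℤ) →₀ k) j))) -
      minWt (wty v y) (AddMonoidAlgebra.ofCoeff
      ((Fin.cons f B.g : Fin (B.p + 1) → (Fin (n + 1) → ℤ) →₀ k) j) : Laurent k (n + 1))) =
      ∑ j : Fin B.p, (v.val (laurentPoly y (B.g j)) -
        minWt (wty v y) (AddMonoidAlgebra.ofCoeff (B.g j) : Laurent k (n + 1))) := by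
    have h3 := Finset.add_sum_erase Finset.univ (fun j : Fin (B.p + 1) => (v.val (coordHom k hy
      (AddMonoidAlgebra.ofCoeff ((Fin.cons f B.g : Fin (B.p + 1) → (Fin (n + 1) → ℤ) →₀ k) j))) -
      minWt (wty v y) (AddMonoidAlgebra.ofCoeff
      ((Fin.cons f B.g : Fin (B.p + 1) → (Fin (n + 1) → ℤ) →₀ k) j) : Laurent k (n + 1))))
      (Finset.mem_univ 0)
    rw [Fin.sum_univ_succ, add_right_inj] at h3
    rw [h3]
    refine Finset.sum_congr rfl fun j _ => ?_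
    rw [coordHom_ofCoeff hy]
    rfl
  rw [h2] at h1
  have h4 : ∀ j, 0 ≤ (1 - B.d j) * ((v.val (laurentPoly y (B.g j)) : ℝ) -
      minWt (wty v y) (AddMonoidAlgebra.ofCoeff (B.g j) : Laurent k (n + 1))) := by
    intro j
    have h5 := le_ord_coordHom v hy (AddMonoidAlgebra.ofCoeff (B.g j))
      (minWt (wty v y) (AddMonoidAlgebra.ofCoeff (B.g j))) fun m hm => minWt_le hm
    rw [coordHom_ofCoeff hy] at h5
    have h6 := (v.le_ord_iff.1 h5).resolve_left (hB.ne_zero j)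
    have h7 : ((minWt (wty v y) (AddMonoidAlgebra.ofCoeff (B.g j) : Laurent k (n + 1)) : ℤ) : ℝ) ≤
      (v.val (laurentPoly y (B.g j)) : ℝ) := by exact_mod_cast h6
    have h8 := (hΓ (hB.coeff j)).2
    exact mul_nonneg (by linarith) (by linarith)
  have h5 := Finset.sum_nonneg fun j (_ : j ∈ Finset.univ) => h4 j
  have h6 : ∑ j, (1 - B.d j) * ((v.val (laurentPoly y (B.g j)) : ℝ) -
      minWt (wty v y) (AddMonoidAlgebra.ofCoeff (B.g j) : Laurent k (n + 1))) =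
      ∑ j, ((v.val (laurentPoly y (B.g j)) : ℝ) -
        minWt (wty v y) (AddMonoidAlgebra.ofCoeff (B.g j) : Laurent k (n + 1))) -
      ∑ j, B.d j * (v.val (laurentPoly y (B.g j)) : ℝ) +
      ∑ j, B.d j * (minWt (wty v y) (AddMonoidAlgebra.ofCoeff (B.g j) : Laurent k (n + 1)) : ℝ) := by
    rw [← Finset.sum_sub_distrib, ← Finset.sum_add_distrib]
    refine Finset.sum_congr rfl fun j _ => ?_
    ring
  have h7 : ∑ j, ((v.val (laurentPoly y (B.g j)) : ℝ) -
        minWt (wty v y) (AddMonoidAlgebra.ofCoeff (B.g j) : Laurent k (n + 1))) ≤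
      (e : ℝ) + v.val h + 1 + minWt (wty v y) (AddMonoidAlgebra.ofCoeff f : Laurent k (n + 1)) := by
    exact_mod_cast h1
  rw [BFun_eq]
  unfold AmbientDivisor.adjDiscrepancy
  have h8 : ∑ i, B.u i * ((wty v y i : ℤ) : ℝ) = ∑ i, B.u i * (v.val (y i) : ℝ) := rfl
  rw [h8]
  linarith

/-- the log discrepancy function of a klt pair is positive -/
lemma BFun_pos [IsAlgClosed k] [CharZero k]
    (hG : IsToricHypersurface G y R f) (hres : IsResidue G.ω y f h)
    (hB₀ : B₀.IsBoundary y R f (Set.Icc 0 1)) (hklt : IsKltDifferent B₀ G y h)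
    {w0 : Fin (n + 1) → ℤ} (hw0 : InInt (dualMonoid R) w0) {w : Fin (n + 1) → ℤ}
    (hw : ∀ m ∈ dualMonoid R, 0 ≤ m ⬝ᵥ w) (hw' : w ≠ 0) : 0 < BFun B₀ f w := by
  classical
  have hf := f_ne_zero hG.coordinates hres
  have hF : (AddMonoidAlgebra.ofCoeff f : Laurent k (n + 1)) ≠ 0 := ofCoeff_ne_zero hf
  have hg : ∀ j, (AddMonoidAlgebra.ofCoeff (B₀.g j) : Laurent k (n + 1)) ≠ 0 := fun j =>
    ofCoeff_ne_zero (ne_zero_of_laurentPoly (hB₀.ne_zero j))
  have hfam : ∀ j, fam (AddMonoidAlgebra.ofCoeff f : Laurent k (n + 1))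
    (fun j => (AddMonoidAlgebra.ofCoeff (B₀.g j) : Laurent k (n + 1))) j ≠ 0 := by
    rintro (_ | j)
    · exact hF
    · exact hg j
  have hcof : ∀ j, 0 ≤ cof B₀.d j := by
    rintro (_ | j)
    · exact zero_le_one
    · exact (hB₀.coeff j).1
  obtain ⟨m1, hm1, _, hm1R⟩ := exists_strict hG.rays (rays_nonempty hG hf)
  refine Fun_pos_cone hfam hcof none rfl (S := dualMonoid R) (R := R) (fun ρ hρ m hm => hm ρ hρ)
    (passesThrough hG) (fun ρ hρ => ?_) ⟨m1, hm1, hm1R⟩ hw0 ?_ hw hw'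
  · have h1 := BFun_ray hf hB₀ hρ
    unfold BFun at h1
    rw [h1]
    have h2 : 0 ≤ B₀.c ρ := by
      rcases hB₀.coeff_invariant ρ hρ with h | h
      · rw [h]
      · exact h.1
    linarith
  · intro w hw hwne w0 hw0 hmono
    obtain ⟨a, w', ha, hww', hprim⟩ := exists_primitive w hwne
    have hdot : ∀ m : Fin (n + 1) → ℤ, m ⬝ᵥ w = a * (m ⬝ᵥ w') := fun m => by
      rw [hww', dotProduct_smul, smul_eq_mul]
    have hw'S : ∀ m ∈ dualMonoid R, 0 ≤ m ⬝ᵥ w' := by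
      intro m hm
      have := hw m hm
      rw [hdot] at this
      exact nonneg_of_mul_nonneg_right this ha
    have hmono' : ¬ IsMono w0 (inForm w' (AddMonoidAlgebra.ofCoeff f : Laurent k (n + 1))) := by
      rw [hww'] at hmono
      rwa [show inForm (a • w') (fam (AddMonoidAlgebra.ofCoeff f : Laurent k (n + 1))
        (fun j => (AddMonoidAlgebra.ofCoeff (B₀.g j) : Laurent k (n + 1))) none) =
        inForm w' (AddMonoidAlgebra.ofCoeff f : Laurent k (n + 1)) from inForm_smul hF ha] at hmono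
    obtain ⟨v, hv1, hv2, hv3, hv4, ⟨P, hP, hPpt⟩, _⟩ := exists_val_germ hG hres B₀.g hB₀.ne_zero
      (nondeg_family hB₀) hprim hw'S hw0 hmono'
    have h1 := hklt v hv1 ⟨P, hP, hPpt⟩ _ hv3
    rw [adj_eq_BFun hv2 hv4] at h1
    have h2 := Fun_smul (u := B₀.u) (d := cof B₀.d) hfam ha.le w'
    rw [hww', h2]
    exact mul_pos (by exact_mod_cast ha) h1

theorem hyp_output [IsAlgClosed k] [CharZero k] (Γ : Set ℝ) (hΓ : Γ ⊆ Set.Icc 0 1)
    (hG : IsToricHypersurface G y R f) (hres : IsResidue G.ω y f h)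
    (hB : B.IsBoundary y R f Γ) (hD : IsDifferent B G y h)
    (hB₀ : B₀.IsBoundary y R f (Set.Icc 0 1)) (hklt : IsKltDifferent B₀ G y h)
    (hlc : 0 ≤ G.mld) (t t' : ℝ) (ht : G.mld = t) (htt' : t < t') :
    ∃ (U : Set (Fin (n + 1) → ℝ)) (x : Fin (n + 1) → ℝ),
      (∀ u ∈ U, ∀ l, u l ∈ (AddSubmonoid.closure (insert 1 Γ) : Set ℝ)) ∧
      (∃ Q : ℕ, 0 < Q ∧ ∀ l, ∃ z : ℤ, Q * x l = z) ∧ (∀ l, 0 < x l) ∧
      (∀ (q : ℕ) (z : Fin (n + 1) → ℤ), (∀ l, 0 < q * x l + z l) →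
        ∃ u ∈ U, t ≤ ∑ l, (1 - u l) * (q * x l + z l)) ∧
      (∀ u ∈ U, ∑ l, (1 - u l) * x l < t') := by
  classical
  have hy := hG.coordinates.ne_zero
  have hf := f_ne_zero hG.coordinates hres
  have hF : (AddMonoidAlgebra.ofCoeff f : Laurent k (n + 1)) ≠ 0 := ofCoeff_ne_zero hf
  have hg : ∀ j, (AddMonoidAlgebra.ofCoeff (B.g j) : Laurent k (n + 1)) ≠ 0 := fun j =>
    ofCoeff_ne_zero (ne_zero_of_laurentPoly (hB.ne_zero j))
  have hg₀ : ∀ j, (AddMonoidAlgebra.ofCoeff (B₀.g j) : Laurent k (n + 1)) ≠ 0 := fun j =>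
    ofCoeff_ne_zero (ne_zero_of_laurentPoly (hB₀.ne_zero j))
  have hfam : ∀ j, fam (AddMonoidAlgebra.ofCoeff f : Laurent k (n + 1))
    (fun j => (AddMonoidAlgebra.ofCoeff (B.g j) : Laurent k (n + 1))) j ≠ 0 := by
    rintro (_ | j)
    · exact hF
    · exact hg j
  have hd : ∀ j, 0 ≤ B.d j := fun j => (hΓ (hB.coeff j)).1
  have hd₀ : ∀ j, 0 ≤ B₀.d j := fun j => (hB₀.coeff j).1
  obtain ⟨m1, hm1, hm10, hm1R⟩ := exists_strict hG.rays (rays_nonempty hG hf)
  have ht0 : 0 ≤ t := by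
    rw [ht] at hlc
    exact_mod_cast hlc
  have hle1 : ∀ ρ ∈ R, BFun B f ρ ≤ 1 := by
    intro ρ hρ
    rw [BFun_ray hf hB hρ]
    have h2 : 0 ≤ B.c ρ := by
      rcases hB.coeff_invariant ρ hρ with h | h
      · rw [h]
      · exact (hΓ h).1
    linarith
  have hle1' : ∀ ρ ∈ R, BFun B₀ f ρ ≤ 1 := by
    intro ρ hρ
    rw [BFun_ray hf hB₀ hρ]
    have h2 : 0 ≤ B₀.c ρ := by
      rcases hB₀.coeff_invariant ρ hρ with h | h
      · rw [h]
      · exact h.1
    linarith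
  -- a divisor with small log discrepancy
  obtain ⟨w, hint, hlt⟩ : ∃ w : Fin (n + 1) → ℤ, InInt (dualMonoid R) w ∧ BFun B f w < t' := by
    have h1 : G.mld < ((t' : ℝ) : EReal) := by rw [ht]; exact_mod_cast htt'
    obtain ⟨_, ⟨v, b, _, hv2, hv3, rfl⟩, hlt⟩ := sInf_lt_iff.1 h1
    have hlt' : b < t' := by exact_mod_cast hlt
    obtain ⟨e, he, _⟩ := id hv3
    have h2 := (isLogDiscrepancy_iff hy hres.1 hD hB.ne_zero hv2 le_rfl he b).1 hv3
    refine ⟨wty v y, inInt_of_hasCenter hG hv2, ?_⟩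
    have h3 := BFun_le hΓ hG hres hB hv2 he
    rw [← h2] at h3
    exact h3.trans_lt hlt'
  have hne : ∀ w : Fin (n + 1) → ℤ, InInt (dualMonoid R) w → w ≠ 0 := by
    rintro w hw rfl
    have := hw m1 hm1 hm10
    rw [dotProduct_zero] at this
    exact lt_irrefl _ this
  -- positivity of the perturbation
  have hpos : ∀ δ : Fin (n + 1) → ℤ, (∀ m ∈ dualMonoid R, 0 ≤ m ⬝ᵥ δ) → δ ≠ 0 →
      0 < BFun B₀ f δ := fun δ hδ hδ0 => BFun_pos hG hres hB₀ hklt hint hδ hδ0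
  -- the bound on the tropical hypersurface
  have htrop : ∀ w, InInt (dualMonoid R) w →
      ¬ IsMono w (AddMonoidAlgebra.ofCoeff f : Laurent k (n + 1)) → t ≤ BFun B f w := by
    intro w hw hmono
    obtain ⟨a, w', ha, hww', hprim⟩ := exists_primitive w (hne w hw)
    have hdot : ∀ m : Fin (n + 1) → ℤ, m ⬝ᵥ w = a * (m ⬝ᵥ w') := fun m => by
      rw [hww', dotProduct_smul, smul_eq_mul]
    have hint' : InInt (dualMonoid R) w' := by
      intro m hm hm0
      have := hw m hm hm0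
      rw [hdot] at this
      exact pos_of_mul_pos_right this ha.le
    have hw'S : ∀ m ∈ dualMonoid R, 0 ≤ m ⬝ᵥ w' := by
      intro m hm
      by_cases h0 : m = 0
      · rw [h0, zero_dotProduct]
      · exact (hint' m hm h0).le
    have hmono' : ¬ IsMono w' (inForm w' (AddMonoidAlgebra.ofCoeff f : Laurent k (n + 1))) := by
      intro h
      apply hmono
      rw [hww']
      exact isMono_smul ha (inForm_inForm_self h hF)
    obtain ⟨v, hv1, hv2, hv3, hv4, _, hv5⟩ := exists_val_germ hG hres B.g hB.ne_zero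
      (nondeg_family hB) hprim hw'S hint' hmono'
    have hcent := hv5 hint'
    have h1 : G.IsLogDiscrepancy v (BFun B f w') := by
      rw [isLogDiscrepancy_iff hy hres.1 hD hB.ne_zero hcent le_rfl hv3]
      exact (adj_eq_BFun hv2 hv4).symm
    have h2 : G.mld ≤ ((BFun B f w' : ℝ) : EReal) := sInf_le ⟨v, _, hv1, hcent, h1, rfl⟩
    rw [ht] at h2
    have h3 : t ≤ BFun B f w' := by exact_mod_cast h2
    have h4 : BFun B f w = a * BFun B f w' := by
      rw [hww']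
      exact Fun_smul (u := B.u) (d := cof B.d) hfam ha.le w'
    have h5 : (1 : ℝ) ≤ a := by exact_mod_cast ha
    rw [h4]
    nlinarith
  have hall : ∀ w, InInt (dualMonoid R) w → t ≤ BFun B f w := fun w hw =>
    le_Fun_of_trop hF hg hg₀ hd hd₀ (S := dualMonoid R) (R := R) (fun ρ hρ m hm => hm ρ hρ)
      (passesThrough hG) hle1 hle1' ⟨m1, hm1R⟩ hpos
      (fun w hw hm => ht0.trans (htrop w hw hm)) t htrop hw
  have hΓ1 : insert 1 Γ ⊆ Set.Icc (0 : ℝ) 1 := Set.insert_subset (by simp) hΓ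
  exact comb_output hfam (insert 1 Γ) hΓ1 (by
      rintro (_ | j)
      · exact Set.mem_insert _ _
      · exact Set.mem_insert_of_mem _ (hB.coeff j))
    (S := dualMonoid R) (R := R) (fun ρ hρ m hm => hm ρ hρ) (fun m hm => hm) B.c
    (fun ρ hρ => (hB.coeff_invariant ρ hρ).imp id (Set.mem_insert_of_mem _))
    (fun ρ hρ => BFun_ray hf hB hρ) t t' hall hint (hne w hint) hlt

end germ

theorem hypersurface_acc (k : Type u) [Field k] [IsAlgClosed k] [CharZero k] (n : ℕ) (Γ : Set ℝ)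
    (hΓ : Γ ⊆ Set.Icc 0 1) (hDCC : DCC Γ) : ACC (hypersurfaceMlds k n Γ) := by
  refine ACC_of_real fun t ht hmono => ?_
  have hout : ∀ j, ∃ (U : Set (Fin (n + 1) → ℝ)) (x : Fin (n + 1) → ℝ),
      (∀ u ∈ U, ∀ l, u l ∈ (AddSubmonoid.closure (insert 1 Γ) : Set ℝ)) ∧
      (∃ Q : ℕ, 0 < Q ∧ ∀ l, ∃ z : ℤ, Q * x l = z) ∧ (∀ l, 0 < x l) ∧
      (∀ (q : ℕ) (z : Fin (n + 1) → ℤ), (∀ l, 0 < q * x l + z l) →
        ∃ u ∈ U, t j ≤ ∑ l, (1 - u l) * (q * x l + z l)) ∧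
      (∀ u ∈ U, ∑ l, (1 - u l) * x l < t (j + 1)) := by
    intro j
    obtain ⟨K, _, _, G, y, R, f, h, B, B₀, hG, hres, hB, hD, hB₀, hklt, hlc, hmld⟩ := ht j
    exact hyp_output Γ hΓ hG hres hB hD hB₀ hklt hlc (t j) (t (j + 1)) hmld.symm
      (hmono (Nat.lt_succ_self j))
  choose U x hU hx hpos E1 E2 using hout
  have hΓ1 : insert 1 Γ ⊆ Set.Icc (0 : ℝ) 1 := Set.insert_subset (by simp) hΓ
  have hPWO : (AddSubmonoid.closure (insert 1 Γ) : Set ℝ).IsPWO :=
    (hDCC.isPWO.insert 1).addSubmonoid_closure fun _ hx => (hΓ1 hx).1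
  exact engine (n + 1) hPWO (closure_nonneg hΓ1) U hU x hx hpos t E1 E2 hmono

end Pool.Agent.H50.Hyp
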